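import Pool.Agent.H12E.Final

/-! The core theorem: `Lk k` is not an inverse homomorphic image of the language of a small ETOL
system. -/

namespace Pool.Agent.H12E

section

variable {k : ℕ} {D0 : Type}

theorem exists_rho (G : ETOL D0) : ∃ ρ, ∀ t ∈ G.tables, ∀ a, ∀ u ∈ t a, u.length ≤ ρ := by
  have : Finite G.Sig := G.fin
  have hfin : (⋃ t ∈ G.tables, ⋃ a, t a).Finite := by
    refine G.tables_fin.biUnion (fun t ht => Set.finite_iUnion (fun a => (G.tables_ok t ht a).1))
  obtain ⟨ρ, hρ⟩ := (hfin.image List.length).bddAbove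
  refine ⟨ρ, fun t ht a u hu => hρ ⟨u, ?_, rfl⟩⟩
  simp only [Set.mem_iUnion]
  exact ⟨t, ht, a, hu⟩

theorem exists_Hm (h : Lt k → List D0) : ∃ Hm, ∀ x, (h x).length ≤ Hm := by
  obtain ⟨Hm, hHm⟩ := (Set.finite_range (fun x => (h x).length)).bddAbove
  exact ⟨Hm, fun x => hHm ⟨x, rfl⟩⟩

theorem core (hlay : ∀ n0 C C' L J : ℕ, 2 ≤ n0 → 1 ≤ C → 1 ≤ C' → 100 * 3 ^ C ≤ L →
    Nonempty (Layout k n0 C C' L J)) (G : ETOL D0) (h : Lt k → List D0)
    (hk : 2 ^ (Nat.card G.Sig * Nat.card G.Sig) < k) :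
    ¬ ∀ v, v ∈ Lk k ↔ hom h v ∈ G.lang := by
  classical
  intro hG
  have : Finite G.Sig := G.fin
  obtain ⟨ρ, hρ⟩ := exists_rho G
  obtain ⟨Hm, hHm⟩ := exists_Hm h
  have hmn : ∀ x, h (Lt.mn x) ≠ [] := by
    intro x hx
    have h1 : [Lt.mn x] ∈ Lk k := ⟨[x], by simp, by
      simpa using Str.cons (x := x) (Blk.plain (G := [])) Str.nil⟩
    have h2 := (hG _).1 h1
    have h3 : hom h [Lt.mn x] = hom h [] := by simp [hx]
    rw [h3] at h2
    obtain ⟨g, hg, hs⟩ := (hG _).2 h2
    cases hs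
    exact hg rfl
  -- constants
  let C := (tySet G.Sig h).ncard + 1
  let L := 100 * 3 ^ C + (3 * (Hm + 1) + 2)
  let C' := 2 * nsym G.Sig h L + 1
  let K := nref G.Sig h L * (nsym G.Sig h L * 2)
  let J := Jd G h L ρ
  let n0 := (clsSet G h L ρ).ncard * (2 * K + 4 + 1) + 2
  have hL1 : 100 * 3 ^ C ≤ L := Nat.le_add_right _ _
  have hL2 : 3 * (Hm + 1) + 2 ≤ L := Nat.le_add_left _ _
  obtain ⟨lay⟩ := hlay n0 C C' L J (Nat.le_add_left _ _) (Nat.le_add_left _ _)
    (Nat.le_add_left _ _) hL1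
  obtain ⟨T, hT, hst⟩ := (hG _).1 lay.hw
  have hne : hom h lay.w ≠ [] := by
    obtain ⟨x, y, x', W, -, hw⟩ := lay.head
    rw [hw, hom_cons]
    intro h0
    exact hmn x (List.append_eq_nil_iff.1 h0).1
  obtain ⟨D⟩ := exists_deriv (G.term : D0 → G.Sig) h hne hst
  let c : Ctx G h T lay.w L := ⟨fun v hv => (hG v).2 hv, hT, lay.hw, D, fun P O Q hw hO =>
    lay.big P O Q (by rw [hw, List.append_assoc]) hO⟩
  have hρT : ∀ t ∈ T, ∀ a, ∀ u ∈ t a, u.length ≤ ρ := fun t ht => hρ t (hT t ht)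
  have hlast := c.p_last hmn hHm hL2
  have hn0pos : 0 < n0 := by omega
  -- positions are small
  have hpos : ∀ q < n0 ^ k, lay.pos q ≤ c.p T.length := by
    intro q hq
    rw [hlast]
    have h1 := lay.pos_lt_mk q hq 0 (Nat.succ_pos _)
    have h2 := lay.mk_small q hq 0 (Nat.succ_pos _)
    omega
  -- levels
  have hlev : ∀ q ∈ Set.Iio (n0 ^ k), ∃ s, s ≤ T.length ∧ lay.pos q ≤ c.p s ∧
      ∀ s' < s, c.p s' < lay.pos q := by
    intro q hq
    have hex : ∃ s, lay.pos q ≤ c.p s := ⟨_, hpos q hq⟩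
    refine ⟨Nat.find hex, Nat.find_min' hex (hpos q hq), Nat.find_spec hex, ?_⟩
    intro s' hs'
    exact not_le.1 (Nat.find_min hex hs')
  choose! lev hlev1 hlev2 hlev3 using hlev
  have hpm : ∀ s s', s ≤ s' → s' ≤ T.length → c.p s ≤ c.p s' := fun s s' h1 h2 =>
    c.p_mono hρT h1 h2
  let E : Env lay G h T :=
    { c := c
      hC' := Nat.le_add_left _ _
      hL := hL1
      hC := Nat.lt_succ_self _
      lev := lev
      lev_le := fun q hq => hlev1 q hq
      lev_lb := fun q hq => hlev2 q hq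
      lev_ub := by
        intro q hq
        have h1 := hlev3 q hq
        have h2 := hlev1 q hq
        rcases Nat.eq_zero_or_pos (lev q) with h0 | h0
        · rw [h0]
          have h3 := c.p_zero
          have h4 : G.start.length * L ≤ J := by
            show _ ≤ Jd G h L ρ
            unfold Jd kap
            omega
          have h5 := lay.pos_mono (Nat.le_add_left _ _) (Nat.zero_le q) hq
          omega
        · have h3 := h1 (lev q - 1) (by omega)
          have h4 := (c.p_mono_succ hρT (s := lev q - 1) (by omega)).2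
          rw [Nat.sub_add_cancel h0] at h4
          show _ ≤ lay.pos q + Jd G h L ρ
          omega
      lev_mono := by
        intro q q' h1 h2
        by_contra hcon
        have h3 := hlev3 q (lt_of_le_of_lt h1 h2) (lev q') (by omega)
        have h4 := hlev2 q' h2
        have h5 := lay.pos_mono (Nat.le_add_left _ _) h1 h2
        omega
      p_mono := hpm }
  obtain ⟨χ, -, hχ⟩ := exists_goodB (cl := E.cls) (n0 := n0) (N := 2 * K + 4) (k := k) hn0pos
    (clsSet_finite G h L ρ) (fun q hq => E.cls_mem hρT hq) (Nat.le_add_right _ _) k 0 (by simp)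
  obtain ⟨v, -, zs, hzs⟩ := E.tree hn0pos (Nat.lt_succ_self _) le_rfl χ k le_rfl 0 (by simp) hχ
  exact E.contra hn0pos hk (fun g => hzs g g.2)

end

end Pool.Agent.H12E
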