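import Pool.Agent.H12E.Feat

/-! Rigidity of nodes with `d`-units; small and big nodes. -/

namespace Pool.Agent.H12E

section

variable {k : ℕ}

/-- the word contains a full `d`-unit -/
def HasD (O : List (Lt k)) : Prop :=
  ∃ o1 x y x' o2, 1 ≤ y ∧ O = o1 ++ Lt.mn x :: (List.replicate y Lt.d ++ Lt.mn x' :: o2)

theorem HasD.append_left {O : List (Lt k)} (h : HasD O) (P : List (Lt k)) : HasD (P ++ O) := by
  obtain ⟨o1, x, y, x', o2, h1, rfl⟩ := h
  exact ⟨P ++ o1, x, y, x', o2, h1, by simp⟩

theorem HasD.append_right {O : List (Lt k)} (h : HasD O) (P : List (Lt k)) : HasD (O ++ P) := by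
  obtain ⟨o1, x, y, x', o2, h1, rfl⟩ := h
  exact ⟨o1, x, y, x', o2 ++ P, h1, by simp⟩

theorem F1' {W1 O W2 W2' : List (Lt k)} (hO : HasD O) (h : W1 ++ (O ++ W2) ∈ Lk k)
    {W1' : List (Lt k)} (h' : W1' ++ (O ++ W2') ∈ Lk k) :
    (mu W2).length = (mu W2').length := by
  obtain ⟨o1, x, y, x', o2, h1, rfl⟩ := hO
  have e1 := F1 (W1 := W1 ++ o1) (W2 := o2 ++ W2) (x := x) (x' := x') h1 (by simpa using h)
  have e2 := F1 (W1 := W1' ++ o1) (W2 := o2 ++ W2') (x := x) (x' := x') h1 (by simpa using h')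
  simp only [mu_mn, mu_append, List.length_cons, List.length_append] at e1 e2
  omega

theorem HasD.mu_pos {O : List (Lt k)} (h : HasD O) : 1 ≤ (mu O).length := by
  obtain ⟨o1, x, y, x', o2, h1, rfl⟩ := h
  simp
  omega

/-- sep bound -/
theorem blk_sep {G : List (Gm k)} {X : List (Lt k)} (h : Blk G X) : (sep X).length ≤ 2 := by
  cases h with
  | plain => simp
  | dunit => simp
  | skip i G1 G2 hG hk => simp [sep_cons, isSep]

theorem sep_length_append_le (V W : List (Lt k)) : (sep V).length ≤ (sep (V ++ W)).length := by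
  simp

theorem Str.sep_prefix {G : List (Gm k)} {v : List (Lt k)} (h : Str G v) :
    ∀ O Q, v = O ++ Q → (sep O).length ≤ 3 * (mu O).length := by
  induction h with
  | nil => intro O Q h; have := List.append_eq_nil_iff.1 h.symm; simp [this.1]
  | @cons x G X v hX hv ih =>
    intro O Q h
    cases O with
    | nil => simp
    | cons z O =>
      simp only [List.cons_append, List.cons.injEq] at h
      obtain ⟨rfl, h⟩ := h
      rw [List.append_eq_append_iff] at h
      have h2 := blk_sep hX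
      rcases h with ⟨a, h3, h4⟩ | ⟨a, h3, h4⟩
      · -- O = X ++ a, v = a ++ Q
        have := ih a Q h4
        rw [h3]
        simp only [sep_cons, isSep, sep_append, mu_mn, mu_append, List.length_cons,
          List.length_append, if_true]
        omega
      · -- X = O ++ a
        have h5 := sep_length_append_le O a
        rw [← h3] at h5
        simp only [sep_cons, isSep, mu_mn, List.length_cons, if_true]
        omega

theorem Str.sep_infix {G : List (Gm k)} {v : List (Lt k)} (h : Str G v) :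
    ∀ P O Q, v = P ++ (O ++ Q) → (sep O).length ≤ 3 * (mu O).length + 2 := by
  induction h with
  | nil =>
    intro P O Q h
    have h1 := List.append_eq_nil_iff.1 h.symm
    have h2 := List.append_eq_nil_iff.1 h1.2
    simp [h2.1]
  | @cons x G X v hX hv ih =>
    intro P O Q h
    cases P with
    | nil =>
      have := (Str.cons hX hv).sep_prefix O Q (by simpa using h)
      omega
    | cons z P =>
      simp only [List.cons_append, List.cons.injEq] at h
      obtain ⟨rfl, h⟩ := h
      rw [List.append_eq_append_iff] at h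
      have h2 := blk_sep hX
      rcases h with ⟨a, h3, h4⟩ | ⟨a, h3, h4⟩
      · exact ih a O Q h4
      · -- X = P ++ a, O ++ Q = a ++ v
        rw [List.append_eq_append_iff] at h4
        have h5 : (sep a).length ≤ 2 := by
          have : (sep X).length = (sep P).length + (sep a).length := by rw [h3]; simp
          omega
        rcases h4 with ⟨c, h6, h7⟩ | ⟨c, h6, h7⟩
        · -- a = O ++ c
          have := sep_length_append_le O c
          rw [← h6] at this
          omega
        · -- O = a ++ c, v = c ++ Q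
          have := hv.sep_prefix c Q h7
          rw [h6]
          simp only [sep_append, mu_append, List.length_append]
          omega

theorem mu_length_le_sep (O : List (Lt k)) : (mu O).length ≤ (sep O).length := by
  induction O with
  | nil => simp
  | cons x O ih =>
    cases x <;> simp [sep_cons, isSep] <;> omega

/-- `mu` is a function of `sep` -/
theorem mu_sep (O : List (Lt k)) : mu (sep O) = mu O := by
  induction O with
  | nil => rfl
  | cons x O ih => cases x <;> simp [sep_cons, isSep, ih]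

theorem mu_eq_of_sep_eq {O O' : List (Lt k)} (h : sep O = sep O') : mu O = mu O' := by
  rw [← mu_sep, h, mu_sep]

theorem Feat.mu_eq {L : ℕ} {O O' : List (Lt k)} (h : Feat L O = Feat L O')
    (h2 : (sep O).length ≤ L) : mu O = mu O' := mu_eq_of_sep_eq (Feat.sep_eq h h2)

end

section

variable {k : ℕ} {D0 : Type} {G : ETOL D0} {h : Lt k → List D0}
  {T : List (G.Sig → Set (List G.Sig))} {w : List (Lt k)}

/-- Everything that is fixed. -/
structure Ctx (G : ETOL D0) (h : Lt k → List D0) (T : List (G.Sig → Set (List G.Sig)))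
    (w : List (Lt k)) (L : ℕ) where
  hL : ∀ v : List (Lt k), hom h v ∈ G.lang → v ∈ Lk k
  hT : ∀ t ∈ T, t ∈ G.tables
  hw : w ∈ Lk k
  D : Deriv (G.term : D0 → G.Sig) h T G.start w
  big : ∀ P O Q, w = P ++ (O ++ Q) → L < (sep O).length → HasD O

variable {L : ℕ} (c : Ctx G h T w L)

/-- hybrid lemma -/
theorem Ctx.hyb {s : ℕ} (hs : s ≤ T.length) {N' : List (Node G.Sig D0 (Lt k))}
    {T'' : List (G.Sig → Set (List G.Sig))} (hT'' : ∀ t ∈ T'', t ∈ G.tables)
    (h2 : List.Forall₂ (fun ν ν' => ν.ty = ν'.ty) (c.D.N s) N')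
    (hv : ∀ ν' ∈ N', Valid (G.term : D0 → G.Sig) h T'' ν') : catO N' ∈ Lk k := by
  apply c.hL
  refine splice G h (T0 := seg T 0 s) (fun t ht => c.hT t (mem_seg ht)) hT'' ?_
    (ty_chain h2 (c.D.chain hs)) hv
  rw [← ty_lets h2]
  exact c.D.reach hs

theorem Ctx.hybN {s s' : ℕ} (hs : s ≤ T.length) (hs' : s' ≤ T.length)
    {N' : List (Node G.Sig D0 (Lt k))}
    (h2 : List.Forall₂ (fun ν ν' => ν.ty = ν'.ty) (c.D.N s) N')
    (hv : ∀ ν' ∈ N', ν' ∈ c.D.N s') : catO N' ∈ Lk k :=
  c.hyb hs (T'' := seg T s' T.length) (fun t ht => c.hT t (mem_seg ht)) h2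
    (fun ν' hν' => c.D.valid hs' (hv ν' hν'))

theorem forall₂_refl_of {α : Type} {R : α → α → Prop} (hR : ∀ a, R a a) (l : List α) :
    List.Forall₂ R l l := by
  induction l with
  | nil => exact List.Forall₂.nil
  | cons a l ih => exact List.Forall₂.cons (hR a) ih

theorem forall₂_ty_refl {X : Type} {Q : Type} (l : List (Node Q D0 X)) :
    List.Forall₂ (fun ν ν' : Node Q D0 X => ν.ty = ν'.ty) l l :=
  forall₂_refl_of (R := fun ν ν' : Node Q D0 X => ν.ty = ν'.ty) (fun _ => rfl) l

/-- exchange of one node at the same level -/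
theorem Ctx.exch {s : ℕ} (hs : s ≤ T.length) {A1 A2 : List (Node G.Sig D0 (Lt k))}
    {ν κ : Node G.Sig D0 (Lt k)} (hN : c.D.N s = A1 ++ ν :: A2) (hκ : κ ∈ c.D.N s)
    (ht : ν.ty = κ.ty) : catO A1 ++ (κ.O ++ catO A2) ∈ Lk k := by
  have h1 : List.Forall₂ (fun ν ν' : Node G.Sig D0 (Lt k) => ν.ty = ν'.ty) (c.D.N s)
      (A1 ++ κ :: A2) := by
    rw [hN]
    exact forall₂_append (forall₂_ty_refl _) (List.Forall₂.cons ht (forall₂_ty_refl _))
  have := c.hybN hs hs h1 (by
    intro ν' hν'
    rcases List.mem_append.1 hν' with h2 | h2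
    · rw [hN]; simp [h2]
    · rcases List.mem_cons.1 h2 with rfl | h2
      · exact hκ
      · rw [hN]; simp [h2])
  simpa using this

/-- (P1) -/
theorem Ctx.P1 {s : ℕ} (hs : s ≤ T.length) {B1 B2 B3 : List (Node G.Sig D0 (Lt k))}
    {ν κ : Node G.Sig D0 (Lt k)} (hN : c.D.N s = B1 ++ ν :: (B2 ++ κ :: B3))
    (ht : ν.ty = κ.ty) : ¬ HasD ν.O ∧ ¬ HasD κ.O := by
  have hνm : ν ∈ c.D.N s := by rw [hN]; simp
  have hκm : κ ∈ c.D.N s := by rw [hN]; simp
  constructor
  · intro hD
    have hN' : c.D.N s = (B1 ++ ν :: B2) ++ κ :: B3 := by rw [hN]; simp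
    have e1 := c.exch hs hN' hνm ht.symm
    have e2 : catO B1 ++ (ν.O ++ (catO B2 ++ (ν.O ++ catO B3))) ∈ Lk k := by
      simpa using e1
    have e3 := F1' (W1 := catO (B1 ++ ν :: B2)) (W2 := catO B3) hD e1 e2
    have := hD.mu_pos
    simp only [mu_append, List.length_append] at e3
    omega
  · intro hD
    have e1 := c.exch hs hN hκm ht
    have e2 : catO B1 ++ (κ.O ++ (catO B2 ++ (κ.O ++ catO B3))) ∈ Lk k := by
      simpa using e1
    have e4 : (catO B1 ++ (κ.O ++ catO B2)) ++ (κ.O ++ catO B3) ∈ Lk k := by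
      simpa using e1
    have e3 := F1' (W1 := (catO B1 ++ (κ.O ++ catO B2))) (W2 := catO B3) hD e4 e2
    have := hD.mu_pos
    simp only [mu_append, List.length_append] at e3
    omega

theorem pairwise_of_decomp {α : Type} {R : α → α → Prop} {l : List α}
    (h : ∀ B1 a B2 b B3, l = B1 ++ a :: (B2 ++ b :: B3) → R a b) : l.Pairwise R := by
  induction l with
  | nil => exact List.Pairwise.nil
  | cons x l ih =>
    refine List.Pairwise.cons ?_ (ih (fun B1 a B2 b B3 e => h (x :: B1) a B2 b B3 (by simp [e])))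
    intro y hy
    obtain ⟨l1, l2, e⟩ := List.append_of_mem hy
    exact h [] x l1 y l2 (by simp [e])

theorem Ctx.pw {s : ℕ} (hs : s ≤ T.length) :
    (c.D.N s).Pairwise (fun ν κ => ν.ty = κ.ty → ¬ HasD ν.O ∧ ¬ HasD κ.O) :=
  pairwise_of_decomp (fun _ _ _ _ _ hN ht => c.P1 hs hN ht)

/-- unicity of nodes with a `d`-unit -/
theorem Ctx.P1' {s : ℕ} (hs : s ≤ T.length) {ν κ : Node G.Sig D0 (Lt k)} (hν : ν ∈ c.D.N s)
    (hκ : κ ∈ c.D.N s) (ht : ν.ty = κ.ty) (hD : HasD ν.O) : ν = κ := by
  by_contra hne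
  have hsym : Std.Symm (fun ν κ : Node G.Sig D0 (Lt k) => ν.ty = κ.ty → ¬ HasD ν.O ∧ ¬ HasD κ.O) :=
    ⟨fun a b hab hba => (hab hba.symm).symm⟩
  have := (c.pw hs).forall hν hκ hne
  exact (this ht).1 hD

/-- (P2) -/
theorem Ctx.P2 {s : ℕ} (hs : s ≤ T.length) {A1 A2 : List (Node G.Sig D0 (Lt k))}
    {ν κ : Node G.Sig D0 (Lt k)} (hN : c.D.N s = A1 ++ ν :: A2) (hκ : κ ∈ c.D.N s)
    (ht : ν.ty = κ.ty) (hD : HasD (catO A1)) : (mu ν.O).length = (mu κ.O).length := by
  have e1 := c.exch hs hN hκ ht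
  have e2 : catO A1 ++ (ν.O ++ catO A2) ∈ Lk k := by
    have := c.D.cat hs
    rw [hN] at this
    simp only [catO_append, catO_cons] at this
    rw [this]; exact c.hw
  have e3 := F1' (W1 := []) (W1' := []) hD (by simpa using e1) (by simpa using e2)
  simp only [mu_append, List.length_append] at e3
  omega

end

end Pool.Agent.H12E
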