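import Pool.Agent.H12E.Core1

/-! Time. -/

namespace Pool.Agent.H12E

section

variable {k : ℕ} {Q D0 : Type}

/-- small nodes -/
def small (L : ℕ) (ν : Node Q D0 (Lt k)) : Bool := decide ((sep ν.O).length ≤ L)

theorem small_iff {L : ℕ} {ν : Node Q D0 (Lt k)} : small L ν = true ↔ (sep ν.O).length ≤ L := by
  simp [small]

theorem small_eq_of_sym {L : ℕ} {ν ν' : Node Q D0 (Lt k)} (h : sym L ν = sym L ν') :
    small L ν = small L ν' := by
  have := Feat.small_iff (sym_feat h)
  rw [Bool.eq_iff_iff, small_iff, small_iff]
  exact this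

/-- number of main letters in a list of nodes -/
def msum (N : List (Node Q D0 (Lt k))) : ℕ := (mu (catO N)).length

@[simp] theorem msum_nil : msum ([] : List (Node Q D0 (Lt k))) = 0 := rfl
@[simp] theorem msum_append (M N : List (Node Q D0 (Lt k))) : msum (M ++ N) = msum M + msum N := by
  simp [msum]
@[simp] theorem msum_cons (ν : Node Q D0 (Lt k)) (N : List (Node Q D0 (Lt k))) :
    msum (ν :: N) = (mu ν.O).length + msum N := by
  simp [msum]

theorem msum_eq_sum (N : List (Node Q D0 (Lt k))) :
    msum N = (N.map (fun ν => (mu ν.O).length)).sum := by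
  induction N with
  | nil => rfl
  | cons ν N ih => simp [ih]

theorem msum_filter (p : Node Q D0 (Lt k) → Bool) (N : List (Node Q D0 (Lt k))) :
    msum N = msum (N.filter p) + msum (N.filter (fun ν => !p ν)) := by
  induction N with
  | nil => rfl
  | cons ν N ih =>
    cases hp : p ν <;> simp [List.filter_cons, hp, ih] <;> omega

theorem msum_filter_le (p : Node Q D0 (Lt k) → Bool) (N : List (Node Q D0 (Lt k))) :
    msum (N.filter p) ≤ msum N := by
  have := msum_filter p N
  omega

theorem msum_le_of_subset {M N : List (Node Q D0 (Lt k))} (hM : M.Nodup) (h : M ⊆ N) :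
    msum M ≤ msum N := by
  obtain ⟨M', h1, h2⟩ := List.Nodup.subperm hM h
  rw [msum_eq_sum, msum_eq_sum, ← (h1.map _).sum_eq]
  exact (h2.map _).sum_le_sum (by simp)

theorem msum_small_le {L : ℕ} {N : List (Node Q D0 (Lt k))} (h : ∀ ν ∈ N, small L ν = true) :
    msum N ≤ N.length * L := by
  induction N with
  | nil => simp
  | cons ν N ih =>
    have h1 := small_iff.1 (h ν List.mem_cons_self)
    have h2 := ih (fun κ hκ => h κ (List.mem_cons_of_mem _ hκ))
    have h3 := mu_length_le_sep ν.O
    simp only [msum_cons, List.length_cons]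
    nlinarith

theorem dropWhile_append_of_not {α : Type} {p : α → Bool} {l1 l2 : List α} {x : α}
    (hx : p x = false) : (l1 ++ x :: l2).dropWhile p = l1.dropWhile p ++ x :: l2 := by
  induction l1 with
  | nil => simp [List.dropWhile_cons, hx]
  | cons y l1 ih =>
    cases hy : p y
    · simp [List.dropWhile_cons, hy]
    · simp [List.dropWhile_cons, hy, ih]

theorem dropWhile_append_of_all {α : Type} {p : α → Bool} {l1 l2 : List α}
    (h : ∀ x ∈ l1, p x = true) : (l1 ++ l2).dropWhile p = l2.dropWhile p := by
  induction l1 with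
  | nil => rfl
  | cons y l1 ih =>
    simp [List.dropWhile_cons, h y List.mem_cons_self,
      ih (fun x hx => h x (List.mem_cons_of_mem _ hx))]

theorem takeWhile_append_of_all {α : Type} {p : α → Bool} {l1 l2 : List α}
    (h : ∀ x ∈ l1, p x = true) : (l1 ++ l2).takeWhile p = l1 ++ l2.takeWhile p := by
  induction l1 with
  | nil => rfl
  | cons y l1 ih =>
    simp [List.takeWhile_cons, h y List.mem_cons_self,
      ih (fun x hx => h x (List.mem_cons_of_mem _ hx))]

theorem takeWhile_all {α : Type} {p : α → Bool} {l : List α} :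
    ∀ x ∈ l.takeWhile p, p x = true := by
  intro x hx
  exact List.mem_takeWhile_imp hx

theorem dropWhile_head {α : Type} {p : α → Bool} {l : List α} :
    l.dropWhile p = [] ∨ ∃ x l', l.dropWhile p = x :: l' ∧ p x = false := by
  induction l with
  | nil => left; rfl
  | cons y l ih =>
    cases hy : p y
    · right; exact ⟨y, l, by simp [List.dropWhile_cons, hy], hy⟩
    · simpa [List.dropWhile_cons, hy] using ih

/-- types -/
def tySet (Q : Type) (h : Lt k → List D0) : Set (Q × List D0 × List D0) :=
  {τ | τ.2.1 ∈ Res h ∧ τ.2.2 ∈ Res h}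

theorem tySet_finite [Finite Q] (h : Lt k → List D0) : (tySet Q h).Finite := by
  have h1 : (Res h).Finite := Res.finite h
  refine ((Set.finite_univ (α := Q)).prod (h1.prod h1)).subset ?_
  rintro ⟨A, l, r⟩ ⟨h1, h2⟩
  exact ⟨trivial, h1, h2⟩

theorem nodup_length_le_ncard {α : Type} {S : Set α} (hS : S.Finite) {l : List α} (hl : l.Nodup)
    (h : ∀ x ∈ l, x ∈ S) : l.length ≤ S.ncard := by
  classical
  rw [← List.toFinset_card_of_nodup hl, ← Set.ncard_coe_finset]
  exact Set.ncard_le_ncard (fun x hx => h x (by simpa using hx)) hS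

/-- descendants of small nodes are small -/
theorem sep_le_catO {N : List (Node Q D0 (Lt k))} {ν : Node Q D0 (Lt k)} (h : ν ∈ N) :
    (sep ν.O).length ≤ (sep (catO N)).length := by
  obtain ⟨A1, A2, rfl⟩ := List.append_of_mem h
  simp
  omega

theorem Refine.small {L : ℕ} {t : Q → Set (List Q)} {N N' : List (Node Q D0 (Lt k))}
    (h : Refine t N N') (hN : ∀ ν ∈ N, small L ν = true) : ∀ ν ∈ N', small L ν = true := by
  induction h with
  | nil => simp
  | @cons ν ch N N' h _ ih =>
    intro κ hκ
    rcases List.mem_append.1 hκ with hκ | hκ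
    · have h1 := small_iff.1 (hN ν List.mem_cons_self)
      rw [h.hO] at h1
      exact small_iff.2 ((sep_le_catO hκ).trans h1)
    · exact ih (fun κ hκ => hN κ (List.mem_cons_of_mem _ hκ)) κ hκ

theorem RS.small {L : ℕ} {T : List (Q → Set (List Q))} {N N' : List (Node Q D0 (Lt k))}
    (h : RS T N N') (hN : ∀ ν ∈ N, small L ν = true) : ∀ ν ∈ N', small L ν = true := by
  induction T generalizing N with
  | nil => simp only [RS] at h; rwa [← h]
  | cons t T ih =>
    obtain ⟨M, h1, h2⟩ := h
    exact ih h2 (h1.small hN)

theorem Refine.msum {t : Q → Set (List Q)} {N N' : List (Node Q D0 (Lt k))}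
    (h : Refine t N N') : msum N' = msum N := by
  unfold Pool.Agent.H12E.msum
  rw [h.catO]

theorem RS.msum {T : List (Q → Set (List Q))} {N N' : List (Node Q D0 (Lt k))}
    (h : RS T N N') : Pool.Agent.H12E.msum N' = Pool.Agent.H12E.msum N := by
  unfold Pool.Agent.H12E.msum
  rw [h.catO]

/-- main letters in the small children -/
theorem Refine.fbound {L ρ : ℕ} {t : Q → Set (List Q)} (hρ : ∀ a, ∀ u ∈ t a, u.length ≤ ρ)
    {N N' : List (Node Q D0 (Lt k))} (h : Refine t N N') :
    Pool.Agent.H12E.msum (N'.filter (Pool.Agent.H12E.small L)) ≤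
      Pool.Agent.H12E.msum (N.filter (Pool.Agent.H12E.small L)) +
      (N.filter (fun ν => !Pool.Agent.H12E.small L ν)).length * (ρ * L) := by
  induction h with
  | nil => simp
  | @cons ν ch N N' h _ ih =>
    rw [List.filter_append, msum_append, List.filter_cons, List.filter_cons]
    cases hν : Pool.Agent.H12E.small L ν
    · have h1 : (ch.filter (Pool.Agent.H12E.small L)).length ≤ ρ := by
        have := hρ _ _ h.hA
        have h2 : (lets ch).length = ch.length := by simp [lets]
        have := List.length_filter_le (Pool.Agent.H12E.small L) ch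
        omega
      have h2 := msum_small_le (L := L) (N := ch.filter (Pool.Agent.H12E.small L))
        (fun κ hκ => (List.mem_filter.1 hκ).2)
      simp only [Bool.not_false, if_true, Bool.false_eq_true, if_false, List.length_cons]
      have h3 : (ch.filter (Pool.Agent.H12E.small L)).length * L ≤ ρ * L :=
        Nat.mul_le_mul_right _ h1
      nlinarith
    · simp only [Bool.not_true, if_true, Bool.false_eq_true, if_false, msum_cons]
      have h1 : Pool.Agent.H12E.msum (ch.filter (Pool.Agent.H12E.small L)) ≤ (mu ν.O).length := by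
        refine (msum_filter_le _ _).trans ?_
        rw [h.hO]; rfl
      omega

end

section

variable {k : ℕ} {D0 : Type} {G : ETOL D0} {h : Lt k → List D0}
  {T : List (G.Sig → Set (List G.Sig))} {w : List (Lt k)} {L : ℕ} (c : Ctx G h T w L)

namespace Ctx

/-- nodes before the first big node -/
def pre (s : ℕ) : List (Node G.Sig D0 (Lt k)) := (c.D.N s).takeWhile (small L)

/-- nodes from the first big node on -/
def post (s : ℕ) : List (Node G.Sig D0 (Lt k)) := (c.D.N s).dropWhile (small L)

theorem pre_post (s : ℕ) : c.D.N s = c.pre s ++ c.post s := (List.takeWhile_append_dropWhile).symm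

/-- number of main letters in `pre` -/
def p (s : ℕ) : ℕ := msum (c.pre s)

/-- number of main letters in the small nodes of `post` -/
def f (s : ℕ) : ℕ := msum ((c.post s).filter (small L))

/-- all symbols of level `s` -/
def Ref (s : ℕ) : Set (SymT G.Sig D0 k) := {σ | ∃ ν ∈ c.D.N s, sym L ν = σ}

theorem big_hasD {s : ℕ} (hs : s ≤ T.length) {ν : Node G.Sig D0 (Lt k)} (hν : ν ∈ c.D.N s)
    (hb : small L ν = false) : HasD ν.O := by
  obtain ⟨A1, A2, hA⟩ := List.append_of_mem hν
  have h1 := c.D.cat hs
  rw [hA] at h1
  simp only [catO_append, catO_cons] at h1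
  refine c.big _ _ _ h1.symm ?_
  by_contra h2
  have := small_iff (L := L) (ν := ν) |>.2 (by omega)
  rw [hb] at this
  simp at this

theorem ref_sub {s : ℕ} (hs : s ≤ T.length) : c.Ref s ⊆ symSet h L := by
  rintro σ ⟨ν, hν, rfl⟩
  exact sym_mem (c.D.res s hs ν hν).1 (c.D.res s hs ν hν).2

theorem bigs_nodup_ty {s : ℕ} (hs : s ≤ T.length) :
    (((c.D.N s).filter (fun ν => !small L ν)).map Node.ty).Nodup := by
  rw [List.Nodup, List.pairwise_map]
  have h1 := (c.pw hs).sublist (List.filter_sublist (p := fun ν => !small L ν))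
  have h2 : ∀ ν ∈ (c.D.N s).filter (fun ν => !small L ν), HasD ν.O := by
    intro ν hν
    obtain ⟨h3, h4⟩ := List.mem_filter.1 hν
    exact c.big_hasD hs h3 (by simpa using h4)
  refine List.Pairwise.imp_of_mem ?_ h1
  intro a b ha hb hab hty
  exact (hab hty).1 (h2 a ha)

theorem bigs_nodup {s : ℕ} (hs : s ≤ T.length) :
    ((c.D.N s).filter (fun ν => !small L ν)).Nodup := List.Nodup.of_map _ (c.bigs_nodup_ty hs)

theorem bigs_length {s : ℕ} (hs : s ≤ T.length) :
    ((c.D.N s).filter (fun ν => !small L ν)).length ≤ (tySet G.Sig h).ncard := by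
  have : Finite G.Sig := G.fin
  have h1 := nodup_length_le_ncard (tySet_finite h) (c.bigs_nodup_ty hs) (by
    intro τ hτ
    obtain ⟨ν, hν, rfl⟩ := List.mem_map.1 hτ
    exact c.D.res s hs ν (List.mem_filter.1 hν).1)
  simpa using h1

theorem T1_le {s s' : ℕ} (hs : s ≤ T.length) (hs' : s' ≤ T.length) (hR : c.Ref s = c.Ref s') :
    c.f s ≤ c.f s' := by
  rcases dropWhile_head (p := small L) (l := c.D.N s) with h0 | ⟨x1, R, hpost, hx1⟩
  · have : c.post s = [] := h0
    simp [f, this]
  · have hpost' : c.post s = x1 :: R := hpost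
    have hN : c.D.N s = c.pre s ++ x1 :: R := by rw [← hpost']; exact c.pre_post s
    -- choose images
    obtain ⟨N', hN'⟩ := forall₂_exists (R := fun ν ν' => sym L ν = sym L ν' ∧ ν' ∈ c.D.N s')
      (l := c.D.N s) (by
        intro ν hν
        have : sym L ν ∈ c.Ref s := ⟨ν, hν, rfl⟩
        rw [hR] at this
        obtain ⟨ν', h1, h2⟩ := this
        exact ⟨ν', h2.symm, h1⟩)
    have hw' : catO N' ∈ Lk k := c.hybN hs hs' (forall₂_imp (fun _ _ h => sym_ty h.1) hN')
      (fun ν' hν' => by obtain ⟨a, -, h1⟩ := forall₂_mem_right hN' hν'; exact h1.2)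
    rw [hN] at hN'
    obtain ⟨P', R0, rfl, hP, hR0⟩ := forall₂_split_left hN'
    cases hR0 with
    | @cons _ x' _ R' hx hRR =>
    obtain ⟨hsx, hx'm⟩ := hx
    have hx'b : small L x' = false := by rw [← small_eq_of_sym hsx]; exact hx1
    have hD := c.big_hasD hs' hx'm hx'b
    obtain ⟨B1, B2, hB⟩ := List.append_of_mem hx'm
    have hw2 := c.D.cat hs'
    rw [hB] at hw2
    simp only [catO_append, catO_cons] at hw2
    have e1 : msum R' = msum B2 := by
      refine F1' (W1 := catO P') (W1' := catO B1) hD (by simpa using hw') ?_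
      rw [hw2]; exact c.hw
    -- small part
    have e2 : msum (R'.filter (small L)) = c.f s := by
      have : msum (R.filter (small L)) = c.f s := by
        rw [f, hpost', List.filter_cons, hx1]; simp
      rw [← this]
      clear this e1 hpost hpost' hN hN' hw'
      induction hRR with
      | nil => rfl
      | @cons a b l l' h1 _ ih =>
        have h2 := small_eq_of_sym h1.1
        rw [List.filter_cons, List.filter_cons, ← h2]
        cases h3 : small L a
        · simpa using ih
        · simp only [if_true, msum_cons, ih]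
          rw [Feat.mu_eq (sym_feat h1.1) (small_iff.1 h3)]
    have e3 : msum (B2.filter (small L)) ≤ c.f s' := by
      have : c.post s' = B1.dropWhile (small L) ++ x' :: B2 := by
        unfold post; rw [hB]; exact dropWhile_append_of_not hx'b
      rw [f, this, List.filter_append, List.filter_cons, hx'b]
      simp
    have e4 : msum (B2.filter (fun ν => !small L ν)) ≤ msum (R'.filter (fun ν => !small L ν)) := by
      refine msum_le_of_subset ?_ ?_
      · have := c.bigs_nodup hs'
        rw [hB, List.filter_append, List.filter_cons, hx'b] at this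
        have h2 := (List.nodup_append.1 this).2.1
        simp only [Bool.not_false, if_true] at h2
        exact (List.nodup_cons.1 h2).2
      · intro z hz
        obtain ⟨hz1, hz2⟩ := List.mem_filter.1 hz
        have hzb : small L z = false := by simpa using hz2
        have hzm : z ∈ c.D.N s' := by rw [hB]; simp [hz1]
        have : sym L z ∈ c.Ref s' := ⟨z, hzm, rfl⟩
        rw [← hR] at this
        obtain ⟨ν, hν, hνz⟩ := this
        have hνb : small L ν = false := by rw [small_eq_of_sym hνz]; exact hzb
        rw [hN] at hν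
        have hνR : ν ∈ R := by
          rcases List.mem_append.1 hν with h1 | h1
          · have := takeWhile_all ν h1
            rw [hνb] at this; simp at this
          · rcases List.mem_cons.1 h1 with h1 | h1
            · exfalso
              subst h1
              obtain ⟨Z1, Z2, hZ⟩ := List.append_of_mem hz1
              have hB' : c.D.N s' = B1 ++ x' :: (Z1 ++ z :: Z2) := by rw [hB, hZ]
              refine (c.P1 hs' hB' ?_).1 hD
              rw [← sym_ty hsx, sym_ty hνz]
            · exact h1
        -- image of ν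
        obtain ⟨ν', h1, h2, h3⟩ : ∃ ν' ∈ R', sym L ν = sym L ν' ∧ ν' ∈ c.D.N s' := by
          clear * - hRR hνR
          induction hRR with
          | nil => simp at hνR
          | @cons a b l l' h1 _ ih =>
            rcases List.mem_cons.1 hνR with rfl | h2
            · exact ⟨b, List.mem_cons_self, h1⟩
            · obtain ⟨ν', h3, h4⟩ := ih h2
              exact ⟨ν', List.mem_cons_of_mem _ h3, h4⟩
        have : ν' = z := by
          refine c.P1' hs' h3 hzm ?_ (c.big_hasD hs' h3 ?_)
          · rw [← sym_ty h2, sym_ty hνz]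
          · rw [← small_eq_of_sym h2]; exact hνb
        subst this
        exact List.mem_filter.2 ⟨h1, hz2⟩
    have e5 := msum_filter (small L) R'
    have e6 := msum_filter (small L) B2
    omega

theorem T1 {s s' : ℕ} (hs : s ≤ T.length) (hs' : s' ≤ T.length) (hR : c.Ref s = c.Ref s') :
    c.f s = c.f s' := le_antisymm (c.T1_le hs hs' hR) (c.T1_le hs' hs hR.symm)

/-- one step -/
theorem T2_T3 {ρ : ℕ} (hρ : ∀ t ∈ T, ∀ a, ∀ u ∈ t a, u.length ≤ ρ) {s : ℕ} (hs : s < T.length) :
    c.f (s + 1) ≤ c.f s + (tySet G.Sig h).ncard * (ρ * L) ∧ c.p s ≤ c.p (s + 1) ∧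
      c.p (s + 1) ≤ c.p s + c.f s + (tySet G.Sig h).ncard * (ρ * L) := by
  have h1 := c.D.step s hs
  rw [c.pre_post s] at h1
  obtain ⟨K1, K2, e1, h2, h3⟩ := h1.split
  have hK1 : ∀ ν ∈ K1, small L ν = true := h2.small takeWhile_all
  have h4 := h3.fbound (L := L) (hρ _ (List.getElem_mem hs))
  have h5 : ((c.post s).filter (fun ν => !small L ν)).length ≤ (tySet G.Sig h).ncard := by
    refine le_trans ?_ (c.bigs_length hs.le)
    rw [c.pre_post s, List.filter_append, List.length_append]
    omega
  have h6 : msum (K2.filter (small L)) ≤ c.f s + (tySet G.Sig h).ncard * (ρ * L) :=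
    h4.trans (Nat.add_le_add_left (Nat.mul_le_mul_right _ h5) _)
  have e2 : c.post (s + 1) = K2.dropWhile (small L) := by
    unfold post; rw [e1]; exact dropWhile_append_of_all hK1
  have e3 : c.pre (s + 1) = K1 ++ K2.takeWhile (small L) := by
    unfold pre; rw [e1]; exact takeWhile_append_of_all hK1
  have e4 : msum K1 = c.p s := by rw [h2.msum]; rfl
  have e5 : msum (K2.takeWhile (small L)) + c.f (s + 1) ≤ msum (K2.filter (small L)) := by
    have : K2.filter (small L) = (K2.takeWhile (small L)).filter (small L) ++
        (K2.dropWhile (small L)).filter (small L) := by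
      rw [← List.filter_append, List.takeWhile_append_dropWhile]
    rw [this, msum_append, f, e2]
    have : (K2.takeWhile (small L)).filter (small L) = K2.takeWhile (small L) :=
      List.filter_eq_self.2 (fun x hx => takeWhile_all x hx)
    rw [this]
  have e6 : c.p (s + 1) = msum K1 + msum (K2.takeWhile (small L)) := by
    show msum (c.pre (s + 1)) = _
    rw [e3, msum_append]
  refine ⟨by omega, by omega, by omega⟩

end Ctx

end

end Pool.Agent.H12E
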