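import Pool.Agent.H12E.Core2

/-! Time bounds, tails, classes. -/

namespace Pool.Agent.H12E

theorem chain_values {α : Type} {R : ℕ → α} {S : Set α} (hS : S.Finite) {F : ℕ → ℕ} {κ m : ℕ}
    (hR : ∀ s ≤ m, R s ∈ S) (h0 : F 0 ≤ κ) (h1 : ∀ s < m, F (s + 1) ≤ F s + κ)
    (h2 : ∀ s ≤ m, ∀ s' ≤ m, R s = R s' → F s = F s') : ∀ s ≤ m, F s ≤ κ * S.ncard := by
  classical
  have key : ∀ s ≤ m, F s ≤ κ * ((Finset.range (s + 1)).image R).card := by
    intro s
    induction s using Nat.strong_induction_on with
    | _ s ih =>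
      intro hs
      cases s with
      | zero => simpa using h0
      | succ s =>
        by_cases hmem : R (s + 1) ∈ (Finset.range (s + 1)).image R
        · obtain ⟨j, hj, hj2⟩ := Finset.mem_image.1 hmem
          have hj' : j ≤ s := by simpa [Nat.lt_succ_iff] using hj
          have := ih j (by omega) (by omega)
          rw [h2 (s + 1) hs j (by omega) hj2.symm]
          refine this.trans (Nat.mul_le_mul_left _ (Finset.card_le_card ?_))
          exact Finset.image_subset_image (by intro a ha; simp at ha ⊢; omega)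
        · rw [Finset.range_add_one, Finset.image_insert, Finset.card_insert_of_notMem hmem]
          have := ih s (by omega) (by omega)
          have := h1 s (by omega)
          rw [Nat.mul_add]; omega
  intro s hs
  refine (key s hs).trans (Nat.mul_le_mul_left _ ?_)
  rw [← Set.ncard_coe_finset]
  refine Set.ncard_le_ncard ?_ hS
  intro x hx
  simp only [Finset.coe_image, Finset.coe_range, Set.mem_image, Set.mem_Iio] at hx
  obtain ⟨j, hj, rfl⟩ := hx
  exact hR j (by omega)

section

variable {k : ℕ} {D0 : Type} {G : ETOL D0} {h : Lt k → List D0}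
  {T : List (G.Sig → Set (List G.Sig))} {w : List (Lt k)} {L : ℕ}

/-- number of symbols -/
noncomputable def nsym (Q : Type) (h : Lt k → List D0) (L : ℕ) : ℕ :=
  (symSet h L : Set (SymT Q D0 k)).ncard

/-- number of sets of symbols -/
noncomputable def nref (Q : Type) (h : Lt k → List D0) (L : ℕ) : ℕ :=
  (𝒫 (symSet h L : Set (SymT Q D0 k))).ncard

noncomputable def kap (G : ETOL D0) (h : Lt k → List D0) (L ρ : ℕ) : ℕ :=
  G.start.length * L + (tySet G.Sig h).ncard * (ρ * L)

noncomputable def Bd (G : ETOL D0) (h : Lt k → List D0) (L ρ : ℕ) : ℕ :=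
  kap G h L ρ * nref G.Sig h L

noncomputable def Jd (G : ETOL D0) (h : Lt k → List D0) (L ρ : ℕ) : ℕ :=
  Bd G h L ρ + kap G h L ρ

variable (c : Ctx G h T w L)

namespace Ctx

theorem N0_length : (c.D.N 0).length = G.start.length := by
  have := congrArg List.length c.D.lets0
  simpa [lets] using this

theorem p_zero : c.p 0 ≤ G.start.length * L := by
  have h1 : msum (c.pre 0) ≤ (c.pre 0).length * L := msum_small_le takeWhile_all
  have h2 : (c.pre 0).length ≤ (c.D.N 0).length := by
    have := congrArg List.length (c.pre_post 0)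
    rw [List.length_append] at this
    omega
  rw [c.N0_length] at h2
  exact h1.trans (Nat.mul_le_mul_right _ h2)

theorem f_zero : c.f 0 ≤ G.start.length * L := by
  have h1 : msum ((c.post 0).filter (small L)) ≤ ((c.post 0).filter (small L)).length * L :=
    msum_small_le (fun ν hν => (List.mem_filter.1 hν).2)
  have h2 : ((c.post 0).filter (small L)).length ≤ (c.D.N 0).length := by
    have := congrArg List.length (c.pre_post 0)
    rw [List.length_append] at this
    have := List.length_filter_le (small L) (c.post 0)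
    omega
  rw [c.N0_length] at h2
  exact h1.trans (Nat.mul_le_mul_right _ h2)

theorem f_bound {ρ : ℕ} (hρ : ∀ t ∈ T, ∀ a, ∀ u ∈ t a, u.length ≤ ρ) {s : ℕ}
    (hs : s ≤ T.length) : c.f s ≤ Bd G h L ρ := by
  have : Finite G.Sig := G.fin
  have hfin : (𝒫 (symSet h L : Set (SymT G.Sig D0 k))).Finite :=
    (symSet_finite h L).finite_subsets
  refine chain_values (R := c.Ref) hfin (F := c.f) (m := T.length) ?_ ?_ ?_ ?_ s hs
  · intro s hs; exact c.ref_sub hs
  · exact c.f_zero.trans (Nat.le_add_right _ _)
  · intro s hs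
    exact (c.T2_T3 hρ hs).1.trans (Nat.add_le_add_left (Nat.le_add_left _ _) _)
  · intro s hs s' hs' h; exact c.T1 hs hs' h

theorem p_mono_succ {ρ : ℕ} (hρ : ∀ t ∈ T, ∀ a, ∀ u ∈ t a, u.length ≤ ρ) {s : ℕ}
    (hs : s < T.length) : c.p s ≤ c.p (s + 1) ∧ c.p (s + 1) ≤ c.p s + Jd G h L ρ := by
  have h1 := c.T2_T3 hρ hs
  have h2 := c.f_bound hρ hs.le
  refine ⟨h1.2.1, ?_⟩
  have h3 : (tySet G.Sig h).ncard * (ρ * L) ≤ kap G h L ρ := Nat.le_add_left _ _
  unfold Jd
  omega

theorem p_mono {ρ : ℕ} (hρ : ∀ t ∈ T, ∀ a, ∀ u ∈ t a, u.length ≤ ρ) {s s' : ℕ} (h : s ≤ s')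
    (hs' : s' ≤ T.length) : c.p s ≤ c.p s' := by
  induction s', h using Nat.le_induction with
  | base => exact le_rfl
  | succ s' hs ih => exact (ih (by omega)).trans (c.p_mono_succ hρ (by omega)).1

/-- last level -/
theorem p_last {Hm : ℕ} (hmn : ∀ x, h (Lt.mn x) ≠ []) (hHm : ∀ x, (h x).length ≤ Hm)
    (hL : 3 * (Hm + 1) + 2 ≤ L) : c.p T.length = (mu w).length := by
  have hsm : ∀ ν ∈ c.D.N T.length, small L ν = true := by
    intro ν hν
    obtain ⟨h1, a, h2, h3⟩ := c.D.last ν hν
    have h4 : (hom h ν.O).length ≤ Hm + 1 := by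
      unfold Node.Ok at h1
      have h5 := congrArg List.length h1
      rw [h3] at h5
      simp only [List.length_append, List.length_singleton] at h5
      have h6 : ν.r.length ≤ Hm := by
        rcases (c.D.res _ le_rfl ν hν).2 with h7 | ⟨x, h7⟩
        · rw [h7]; simp
        · exact h7.length_le.trans (hHm x)
      omega
    have h5 : ∀ O : List (Lt k), (mu O).length ≤ (hom h O).length := by
      intro O
      induction O with
      | nil => simp
      | cons x O ih =>
        rw [hom_cons, List.length_append]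
        cases x with
        | mn x =>
          have : 1 ≤ (h (Lt.mn x)).length := List.length_pos_iff.2 (hmn x)
          simp; omega
        | _ => simp; omega
    have h6 := h5 ν.O
    obtain ⟨A1, A2, hA⟩ := List.append_of_mem hν
    have h7 := c.D.cat le_rfl
    rw [hA] at h7
    simp only [catO_append, catO_cons] at h7
    obtain ⟨g, -, hg⟩ := c.hw
    have h8 := hg.sep_infix _ _ _ h7.symm
    rw [small_iff]
    omega
  have h1 : c.pre T.length = c.D.N T.length := by
    unfold pre
    exact List.takeWhile_eq_self_iff.2 hsm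
  unfold p msum
  rw [h1, c.D.cat le_rfl]

end Ctx

/-! ### tails -/

/-- tail word of a list of nodes -/
def tl {Q : Type} (L : ℕ) (N : List (Node Q D0 (Lt k))) :
    List ((Q × List D0 × List D0) ⊕ Gm k) :=
  N.flatMap (fun ν => if small L ν then (mu ν.O).map Sum.inr else [Sum.inl ν.ty])

@[simp] theorem tl_nil {Q : Type} (L : ℕ) : tl L ([] : List (Node Q D0 (Lt k))) = [] := rfl

theorem tl_cons {Q : Type} (L : ℕ) (ν : Node Q D0 (Lt k)) (N : List (Node Q D0 (Lt k))) :
    tl L (ν :: N) = (if small L ν then (mu ν.O).map Sum.inr else [Sum.inl ν.ty]) ++ tl L N := rfl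

theorem tl_sym {Q : Type} {L : ℕ} {N N' : List (Node Q D0 (Lt k))}
    (h : List.Forall₂ (fun ν ν' => sym L ν = sym L ν') N N') : tl L N = tl L N' := by
  induction h with
  | nil => rfl
  | @cons a b l l' h1 _ ih =>
    rw [tl_cons, tl_cons, ih, ← small_eq_of_sym h1]
    cases h2 : small L a
    · simp [sym_ty h1]
    · simp [Feat.mu_eq (sym_feat h1) (small_iff.1 h2)]

theorem tl_length {Q : Type} (L : ℕ) (N : List (Node Q D0 (Lt k))) :
    (tl L N).length = (N.filter (fun ν => !small L ν)).length + msum (N.filter (small L)) := by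
  induction N with
  | nil => rfl
  | cons ν N ih =>
    rw [tl_cons, List.length_append, ih, List.filter_cons, List.filter_cons]
    cases h : small L ν <;> simp <;> omega

namespace Ctx

/-- the tail at level `s` -/
def tail (s : ℕ) : List ((G.Sig × List D0 × List D0) ⊕ Gm k) := tl L (c.post s)

/-- letters which are erased after level `s` -/
def Z (_c : Ctx G h T w L) (s : ℕ) : Set G.Sig := {B | Steps (seg T s T.length) [B] []}

theorem mu_decode {s : ℕ} (hs : s ≤ T.length) {X Y : List (Node G.Sig D0 (Lt k))}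
    (hX : X ⊆ c.D.N s) (hY : Y ⊆ c.D.N s) (h : tl L X = tl L Y) :
    mu (catO X) = mu (catO Y) := by
  classical
  let dec : ((G.Sig × List D0 × List D0) ⊕ Gm k) → List (Gm k) := fun z => match z with
    | .inr x => [x]
    | .inl τ => if h : ∃ ν ∈ c.D.N s, ν.ty = τ ∧ small L ν = false then mu h.choose.O else []
  have key : ∀ X : List (Node G.Sig D0 (Lt k)), X ⊆ c.D.N s → mu (catO X) = (tl L X).flatMap dec := by
    intro X hX
    induction X with
    | nil => rfl
    | cons ν X ih =>
      have h1 := ih (fun κ hκ => hX (List.mem_cons_of_mem _ hκ))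
      have hν := hX List.mem_cons_self
      rw [catO_cons, mu_append, tl_cons, List.flatMap_append, ← h1]
      congr 1
      cases h2 : small L ν
      · have h3 : ∃ κ ∈ c.D.N s, κ.ty = ν.ty ∧ small L κ = false := ⟨ν, hν, rfl, h2⟩
        have h4 : ν = h3.choose := c.P1' hs hν h3.choose_spec.1 h3.choose_spec.2.1.symm
          (c.big_hasD hs hν h2)
        simp only [Bool.false_eq_true, if_false, List.flatMap_cons, List.flatMap_nil,
          List.append_nil, dec]
        rw [dif_pos h3, ← h4]
      · simp only [if_true, List.flatMap_map, dec]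
        induction mu ν.O with
        | nil => rfl
        | cons x l ih => simp
  rw [key X hX, key Y hY, h]

/-- (T4) -/
theorem T4 {s s' : ℕ} (hs : s ≤ T.length) (hs' : s' ≤ T.length) (ht : c.tail s = c.tail s')
    {N' : List (Node G.Sig D0 (Lt k))}
    (hN' : List.Forall₂ (fun ν ν' => sym L ν = sym L ν' ∧ ν' ∈ c.D.N s') (c.D.N s) N') :
    mu (catO N') = (mu w).take (c.p s) ++ (mu w).drop (c.p s') := by
  rw [c.pre_post s] at hN'
  obtain ⟨P', R', rfl, hP, hR⟩ := forall₂_split_left hN'
  have hsplit : ∀ s ≤ T.length, mu w = mu (catO (c.pre s)) ++ mu (catO (c.post s)) := by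
    intro s hs
    rw [← mu_append, ← catO_append, ← c.pre_post s, c.D.cat hs]
  have e1 : mu (catO P') = (mu w).take (c.p s) := by
    have h1 : mu (catO P') = mu (catO (c.pre s)) := by
      have : ∀ ν ∈ c.pre s, small L ν = true := takeWhile_all
      generalize c.pre s = M at hP this
      clear * - hP this
      induction hP with
      | nil => rfl
      | @cons a b l l' h1 _ ih =>
        rw [catO_cons, catO_cons, mu_append, mu_append,
          ih (fun κ hκ => this κ (List.mem_cons_of_mem _ hκ)),
          Feat.mu_eq (sym_feat h1.1) (small_iff.1 (this a List.mem_cons_self))]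
    rw [h1, hsplit s hs]
    unfold p msum
    rw [List.take_left]
  have e2 : mu (catO R') = (mu w).drop (c.p s') := by
    have h1 : mu (catO R') = mu (catO (c.post s')) := by
      refine c.mu_decode hs' ?_ ?_ ?_
      · intro ν hν
        obtain ⟨a, -, h2⟩ := forall₂_mem_right hR hν
        exact h2.2
      · intro ν hν
        rw [c.pre_post s']; simp [hν]
      · rw [← tl_sym (forall₂_imp (fun _ _ h => h.1) hR)]
        exact ht
    rw [h1, hsplit s' hs']
    unfold p msum
    rw [List.drop_left]
  rw [catO_append, mu_append, e1, e2]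

/-- images exist -/
theorem images {s s' : ℕ} (hR : c.Ref s = c.Ref s') :
    ∃ φ : Node G.Sig D0 (Lt k) → Node G.Sig D0 (Lt k), (∀ ν ∈ c.D.N s, sym L ν = sym L (φ ν) ∧
      φ ν ∈ c.D.N s') ∧ ∀ ν κ, sym L ν = sym L κ → φ ν = φ κ := by
  classical
  let ψ : SymT G.Sig D0 k → Node G.Sig D0 (Lt k) → Node G.Sig D0 (Lt k) := fun σ d =>
    if h : ∃ ν ∈ c.D.N s', sym L ν = σ then h.choose else d
  by_cases hne : ∃ d, d ∈ c.D.N s'
  · obtain ⟨d, hd⟩ := hne
    refine ⟨fun ν => ψ (sym L ν) d, ?_, ?_⟩
    · intro ν hν
      have : sym L ν ∈ c.Ref s' := by rw [← hR]; exact ⟨ν, hν, rfl⟩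
      have h1 : ∃ κ ∈ c.D.N s', sym L κ = sym L ν := this
      simp only [ψ]
      rw [dif_pos h1]
      exact ⟨h1.choose_spec.2.symm, h1.choose_spec.1⟩
    · intro ν κ h; simp only [h]
  · refine ⟨fun ν => ⟨ν.A, [], [], [], []⟩, ?_, ?_⟩
    · intro ν hν
      exfalso
      have : sym L ν ∈ c.Ref s' := by rw [← hR]; exact ⟨ν, hν, rfl⟩
      obtain ⟨κ, h1, -⟩ := this
      exact hne ⟨κ, h1⟩
    · intro ν κ h
      have := congrArg (fun z => z.1) (sym_ty h)
      simp only [Node.ty] at this
      simp only [this]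

theorem forall₂_map_right {α β : Type} {R : α → β → Prop} {φ : α → β} {l : List α}
    (h : ∀ a ∈ l, R a (φ a)) : List.Forall₂ R l (l.map φ) := by
  induction l with
  | nil => exact List.Forall₂.nil
  | cons a l ih =>
    exact List.Forall₂.cons (h a List.mem_cons_self) (ih (fun x hx => h x (List.mem_cons_of_mem _ hx)))

/-- small nodes at the beginning -/
theorem small_of_lt {s : ℕ} {A1 A2 : List (Node G.Sig D0 (Lt k))} {ν : Node G.Sig D0 (Lt k)}
    (hN : c.D.N s = A1 ++ ν :: A2) (hlt : (mu (catO A1)).length < c.p s) :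
    (∀ κ ∈ A1, small L κ = true) ∧ small L ν = true := by
  by_contra hcon
  have h1 : ∃ x ∈ A1 ++ [ν], small L x = false := by
    by_contra h2
    push Not at h2
    apply hcon
    constructor
    · intro κ hκ
      have := h2 κ (by simp [hκ])
      simpa using this
    · have := h2 ν (by simp)
      simpa using this
  have h2 : (c.pre s) <+: A1 := by
    unfold pre
    rw [hN]
    clear * - h1
    induction A1 with
    | nil =>
      obtain ⟨x, hx, hx2⟩ := h1
      simp only [List.nil_append, List.mem_singleton] at hx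
      subst hx
      simp [List.takeWhile_cons, hx2]
    | cons a A1 ih =>
      cases ha : small L a
      · simp [List.takeWhile_cons, ha]
      · have : ∃ x ∈ A1 ++ [ν], small L x = false := by
          obtain ⟨x, hx, hx2⟩ := h1
          rw [List.cons_append, List.mem_cons] at hx
          rcases hx with rfl | hx
          · rw [ha] at hx2; simp at hx2
          · exact ⟨x, hx, hx2⟩
        simpa [List.takeWhile_cons, ha] using ih this
  obtain ⟨A3, hA3⟩ := h2
  have h3 : c.p s ≤ (mu (catO A1)).length := by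
    rw [← hA3, catO_append, mu_append, List.length_append]
    unfold p msum
    omega
  omega

end Ctx

end

end Pool.Agent.H12E
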