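import Mathlib

/-! ETOL systems and derivations. -/

namespace Pool.Agent.H12E

/-- One simultaneous rewriting step with the substitution `t`. -/
inductive Step {A : Type} (t : A → Set (List A)) : List A → List A → Prop
  | nil : Step t [] []
  | cons {a : A} {x u v : List A} : u ∈ t a → Step t x v → Step t (a :: x) (u ++ v)

/-- Rewriting with a sequence of substitutions (first element is applied first). -/
def Steps {A : Type} : List (A → Set (List A)) → List A → List A → Prop
  | [], x, y => x = y
  | t :: T, x, y => ∃ z, Step t x z ∧ Steps T z y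

/-- An ETOL system with terminal alphabet `D`. -/
structure ETOL (D : Type) where
  /-- the alphabet -/
  Sig : Type
  fin : Finite Sig
  /-- the tables -/
  tables : Set (Sig → Set (List Sig))
  tables_fin : tables.Finite
  tables_ok : ∀ t ∈ tables, ∀ a, (t a).Finite ∧ (t a).Nonempty
  /-- the axiom -/
  start : List Sig
  /-- the terminal letters are letters of the alphabet -/
  term : D ↪ Sig

/-- The language generated by an ETOL system. -/
def ETOL.lang {D : Type} (G : ETOL D) : Set (List D) :=
  {x | ∃ T : List (G.Sig → Set (List G.Sig)), (∀ t ∈ T, t ∈ G.tables) ∧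
    Steps T G.start (x.map G.term)}

/-- `L` is an ETOL language. -/
def IsETOL {D : Type} (L : Set (List D)) : Prop := ∃ G : ETOL D, G.lang = L

section Basic

variable {A : Type} {t : A → Set (List A)} {T T' : List (A → Set (List A))}

theorem Step.append {x x' y y' : List A} (h1 : Step t x y) (h2 : Step t x' y') :
    Step t (x ++ x') (y ++ y') := by
  induction h1 with
  | nil => simpa using h2
  | cons hu _ ih => simpa [List.append_assoc] using Step.cons hu ih

theorem Step.nil_left {y : List A} (h : Step t [] y) : y = [] := by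
  cases h; rfl

theorem Step.cons_left {a : A} {x y : List A} (h : Step t (a :: x) y) :
    ∃ u v, y = u ++ v ∧ u ∈ t a ∧ Step t x v := by
  cases h with
  | cons hu hv => exact ⟨_, _, rfl, hu, hv⟩

theorem Step.split {x x' y : List A} (h : Step t (x ++ x') y) :
    ∃ u v, y = u ++ v ∧ Step t x u ∧ Step t x' v := by
  induction x generalizing y with
  | nil => exact ⟨[], y, rfl, Step.nil, h⟩
  | cons a x ih =>
    obtain ⟨u, v, rfl, hu, hv⟩ := Step.cons_left h
    obtain ⟨u', v', rfl, h1, h2⟩ := ih hv
    exact ⟨u ++ u', v', by simp, Step.cons hu h1, h2⟩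

theorem Steps.append {x x' y y' : List A} (h1 : Steps T x y) (h2 : Steps T x' y') :
    Steps T (x ++ x') (y ++ y') := by
  induction T generalizing x x' with
  | nil => simp only [Steps] at *; rw [h1, h2]
  | cons t T ih =>
    obtain ⟨z, hz, h1⟩ := h1
    obtain ⟨z', hz', h2⟩ := h2
    exact ⟨z ++ z', hz.append hz', ih h1 h2⟩

theorem Steps.split {x x' y : List A} (h : Steps T (x ++ x') y) :
    ∃ u v, y = u ++ v ∧ Steps T x u ∧ Steps T x' v := by
  induction T generalizing x x' with
  | nil => exact ⟨x, x', h.symm, rfl, rfl⟩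
  | cons t T ih =>
    obtain ⟨z, hz, h1⟩ := h
    obtain ⟨u, v, rfl, hu, hv⟩ := hz.split
    obtain ⟨u', v', rfl, h2, h3⟩ := ih h1
    exact ⟨u', v', rfl, ⟨u, hu, h2⟩, ⟨v, hv, h3⟩⟩

theorem Steps.comp {x y z : List A} (h1 : Steps T x y) (h2 : Steps T' y z) :
    Steps (T ++ T') x z := by
  induction T generalizing x with
  | nil => simp only [Steps] at h1; subst h1; simpa using h2
  | cons t T ih =>
    obtain ⟨w, hw, h1⟩ := h1
    exact ⟨w, hw, ih h1⟩

theorem Steps.decomp {x z : List A} (h : Steps (T ++ T') x z) :
    ∃ y, Steps T x y ∧ Steps T' y z := by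
  induction T generalizing x with
  | nil => exact ⟨x, rfl, h⟩
  | cons t T ih =>
    obtain ⟨w, hw, h1⟩ := h
    obtain ⟨y, h2, h3⟩ := ih h1
    exact ⟨y, ⟨w, hw, h2⟩, h3⟩

theorem Steps.nil_left {y : List A} (h : Steps T [] y) : y = [] := by
  induction T with
  | nil => exact h.symm
  | cons t T ih =>
    obtain ⟨z, hz, h1⟩ := h
    have := hz.nil_left
    subst this
    exact ih h1

theorem Steps.nil_nil : Steps T ([] : List A) [] := by
  induction T with
  | nil => rfl
  | cons t T ih => exact ⟨[], Step.nil, ih⟩

end Basic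

end Pool.Agent.H12E
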