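import Pool.Agent.H12E.Levels

/-! Basic facts on typed derivations and the splice lemma. -/

namespace Pool.Agent.H12E

section

variable {Q D0 X : Type}

/-- tables number `s, ..., s'-1` -/
def seg (T : List (Q → Set (List Q))) (s s' : ℕ) : List (Q → Set (List Q)) := (T.take s').drop s

theorem seg_zero (T : List (Q → Set (List Q))) (s : ℕ) : seg T 0 s = T.take s := by simp [seg]

theorem seg_length (T : List (Q → Set (List Q))) (s : ℕ) : seg T s T.length = T.drop s := by
  simp [seg]

theorem seg_self (T : List (Q → Set (List Q))) (s : ℕ) : seg T s s = [] := by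
  simp [seg]

theorem seg_append (T : List (Q → Set (List Q))) {s s' s'' : ℕ} (h : s ≤ s') (h' : s' ≤ s'') :
    seg T s s' ++ seg T s' s'' = seg T s s'' := by
  unfold seg
  have h1 : T.take s' = (T.take s'').take s' := by rw [List.take_take, min_eq_left h']
  rw [h1]
  generalize T.take s'' = U
  have h2 : (U.take s').drop s ++ U.drop s' = U.drop s := by
    conv_rhs => rw [← List.take_append_drop s' U]
    by_cases hl : s ≤ (U.take s').length
    · rw [List.drop_append_of_le_length hl]
    · rw [not_le] at hl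
      rw [List.length_take] at hl
      have hU : U.length < s := by omega
      simp only [List.take_append_drop]
      rw [List.drop_eq_nil_of_le (by simp; omega), List.drop_eq_nil_of_le (by omega),
        List.drop_eq_nil_of_le (by omega)]
      rfl
  exact h2

theorem seg_succ (T : List (Q → Set (List Q))) {s : ℕ} (h : s < T.length) :
    seg T s (s + 1) = [T[s]] := by
  unfold seg
  rw [List.drop_take, show s + 1 - s = 1 by omega, List.drop_eq_getElem_cons h,
    List.take_succ_cons, List.take_zero]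

theorem mem_seg {T : List (Q → Set (List Q))} {s s' : ℕ} {t : Q → Set (List Q)}
    (h : t ∈ seg T s s') : t ∈ T := List.mem_of_mem_take (List.mem_of_mem_drop h)

variable {em : D0 → Q} {h : X → List D0} {T : List (Q → Set (List Q))} {x : List Q} {O : List X}

namespace Deriv

variable (D : Deriv em h T x O)

include D

theorem rs {s s' : ℕ} (hs : s ≤ s') (hs' : s' ≤ T.length) : RS (seg T s s') (D.N s) (D.N s') := by
  induction s', hs using Nat.le_induction with
  | base => rw [seg_self]; rfl
  | succ s' hs ih =>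
    have h1 := ih (by omega)
    rw [← seg_append T hs (Nat.le_succ _), seg_succ T (by omega)]
    exact h1.comp ⟨_, D.step s' (by omega), rfl⟩

theorem chain {s : ℕ} (hs : s ≤ T.length) : Chain [] (D.N s) [] :=
  (D.rs (Nat.zero_le s) hs).chain D.chain0

theorem cat {s : ℕ} (hs : s ≤ T.length) : catO (D.N s) = O := by
  rw [(D.rs (Nat.zero_le s) hs).catO, D.cat0]

theorem reach {s : ℕ} (hs : s ≤ T.length) : Steps (seg T 0 s) x (lets (D.N s)) := by
  have := (D.rs (Nat.zero_le s) hs).steps
  rwa [D.lets0] at this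

theorem desc {s s' : ℕ} (hs : s ≤ s') (hs' : s' ≤ T.length) {ν : Node Q D0 X} (hν : ν ∈ D.N s) :
    ∃ K, RS (seg T s s') [ν] K ∧ K ⊆ D.N s' ∧ Chain ν.l K ν.r ∧ ν.O = catO K ∧ ν.y = caty K := by
  obtain ⟨A1, A2, hA⟩ := List.append_of_mem hν
  have h1 := D.rs hs hs'
  rw [hA] at h1
  obtain ⟨K1, K2, e1, h2, h3⟩ := h1.split
  have h3' : RS (seg T s s') ([ν] ++ A2) K2 := h3
  obtain ⟨K3, K4, e2, h4, h5⟩ := h3'.split
  refine ⟨K3, h4, ?_, h4.chain ⟨rfl, rfl⟩, ?_, ?_⟩
  · rw [e1, e2]
    intro κ hκ; simp [hκ]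
  · rw [h4.catO]; simp
  · rw [h4.caty]; simp

theorem last_lets {K : List (Node Q D0 X)} (hK : K ⊆ D.N T.length) :
    lets K = (caty K).map em ∧ (caty K).length = K.length := by
  induction K with
  | nil => simp
  | cons ν K ih =>
    obtain ⟨-, a, h1, h2⟩ := D.last ν (hK List.mem_cons_self)
    obtain ⟨h3, h4⟩ := ih (fun κ hκ => hK (List.mem_cons_of_mem _ hκ))
    simp [h1, h2, h3, h4, Nat.add_comm]

theorem valid {s : ℕ} (hs : s ≤ T.length) {ν : Node Q D0 X} (hν : ν ∈ D.N s) :
    Valid em h (seg T s T.length) ν := by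
  obtain ⟨K, h1, h2, h3, h4, h5⟩ := D.desc hs le_rfl hν
  refine ⟨?_, ?_⟩
  · unfold Node.Ok
    rw [h4, h5]
    exact chain_ok h3 (fun κ hκ => (D.last κ (h2 hκ)).1)
  · have := h1.steps
    rw [(D.last_lets h2).1, ← h5] at this
    simpa using this

theorem inv {s : ℕ} (hs : s ≤ T.length) {ν : Node Q D0 X} (hν : ν ∈ D.N s) (hy : ν.y = []) :
    ν.O = [] ∧ ν.l = ν.r := by
  obtain ⟨K, h1, h2, h3, h4, h5⟩ := D.desc hs le_rfl hν
  have h6 := (D.last_lets h2).2
  rw [← h5, hy] at h6
  have : K = [] := List.length_eq_zero_iff.1 h6.symm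
  subst this
  exact ⟨by simpa using h4, h3⟩

end Deriv

theorem steps_of_valid {T'' : List (Q → Set (List Q))} {N' : List (Node Q D0 X)}
    (hv : ∀ ν ∈ N', Valid em h T'' ν) : Steps T'' (lets N') ((caty N').map em) := by
  induction N' with
  | nil => simpa using Steps.nil_nil
  | cons ν N' ih =>
    have h1 := (hv ν List.mem_cons_self).2
    have h2 := ih (fun κ hκ => hv κ (List.mem_cons_of_mem _ hκ))
    simpa using Steps.append h1 h2

end

/-- SPLICE LEMMA -/
theorem splice {D0 X : Type} (G : ETOL D0) (h : X → List D0) {T0 T'' : List _}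
    {N' : List (Node G.Sig D0 X)} (hT0 : ∀ t ∈ T0, t ∈ G.tables) (hT'' : ∀ t ∈ T'', t ∈ G.tables)
    (h1 : Steps T0 G.start (lets N')) (hc : Chain [] N' [])
    (hv : ∀ ν ∈ N', Valid (G.term : D0 → G.Sig) h T'' ν) : hom h (catO N') ∈ G.lang := by
  have h2 := steps_of_valid hv
  have h3 := chain_ok hc (fun ν hν => (hv ν hν).1)
  simp only [List.append_nil, List.nil_append] at h3
  refine ⟨T0 ++ T'', ?_, ?_⟩
  · intro t ht
    rcases List.mem_append.1 ht with ht | ht
    · exact hT0 t ht
    · exact hT'' t ht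
  · rw [← h3]
    exact h1.comp h2

end Pool.Agent.H12E
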