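import Pool.Agent.H12E.LangDefs

/-! Facts on words of `Lk k`. -/

namespace Pool.Agent.H12E

variable {k : ℕ}

/-! ### counting functions -/

@[simp] theorem mu_nil : mu ([] : List (Lt k)) = [] := rfl
@[simp] theorem mu_append (V W : List (Lt k)) : mu (V ++ W) = mu V ++ mu W := by simp [mu]
@[simp] theorem mu_mn (x : Gm k) (W : List (Lt k)) : mu (Lt.mn x :: W) = x :: mu W := rfl
@[simp] theorem mu_d (W : List (Lt k)) : mu (Lt.d :: W) = mu W := rfl
@[simp] theorem mu_d' (W : List (Lt k)) : mu (Lt.d' :: W) = mu W := rfl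
@[simp] theorem mu_c (W : List (Lt k)) : mu (Lt.c :: W) = mu W := rfl
@[simp] theorem mu_el (i : Fin k) (W : List (Lt k)) : mu (Lt.el i :: W) = mu W := rfl
@[simp] theorem mu_b (W : List (Lt k)) : mu (Lt.b :: W) = mu W := rfl

theorem mu_cons_none {x : Lt k} (h : toG x = none) (W : List (Lt k)) : mu (x :: W) = mu W := by
  simp [mu, h]

@[simp] theorem sep_nil : sep ([] : List (Lt k)) = [] := rfl
@[simp] theorem sep_append (V W : List (Lt k)) : sep (V ++ W) = sep V ++ sep W := by simp [sep]

theorem sep_cons (x : Lt k) (W : List (Lt k)) :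
    sep (x :: W) = if isSep x then x :: sep W else sep W := by
  simp only [sep, List.filter_cons]

@[simp] theorem nc_nil : nc ([] : List (Lt k)) = 0 := rfl
@[simp] theorem nc_append (V W : List (Lt k)) : nc (V ++ W) = nc V + nc W := by simp [nc]
theorem nc_cons (x : Lt k) (W : List (Lt k)) :
    nc (x :: W) = (if x = Lt.c then 1 else 0) + nc W := by
  simp only [nc, List.count_cons]
  by_cases h : x = Lt.c
  · simp [h, Nat.add_comm]
  · simp [h]

@[simp] theorem nc_reverse (W : List (Lt k)) : nc W.reverse = nc W := by simp [nc]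

@[simp] theorem ca_nil : ca ([] : List (Lt k)) = 0 := rfl
theorem ca_cons (x : Lt k) (W : List (Lt k)) :
    ca (x :: W) = if isSep x then 0 else (if x = Lt.c then 1 else 0) + ca W := rfl

theorem ca_of_sepfree {W : List (Lt k)} (h : sep W = []) : ca W = nc W := by
  induction W with
  | nil => rfl
  | cons x W ih =>
    rw [sep_cons] at h
    by_cases hx : isSep x
    · simp [hx] at h
    · simp only [hx] at h
      rw [ca_cons, nc_cons]
      simp [hx, ih h]

theorem ca_append_sepfree {V W : List (Lt k)} (h : sep V = []) : ca (V ++ W) = nc V + ca W := by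
  induction V with
  | nil => simp
  | cons x V ih =>
    rw [sep_cons] at h
    by_cases hx : isSep x
    · simp [hx] at h
    · simp only [hx] at h
      rw [List.cons_append, ca_cons, nc_cons, ih h]
      simp only [hx, Bool.false_eq_true, if_false]
      omega

theorem ca_append_sep {V W : List (Lt k)} (h : sep V ≠ []) : ca (V ++ W) = ca V := by
  induction V with
  | nil => simp at h
  | cons x V ih =>
    rw [sep_cons] at h
    by_cases hx : isSep x
    · rw [List.cons_append, ca_cons, ca_cons]; simp [hx]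
    · simp only [hx] at h
      rw [List.cons_append, ca_cons, ca_cons, ih (by simpa using h)]

theorem sep_reverse (W : List (Lt k)) : sep W.reverse = (sep W).reverse := by
  simp [sep, List.filter_reverse]

@[simp] theorem cb_nil : cb ([] : List (Lt k)) = 0 := rfl

theorem cb_append_sepfree {V W : List (Lt k)} (h : sep W = []) : cb (V ++ W) = cb V + nc W := by
  unfold cb
  rw [List.reverse_append, ca_append_sepfree (by rw [sep_reverse, h]; rfl)]
  simp [Nat.add_comm]

theorem cb_append_sep {V W : List (Lt k)} (h : sep W ≠ []) : cb (V ++ W) = cb W := by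
  unfold cb
  rw [List.reverse_append, ca_append_sep (by rw [sep_reverse]; simpa using h)]

theorem cb_of_sepfree {W : List (Lt k)} (h : sep W = []) : cb W = nc W := by
  have := cb_append_sepfree (V := []) h
  simpa using this

theorem ls_append_sepfree {V W : List (Lt k)} (h : sep W = []) : ls (V ++ W) = ls V := by
  simp [ls, h]

theorem ls_append_sep {V W : List (Lt k)} (h : sep W ≠ []) : ls (V ++ W) = ls W := by
  simp only [ls, sep_append]
  rw [List.getLast?_append]
  cases hh : (sep W).getLast? with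
  | none => exact absurd (List.getLast?_eq_none_iff.1 hh) h
  | some y => rfl

theorem ls_eq_none {W : List (Lt k)} : ls W = none ↔ sep W = [] := by
  simp [ls, List.getLast?_eq_none_iff]

/-! ### comb -/

@[simp] theorem sep_replicate_d' (n : ℕ) : sep (List.replicate n (Lt.d' : Lt k)) = [] := by
  simp [sep, isSep]

@[simp] theorem sep_replicate_d (n : ℕ) : sep (List.replicate n (Lt.d : Lt k)) = [] := by
  simp [sep, isSep]

@[simp] theorem nc_replicate_d' (n : ℕ) : nc (List.replicate n (Lt.d' : Lt k)) = 0 := by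
  simp [nc, List.count_replicate]

@[simp] theorem nc_replicate_d (n : ℕ) : nc (List.replicate n (Lt.d : Lt k)) = 0 := by
  simp [nc, List.count_replicate]

@[simp] theorem mu_replicate_d (n : ℕ) : mu (List.replicate n (Lt.d : Lt k)) = [] := by
  induction n with
  | zero => rfl
  | succ n ih => rw [List.replicate_succ, mu_d, ih]

@[simp] theorem mu_replicate_d' (n : ℕ) : mu (List.replicate n (Lt.d' : Lt k)) = [] := by
  induction n with
  | zero => rfl
  | succ n ih => rw [List.replicate_succ, mu_d', ih]

@[simp] theorem sep_comb (x : ℕ) : sep (comb k x) = [] := by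
  induction x with
  | zero => rfl
  | succ x ih => rw [comb, sep_cons]; simp [isSep, ih]

@[simp] theorem nc_comb (x : ℕ) : nc (comb k x) = x := by
  induction x with
  | zero => rfl
  | succ x ih => rw [comb, nc_cons]; simp [ih, Nat.add_comm]

@[simp] theorem mu_comb (x : ℕ) : mu (comb k x) = [] := by
  induction x with
  | zero => rfl
  | succ x ih => rw [comb, mu_c]; simp [ih]

theorem sep_of_mem_sepfree {W : List (Lt k)} (h : sep W = []) {x : Lt k} (hx : x ∈ W) :
    isSep x = false := by
  by_contra hc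
  have : x ∈ sep W := by
    simp only [sep, List.mem_filter]
    exact ⟨hx, by simpa using hc⟩
  rw [h] at this
  simp at this

theorem comb_head (x : ℕ) : comb k x = [] ∨ ∃ V, comb k x = Lt.c :: V := by
  cases x with
  | zero => left; rfl
  | succ x => right; exact ⟨_, rfl⟩

theorem comb_split (x : ℕ) : ∀ (U1 U3 : List (Lt k)) (z : ℕ),
    comb k x = U1 ++ Lt.c :: (List.replicate z Lt.d' ++ Lt.c :: U3) →
    nc (Lt.c :: U3) = z ∧ x = nc U1 + 1 + z := by
  induction x with
  | zero => intro U1 U3 z h; simp [comb] at h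
  | succ x ih =>
    intro U1 U3 z h
    rw [comb] at h
    cases U1 with
    | nil =>
      simp only [List.nil_append, List.cons.injEq, true_and] at h
      -- replicate x d' ++ comb x = replicate z d' ++ c :: U3
      have key : ∀ (a b : ℕ) , List.replicate a (Lt.d' : Lt k) ++ comb k x =
          List.replicate b Lt.d' ++ Lt.c :: U3 → a = b ∧ comb k x = Lt.c :: U3 := by
        intro a
        induction a with
        | zero =>
          intro b hb
          cases b with
          | zero => exact ⟨rfl, by simpa using hb⟩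
          | succ b =>
            rcases comb_head (k := k) x with h0 | ⟨V, hV⟩
            · simp [h0, List.replicate_succ] at hb
            · simp [hV, List.replicate_succ] at hb
        | succ a iha =>
          intro b hb
          cases b with
          | zero => simp [List.replicate_succ] at hb
          | succ b =>
            simp only [List.replicate_succ, List.cons_append, List.cons.injEq, true_and] at hb
            obtain ⟨h1, h2⟩ := iha b hb
            exact ⟨by rw [h1], h2⟩
      obtain ⟨h1, h2⟩ := key _ _ h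
      subst h1
      rw [← h2]
      simp [Nat.add_comm]
    | cons y U1 =>
      simp only [List.cons_append, List.cons.injEq] at h
      obtain ⟨rfl, h⟩ := h
      have key : ∀ (a : ℕ) (U : List (Lt k)), List.replicate a (Lt.d' : Lt k) ++ comb k x =
          U ++ Lt.c :: (List.replicate z Lt.d' ++ Lt.c :: U3) →
          ∃ U', U = List.replicate a Lt.d' ++ U' ∧
            comb k x = U' ++ Lt.c :: (List.replicate z Lt.d' ++ Lt.c :: U3) := by
        intro a
        induction a with
        | zero => intro U hU; exact ⟨U, by simp, by simpa using hU⟩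
        | succ a iha =>
          intro U hU
          cases U with
          | nil => simp [List.replicate_succ] at hU
          | cons u U =>
            simp only [List.replicate_succ, List.cons_append, List.cons.injEq] at hU
            obtain ⟨rfl, hU⟩ := hU
            obtain ⟨U', h1, h2⟩ := iha U hU
            exact ⟨U', by rw [h1, List.replicate_succ, List.cons_append], h2⟩
      obtain ⟨U', h1, h2⟩ := key _ _ h
      obtain ⟨h3, h4⟩ := ih _ _ _ h2
      refine ⟨h3, ?_⟩
      rw [nc_cons, h1]
      simp only [if_true, nc_append, nc_replicate_d']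
      omega

/-! ### structure of main texts -/

theorem Blk.mu_eq {G : List (Gm k)} {X : List (Lt k)} (h : Blk G X) : mu X = [] := by
  cases h with
  | plain => rfl
  | dunit => simp
  | skip i G1 G2 hG hk => simp

theorem Str.mu_eq {G : List (Gm k)} {v : List (Lt k)} (h : Str G v) : mu v = G := by
  induction h with
  | nil => rfl
  | cons hX hv ih => simp [hX.mu_eq, ih]

theorem mu_eq_nil_of_notmem {X : List (Lt k)} (h : mu X = []) (x : Gm k) : Lt.mn x ∉ X := by
  intro hx
  have : x ∈ mu X := by
    simp only [mu, List.mem_filterMap]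
    exact ⟨_, hx, rfl⟩
  rw [h] at this
  simp at this

theorem Str.head {G : List (Gm k)} {v : List (Lt k)} (h : Str G v) :
    v = [] ∨ ∃ x V, v = Lt.mn x :: V := by
  cases h with
  | nil => left; rfl
  | cons hX hv => right; exact ⟨_, _, rfl⟩

/-- Splitting lemma: if `X ++ v = W1 ++ y :: W2` then the occurrence is in `X` or in `v`. -/
theorem append_eq_append_cons {α : Type} {X v W1 W2 : List α} {y : α}
    (h : X ++ v = W1 ++ y :: W2) :
    (∃ X2, X = W1 ++ y :: X2 ∧ W2 = X2 ++ v) ∨ (∃ W1', W1 = X ++ W1' ∧ v = W1' ++ y :: W2) := by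
  rw [List.append_eq_append_iff] at h
  rcases h with ⟨a, h1, h2⟩ | ⟨a, h1, h2⟩
  · right; exact ⟨a, h1, h2⟩
  · cases a with
    | nil => right; exact ⟨[], by simpa using h1.symm, by simpa using h2.symm⟩
    | cons z a =>
      simp only [List.cons_append, List.cons.injEq] at h2
      obtain ⟨rfl, h2⟩ := h2
      left; exact ⟨a, h1, h2⟩

theorem Str.locate {G : List (Gm k)} {v : List (Lt k)} (h : Str G v) :
    ∀ {W1 W2 : List (Lt k)} {y : Lt k}, v = W1 ++ y :: W2 → toG y = none →
    ∃ G1 x G2 V1 X1 X2 v2, G = G1 ++ x :: G2 ∧ W1 = V1 ++ Lt.mn x :: X1 ∧ W2 = X2 ++ v2 ∧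
      Blk G2 (X1 ++ y :: X2) ∧ Str G2 v2 ∧ mu V1 = G1 ∧ mu X1 = [] := by
  induction h with
  | nil => intro W1 W2 y h; simp at h
  | @cons x G X v hX hv ih =>
    intro W1 W2 y hvv hy
    cases W1 with
    | nil =>
      simp only [List.nil_append, List.cons.injEq] at hvv
      obtain ⟨rfl, -⟩ := hvv
      simp [toG] at hy
    | cons w W1 =>
      simp only [List.cons_append, List.cons.injEq] at hvv
      obtain ⟨rfl, hvv⟩ := hvv
      rcases append_eq_append_cons hvv with ⟨X2, h1, h2⟩ | ⟨W1', h1, h2⟩
      · refine ⟨[], x, G, [], W1, X2, v, rfl, rfl, h2, h1 ▸ hX, hv, rfl, ?_⟩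
        have := hX.mu_eq
        rw [h1] at this
        simp only [mu_append] at this
        exact (List.append_eq_nil_iff.1 this).1
      · obtain ⟨G1, x', G2, V1, X1, X2, v2, e1, e2, e3, e4, e5, e6, e7⟩ := ih h2 hy
        refine ⟨x :: G1, x', G2, Lt.mn x :: (X ++ V1), X1, X2, v2, by simp [e1], ?_, e3, e4, e5,
          ?_, e7⟩
        · simp [h1, e2]
        · simp [hX.mu_eq, e6]

theorem Str.locate_mn {G : List (Gm k)} {v : List (Lt k)} (h : Str G v) :
    ∀ {W1 W2 : List (Lt k)} {x : Gm k}, v = W1 ++ Lt.mn x :: W2 →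
    ∃ G1 G2 X v2, G = G1 ++ x :: G2 ∧ W2 = X ++ v2 ∧
      Blk G2 X ∧ Str G2 v2 ∧ mu W1 = G1 := by
  induction h with
  | nil => intro W1 W2 y h; simp at h
  | @cons x G X v hX hv ih =>
    intro W1 W2 y hvv
    cases W1 with
    | nil =>
      simp only [List.nil_append, List.cons.injEq, Lt.mn.injEq] at hvv
      obtain ⟨rfl, rfl⟩ := hvv
      exact ⟨[], G, X, v, rfl, rfl, hX, hv, rfl⟩
    | cons w W1 =>
      simp only [List.cons_append, List.cons.injEq] at hvv
      obtain ⟨rfl, hvv⟩ := hvv
      rcases append_eq_append_cons hvv with ⟨X2, h1, h2⟩ | ⟨W1', h1, h2⟩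
      · exfalso
        exact mu_eq_nil_of_notmem hX.mu_eq y (by rw [h1]; simp)
      · obtain ⟨G1, G2, X', v2, e1, e2, e3, e4, e5⟩ := ih h2
        refine ⟨x :: G1, G2, X', v2, by simp [e1], e2, e3, e4, ?_⟩
        simp [h1, hX.mu_eq, e5]

theorem replicate_d_append_mn {a b : ℕ} {V W : List (Lt k)}
    (hV : V = [] ∨ ∃ x V', V = Lt.mn x :: V') {y : Gm k}
    (h : List.replicate a (Lt.d : Lt k) ++ V = List.replicate b Lt.d ++ Lt.mn y :: W) :
    a = b ∧ V = Lt.mn y :: W := by
  induction a generalizing b with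
  | zero =>
    cases b with
    | zero => exact ⟨rfl, by simpa using h⟩
    | succ b =>
      rcases hV with rfl | ⟨x, V', rfl⟩
      · simp [List.replicate_succ] at h
      · simp [List.replicate_succ] at h
  | succ a ih =>
    cases b with
    | zero => simp [List.replicate_succ] at h
    | succ b =>
      simp only [List.replicate_succ, List.cons_append, List.cons.injEq, true_and] at h
      obtain ⟨h1, h2⟩ := ih h
      exact ⟨by rw [h1], h2⟩

/-- (F1) -/
theorem F1 {W1 W2 : List (Lt k)} {x x' : Gm k} {y : ℕ} (hy : 1 ≤ y)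
    (h : W1 ++ Lt.mn x :: (List.replicate y Lt.d ++ Lt.mn x' :: W2) ∈ Lk k) :
    y = (mu (Lt.mn x' :: W2)).length := by
  obtain ⟨G, -, hG⟩ := h
  obtain ⟨G1, G2, X, v2, e1, e2, e3, e4, e5⟩ := hG.locate_mn rfl
  cases e3 with
  | plain =>
    exfalso
    rcases e4.head with rfl | ⟨z, V, rfl⟩
    · simp at e2
    · obtain ⟨y', rfl⟩ : ∃ y', y = y' + 1 := ⟨y - 1, by omega⟩
      simp [List.replicate_succ] at e2
  | dunit =>
    obtain ⟨h1, h2⟩ := replicate_d_append_mn e4.head e2.symm
    rw [← h2, e4.mu_eq, h1]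
  | skip i G1 G2 hG hk =>
    exfalso
    obtain ⟨y', rfl⟩ : ∃ y', y = y' + 1 := ⟨y - 1, by omega⟩
    simp [List.replicate_succ] at e2

/-- The information given by a block. `W1` is the text before the block's comb region position, `x`
the size of the comb. -/
structure BlkInfo (k : ℕ) (v W1 : List (Lt k)) (x : ℕ) (i : Fin k) : Prop where
  hls : ls W1 = some (Lt.el i)
  hx : x + (mu W1).length < (mu v).length
  hmark : (mu v)[(mu v).length - 1 - x]? = some Gm.m
  hkill : ∀ q, (mu W1).length ≤ q → q < (mu v).length - 1 - x → ∀ y, (mu v)[q]? = some y →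
    ¬ Gm.kills i y

theorem blkInfo_of {G G1 G2 : List (Gm k)} {x : Gm k} {v V1 U : List (Lt k)} {i : Fin k}
    {H1 H2 : List (Gm k)} (hv : Str G v) (hG : G = G1 ++ x :: G2) (hV : mu V1 = G1)
    (hU : sep U = []) (hU' : mu U = []) (h2 : G2 = H1 ++ Gm.m :: H2)
    (hk : ∀ x ∈ H1, ¬ Gm.kills i x) :
    BlkInfo k v (V1 ++ Lt.mn x :: Lt.el i :: U) H2.length i := by
  have hmu : (mu (V1 ++ Lt.mn x :: Lt.el i :: U)).length = G1.length + 1 := by
    simp [hV, hU']
  have hlen : (mu v).length = G1.length + 1 + H1.length + 1 + H2.length := by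
    rw [hv.mu_eq, hG, h2]; simp; omega
  refine ⟨?_, ?_, ?_, ?_⟩
  · have : V1 ++ Lt.mn x :: Lt.el i :: U = (V1 ++ [Lt.mn x, Lt.el i]) ++ U := by simp
    rw [this, ls_append_sepfree hU, ls_append_sep (by simp [sep_cons, isSep])]
    simp [ls, sep_cons, isSep]
  · rw [hmu, hlen]; omega
  · rw [hlen, hv.mu_eq, hG, h2]
    have : G1.length + 1 + H1.length + 1 + H2.length - 1 - H2.length =
      (G1 ++ x :: H1).length := by simp; omega
    rw [this]
    have : G1 ++ x :: (H1 ++ Gm.m :: H2) = (G1 ++ x :: H1) ++ Gm.m :: H2 := by simp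
    rw [this, List.getElem?_append_right (le_refl _)]
    simp
  · intro q hq1 hq2 y hy
    rw [hmu] at hq1
    rw [hlen] at hq2
    rw [hv.mu_eq, hG, h2] at hy
    have : G1 ++ x :: (H1 ++ Gm.m :: H2) = (G1 ++ [x]) ++ (H1 ++ Gm.m :: H2) := by simp
    rw [this, List.getElem?_append_right (by simp; omega)] at hy
    rw [List.getElem?_append_left (by simp; omega)] at hy
    exact hk y (List.mem_of_getElem? hy)

theorem blk_c {G2 : List (Gm k)} {X1 X2 : List (Lt k)} (h : Blk G2 (X1 ++ Lt.c :: X2)) :
    ∃ i H1 H2 U1 U2, G2 = H1 ++ Gm.m :: H2 ∧ (∀ x ∈ H1, ¬ Gm.kills i x) ∧ X1 = Lt.el i :: U1 ∧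
      X2 = U2 ++ [Lt.b] ∧ comb k H2.length = U1 ++ Lt.c :: U2 := by
  generalize hX : X1 ++ Lt.c :: X2 = X at h
  cases h with
  | plain => simp at hX
  | dunit =>
    exfalso
    have : (Lt.c : Lt k) ∈ List.replicate G2.length (Lt.d : Lt k) := by rw [← hX]; simp
    simp [List.mem_replicate] at this
  | skip i H1 H2 hG hk =>
    cases X1 with
    | nil => simp at hX
    | cons y U1 =>
      simp only [List.cons_append, List.cons.injEq] at hX
      obtain ⟨rfl, hX⟩ := hX
      rcases append_eq_append_cons hX.symm with ⟨X2', h1, h2⟩ | ⟨W, h1, h2⟩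
      · exact ⟨i, H1, H2, U1, X2', hG, hk, rfl, h2, h1⟩
      · exfalso
        cases W with
        | nil => simp at h2
        | cons w W => simp at h2

/-- (F2) -/
theorem F2 {W1 W2 : List (Lt k)} {z : ℕ}
    (h : W1 ++ Lt.c :: (List.replicate z Lt.d' ++ Lt.c :: W2) ∈ Lk k) :
    ∃ i, BlkInfo k (W1 ++ Lt.c :: (List.replicate z Lt.d' ++ Lt.c :: W2)) W1 (cb W1 + 1 + z) i ∧
      ca (Lt.c :: W2) = z ∧
      ∃ V0 U1 U2 V3, W1 = V0 ++ Lt.el i :: U1 ∧ W2 = U2 ++ Lt.b :: V3 ∧
        U1 ++ Lt.c :: (List.replicate z Lt.d' ++ Lt.c :: U2) = comb k (cb W1 + 1 + z) := by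
  obtain ⟨G, -, hG⟩ := h
  obtain ⟨G1, x, G2, V1, X1, X2, v2, e1, e2, e3, e4, e5, e6, e7⟩ := hG.locate rfl rfl
  obtain ⟨i, H1, H2, U1, U2, f1, f2, f3, f4, f5⟩ := blk_c e4
  subst f3 f4
  -- replicate z d' ++ c :: W2 = U2 ++ [b] ++ v2
  have key : ∃ U3, U2 = List.replicate z Lt.d' ++ Lt.c :: U3 ∧ W2 = U3 ++ Lt.b :: v2 := by
    have h1 : U2 ++ Lt.b :: v2 = List.replicate z Lt.d' ++ Lt.c :: W2 := by
      rw [e3]; simp
    rcases append_eq_append_cons h1.symm.symm with ⟨X2, h2, h3⟩ | ⟨W1', h2, h3⟩
    · exact ⟨X2, h2, h3⟩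
    · exfalso
      cases W1' with
      | nil => simp at h3
      | cons w W1' =>
        simp only [List.cons_append, List.cons.injEq] at h3
        obtain ⟨rfl, -⟩ := h3
        have : (Lt.b : Lt k) ∈ List.replicate z (Lt.d' : Lt k) := by rw [h2]; simp
        simp [List.mem_replicate] at this
  obtain ⟨U3, rfl, rfl⟩ := key
  obtain ⟨g1, g2⟩ := comb_split _ _ _ _ f5
  have hsep : sep U1 = [] := by
    have := sep_comb (k := k) H2.length
    rw [f5, sep_append] at this
    exact (List.append_eq_nil_iff.1 this).1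
  have hsep3 : sep U3 = [] := by
    have := sep_comb (k := k) H2.length
    rw [f5, sep_append] at this
    have := (List.append_eq_nil_iff.1 this).2
    rw [sep_cons, sep_append, sep_cons] at this
    simpa [isSep] using this
  have hmu1 : mu U1 = [] := by simpa using e7
  have hcb : cb W1 = nc U1 := by
    rw [e2]
    have : V1 ++ Lt.mn x :: Lt.el i :: U1 = (V1 ++ [Lt.mn x, Lt.el i]) ++ U1 := by simp
    rw [this, cb_append_sepfree hsep, cb_append_sep (by simp [sep_cons, isSep])]
    simp [cb, ca_cons, isSep]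
  have hx : cb W1 + 1 + z = H2.length := by rw [hcb]; exact g2.symm
  refine ⟨i, ?_, ?_, V1 ++ [Lt.mn x], U1, U3, v2, by simp [e2], rfl, ?_⟩
  · rw [hx]
    have := blkInfo_of (i := i) hG e1 e6 hsep hmu1 f1 f2
    rw [← e2] at this
    exact this
  · have : Lt.c :: (U3 ++ Lt.b :: v2) = (Lt.c :: U3) ++ Lt.b :: v2 := rfl
    rw [this, ca_append_sepfree (by rw [sep_cons]; simpa [isSep] using hsep3), g1]
    simp [ca_cons, isSep]
  · rw [hx]; exact f5.symm

/-- (F3) -/
theorem F3 {W1 W2 : List (Lt k)} (h : W1 ++ Lt.b :: W2 ∈ Lk k) :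
    ∃ i, BlkInfo k (W1 ++ Lt.b :: W2) W1 (cb W1) i := by
  obtain ⟨G, -, hG⟩ := h
  obtain ⟨G1, x, G2, V1, X1, X2, v2, e1, e2, e3, e4, e5, e6, e7⟩ := hG.locate rfl rfl
  generalize hX : X1 ++ Lt.b :: X2 = X at e4
  cases e4 with
  | plain => simp at hX
  | dunit =>
    exfalso
    have : (Lt.b : Lt k) ∈ List.replicate G2.length (Lt.d : Lt k) := by rw [← hX]; simp
    simp [List.mem_replicate] at this
  | skip i H1 H2 hG2 hk =>
    cases X1 with
    | nil => simp at hX
    | cons y U1 =>
      simp only [List.cons_append, List.cons.injEq] at hX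
      obtain ⟨rfl, hX⟩ := hX
      have hU : U1 = comb k H2.length := by
        rcases append_eq_append_cons hX.symm with ⟨X2', h1, h2⟩ | ⟨W, h1, h2⟩
        · exfalso
          have : (Lt.b : Lt k) ∈ comb k H2.length := by rw [h1]; simp
          have := sep_of_mem_sepfree (sep_comb H2.length) this
          simp [isSep] at this
        · cases W with
          | nil => simpa using h1
          | cons w W =>
            simp only [List.cons_append, List.cons.injEq] at h2
            obtain ⟨-, h2⟩ := h2
            simp at h2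
      subst hU
      have hcb : cb W1 = H2.length := by
        rw [e2]
        have : V1 ++ Lt.mn x :: Lt.el i :: comb k H2.length =
          (V1 ++ [Lt.mn x, Lt.el i]) ++ comb k H2.length := by simp
        rw [this, cb_append_sepfree (sep_comb _), cb_append_sep (by simp [sep_cons, isSep])]
        simp [cb, ca_cons, isSep]
      refine ⟨i, ?_⟩
      rw [hcb]
      have := blkInfo_of (i := i) (U := comb k H2.length) hG e1 e6 (sep_comb _) (mu_comb _) hG2 hk
      rw [← e2] at this
      exact this

end Pool.Agent.H12E
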