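import Pool.Agent.H12E.Deriv
import Pool.Agent.H12E.LangFacts

/-! Features, symbols, reference sets. -/

namespace Pool.Agent.H12E

section

variable {k : ℕ}

/-- The feature of a word. -/
def Feat (L : ℕ) (O : List (Lt k)) : Option (List (Lt k)) × ℕ × ℕ × Option (Lt k) :=
  (if (sep O).length ≤ L then some (sep O) else none, min 3 (ca O), min 3 (cb O), ls O)

theorem Feat.sep_nil_iff {L : ℕ} {O O' : List (Lt k)} (h : Feat L O = Feat L O') :
    sep O = [] ↔ sep O' = [] := by
  rw [← ls_eq_none, ← ls_eq_none]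
  have : ls O = ls O' := congrArg (fun z => z.2.2.2) h
  rw [this]

theorem Feat.ls_eq {L : ℕ} {O O' : List (Lt k)} (h : Feat L O = Feat L O') : ls O = ls O' :=
  congrArg (fun z => z.2.2.2) h

theorem Feat.ca_eq {L : ℕ} {O O' : List (Lt k)} (h : Feat L O = Feat L O') :
    min 3 (ca O) = min 3 (ca O') := congrArg (fun z => z.2.1) h

theorem Feat.cb_eq {L : ℕ} {O O' : List (Lt k)} (h : Feat L O = Feat L O') :
    min 3 (cb O) = min 3 (cb O') := congrArg (fun z => z.2.2.1) h

theorem Feat.small_iff {L : ℕ} {O O' : List (Lt k)} (h : Feat L O = Feat L O') :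
    (sep O).length ≤ L ↔ (sep O').length ≤ L := by
  have h1 : (if (sep O).length ≤ L then some (sep O) else none) =
    (if (sep O').length ≤ L then some (sep O') else none) := congrArg (fun z => z.1) h
  by_cases h2 : (sep O).length ≤ L
  · by_cases h3 : (sep O').length ≤ L
    · exact iff_of_true h2 h3
    · simp [h2, h3] at h1
  · by_cases h3 : (sep O').length ≤ L
    · simp [h2, h3] at h1
    · exact iff_of_false h2 h3

theorem Feat.sep_eq {L : ℕ} {O O' : List (Lt k)} (h : Feat L O = Feat L O')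
    (h2 : (sep O).length ≤ L) : sep O = sep O' := by
  have h1 : (if (sep O).length ≤ L then some (sep O) else none) =
    (if (sep O').length ≤ L then some (sep O') else none) := congrArg (fun z => z.1) h
  have h3 := (Feat.small_iff h).1 h2
  simpa [h2, h3] using h1

theorem feat_append {L : ℕ} {O1 O1' O2 O2' : List (Lt k)} (h1 : Feat L O1 = Feat L O1')
    (h2 : Feat L O2 = Feat L O2') : Feat L (O1 ++ O2) = Feat L (O1' ++ O2') := by
  have hA : (if (sep (O1 ++ O2)).length ≤ L then some (sep (O1 ++ O2)) else none) =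
      (if (sep (O1' ++ O2')).length ≤ L then some (sep (O1' ++ O2')) else none) := by
    rw [sep_append, sep_append]
    by_cases a1 : (sep O1).length ≤ L
    · by_cases a2 : (sep O2).length ≤ L
      · rw [Feat.sep_eq h1 a1, Feat.sep_eq h2 a2]
      · have a2' : ¬ (sep O2').length ≤ L := fun hc => a2 ((Feat.small_iff h2).2 hc)
        rw [if_neg (by simp; omega), if_neg (by simp; omega)]
    · have a1' : ¬ (sep O1').length ≤ L := fun hc => a1 ((Feat.small_iff h1).2 hc)
      rw [if_neg (by simp; omega), if_neg (by simp; omega)]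
  have hB : min 3 (ca (O1 ++ O2)) = min 3 (ca (O1' ++ O2')) := by
    have e1 := Feat.ca_eq h1
    have e2 := Feat.ca_eq h2
    by_cases a1 : sep O1 = []
    · have a1' := (Feat.sep_nil_iff h1).1 a1
      rw [ca_append_sepfree a1, ca_append_sepfree a1', ← ca_of_sepfree a1, ← ca_of_sepfree a1']
      omega
    · have a1' : sep O1' ≠ [] := fun hc => a1 ((Feat.sep_nil_iff h1).2 hc)
      rw [ca_append_sep a1, ca_append_sep a1']
      exact e1
  have hC : min 3 (cb (O1 ++ O2)) = min 3 (cb (O1' ++ O2')) := by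
    have e1 := Feat.cb_eq h1
    have e2 := Feat.cb_eq h2
    by_cases a2 : sep O2 = []
    · have a2' := (Feat.sep_nil_iff h2).1 a2
      rw [cb_append_sepfree a2, cb_append_sepfree a2', ← cb_of_sepfree a2, ← cb_of_sepfree a2']
      omega
    · have a2' : sep O2' ≠ [] := fun hc => a2 ((Feat.sep_nil_iff h2).2 hc)
      rw [cb_append_sep a2, cb_append_sep a2']
      exact e2
  have hD : ls (O1 ++ O2) = ls (O1' ++ O2') := by
    have e1 := Feat.ls_eq h1
    have e2 := Feat.ls_eq h2
    by_cases a2 : sep O2 = []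
    · have a2' := (Feat.sep_nil_iff h2).1 a2
      rw [ls_append_sepfree a2, ls_append_sepfree a2', e1]
    · have a2' : sep O2' ≠ [] := fun hc => a2 ((Feat.sep_nil_iff h2).2 hc)
      rw [ls_append_sep a2, ls_append_sep a2', e2]
  unfold Feat
  rw [hA, hB, hC, hD]

variable {Q D0 : Type}

/-- symbols -/
abbrev SymT (Q D0 : Type) (k : ℕ) : Type :=
  (Q × List D0 × List D0) × (Option (List (Lt k)) × ℕ × ℕ × Option (Lt k)) × Bool

def sym (L : ℕ) (ν : Node Q D0 (Lt k)) : SymT Q D0 k := (ν.ty, Feat L ν.O, ν.y.isEmpty)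

/-- all possible symbols -/
def symSet (h : Lt k → List D0) (L : ℕ) : Set (SymT Q D0 k) :=
  {σ | σ.1.2.1 ∈ Res h ∧ σ.1.2.2 ∈ Res h ∧ (∀ s ∈ σ.2.1.1, s.length ≤ L) ∧ σ.2.1.2.1 ≤ 3 ∧
    σ.2.1.2.2.1 ≤ 3}

instance : Finite (Lt k) := by
  have : Finite (Gm k) := by
    apply Finite.of_injective (fun x : Gm k => match x with
      | .o => (Sum.inl false : Bool ⊕ Fin k)
      | .m => Sum.inl true
      | .e i => Sum.inr i)
    intro x y h
    cases x <;> cases y <;> simp_all
  apply Finite.of_injective (fun x : Lt k => match x with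
    | .mn x => (Sum.inl x : Gm k ⊕ (Fin k ⊕ Fin 4))
    | .d => Sum.inr (Sum.inr 0)
    | .d' => Sum.inr (Sum.inr 1)
    | .c => Sum.inr (Sum.inr 2)
    | .b => Sum.inr (Sum.inr 3)
    | .el i => Sum.inr (Sum.inl i))
  intro x y h
  cases x <;> cases y <;> simp_all

theorem symSet_finite [Finite Q] (h : Lt k → List D0) (L : ℕ) :
    (symSet h L : Set (SymT Q D0 k)).Finite := by
  have h1 : (Res h).Finite := Res.finite h
  have h2 : {l : List (Lt k) | l.length ≤ L}.Finite := List.finite_length_le _ _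
  have h3 : {o : Option (List (Lt k)) | ∀ s ∈ o, s.length ≤ L}.Finite := by
    have : {o : Option (List (Lt k)) | ∀ s ∈ o, s.length ≤ L} ⊆
        insert none (some '' {l : List (Lt k) | l.length ≤ L}) := by
      intro o ho
      cases o with
      | none => simp
      | some s => right; exact ⟨s, ho s rfl, rfl⟩
    exact ((h2.image _).insert _).subset this
  have h4 : {n : ℕ | n ≤ 3}.Finite := Set.finite_le_nat 3
  have h5 := ((Set.finite_univ (α := Q)).prod (h1.prod h1)).prod
    ((h3.prod (h4.prod (h4.prod (Set.finite_univ (α := Option (Lt k)))))).prod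
      (Set.finite_univ (α := Bool)))
  refine h5.subset ?_
  rintro ⟨⟨A, l, r⟩, ⟨o, a, b, c⟩, e⟩ ⟨g1, g2, g3, g4, g5⟩
  exact ⟨⟨trivial, g1, g2⟩, ⟨g3, g4, g5, trivial⟩, trivial⟩

theorem sym_mem {h : Lt k → List D0} {L : ℕ} {ν : Node Q D0 (Lt k)} (hl : ν.l ∈ Res h)
    (hr : ν.r ∈ Res h) : sym L ν ∈ (symSet h L : Set (SymT Q D0 k)) := by
  refine ⟨hl, hr, ?_, ?_, ?_⟩
  · intro s hs
    simp only [sym, Feat] at hs
    by_cases h1 : (sep ν.O).length ≤ L
    · simp [h1] at hs; rw [← hs]; exact h1
    · simp [h1] at hs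
  · exact min_le_left _ _
  · exact min_le_left _ _

theorem sym_ty {L : ℕ} {ν ν' : Node Q D0 (Lt k)} (h : sym L ν = sym L ν') : ν.ty = ν'.ty :=
  congrArg (fun z => z.1) h

theorem sym_feat {L : ℕ} {ν ν' : Node Q D0 (Lt k)} (h : sym L ν = sym L ν') :
    Feat L ν.O = Feat L ν'.O := congrArg (fun z => z.2.1) h

theorem sym_empty {L : ℕ} {ν ν' : Node Q D0 (Lt k)} (h : sym L ν = sym L ν') :
    ν.y.isEmpty = ν'.y.isEmpty := congrArg (fun z => z.2.2) h

/-- lists with the same types -/
theorem ty_lets {X : Type} {N N' : List (Node Q D0 X)}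
    (h : List.Forall₂ (fun ν ν' => ν.ty = ν'.ty) N N') : lets N = lets N' := by
  induction h with
  | nil => rfl
  | cons h _ ih =>
    rw [lets_cons, lets_cons, ih]
    have := congrArg (fun z => z.1) h
    simp only [Node.ty] at this
    rw [this]

theorem ty_chain {X : Type} {N N' : List (Node Q D0 X)}
    (h : List.Forall₂ (fun ν ν' => ν.ty = ν'.ty) N N') {l r : List D0} (hc : Chain l N r) :
    Chain l N' r := by
  induction h generalizing l with
  | nil => exact hc
  | cons h _ ih =>
    obtain ⟨h1, h2⟩ := hc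
    have e1 := congrArg (fun z => z.2.1) h
    have e2 := congrArg (fun z => z.2.2) h
    simp only [Node.ty] at e1 e2
    exact ⟨by rw [← e1]; exact h1, ih (by rw [← e2]; exact h2)⟩

theorem forall₂_imp {α β : Type} {R S : α → β → Prop} (hRS : ∀ a b, R a b → S a b) {l : List α}
    {l' : List β} (h : List.Forall₂ R l l') : List.Forall₂ S l l' := by
  induction h with
  | nil => exact List.Forall₂.nil
  | cons h _ ih => exact List.Forall₂.cons (hRS _ _ h) ih

theorem forall₂_exists {α β : Type} {R : α → β → Prop} {l : List α} (h : ∀ a ∈ l, ∃ b, R a b) :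
    ∃ l', List.Forall₂ R l l' := by
  induction l with
  | nil => exact ⟨[], List.Forall₂.nil⟩
  | cons a l ih =>
    obtain ⟨b, hb⟩ := h a List.mem_cons_self
    obtain ⟨l', hl'⟩ := ih (fun x hx => h x (List.mem_cons_of_mem _ hx))
    exact ⟨b :: l', List.Forall₂.cons hb hl'⟩

theorem forall₂_mem_right {α β : Type} {R : α → β → Prop} {l : List α} {l' : List β}
    (h : List.Forall₂ R l l') {b : β} (hb : b ∈ l') : ∃ a ∈ l, R a b := by
  induction h with
  | nil => simp at hb
  | cons h _ ih =>
    rcases List.mem_cons.1 hb with rfl | hb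
    · exact ⟨_, List.mem_cons_self, h⟩
    · obtain ⟨a, ha, hR⟩ := ih hb
      exact ⟨a, List.mem_cons_of_mem _ ha, hR⟩

theorem forall₂_split_left {α β : Type} {R : α → β → Prop} {l1 l2 : List α} {l' : List β}
    (h : List.Forall₂ R (l1 ++ l2) l') : ∃ l1' l2', l' = l1' ++ l2' ∧ List.Forall₂ R l1 l1' ∧
      List.Forall₂ R l2 l2' := by
  induction l1 generalizing l' with
  | nil => exact ⟨[], l', rfl, List.Forall₂.nil, h⟩
  | cons a l1 ih =>
    cases h with
    | cons h1 h2 =>
      obtain ⟨l1', l2', rfl, h3, h4⟩ := ih h2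
      exact ⟨_ :: l1', l2', rfl, List.Forall₂.cons h1 h3, h4⟩

theorem forall₂_append {α β : Type} {R : α → β → Prop} {l1 l2 : List α} {l1' l2' : List β}
    (h1 : List.Forall₂ R l1 l1') (h2 : List.Forall₂ R l2 l2') :
    List.Forall₂ R (l1 ++ l2) (l1' ++ l2') := by
  induction h1 with
  | nil => simpa using h2
  | cons h _ ih => simpa using List.Forall₂.cons h ih

theorem feat_cat {L : ℕ} {N N' : List (Node Q D0 (Lt k))}
    (h : List.Forall₂ (fun ν ν' => sym L ν = sym L ν') N N') :
    Feat L (catO N) = Feat L (catO N') := by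
  induction h with
  | nil => rfl
  | cons h _ ih =>
    rw [catO_cons, catO_cons]
    exact feat_append (sym_feat h) ih

theorem empty_cat {L : ℕ} {N N' : List (Node Q D0 (Lt k))}
    (h : List.Forall₂ (fun ν ν' => sym L ν = sym L ν') N N') :
    (caty N).isEmpty = (caty N').isEmpty := by
  induction h with
  | nil => rfl
  | cons h _ ih =>
    have := sym_empty h
    rw [caty_cons, caty_cons, Bool.eq_iff_iff]
    simp only [List.isEmpty_iff, List.append_eq_nil_iff]
    rw [Bool.eq_iff_iff] at ih this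
    simp only [List.isEmpty_iff] at ih this
    rw [ih, this]

theorem sym_lets {L : ℕ} {N N' : List (Node Q D0 (Lt k))}
    (h : List.Forall₂ (fun ν ν' => sym L ν = sym L ν') N N') : lets N = lets N' :=
  ty_lets (forall₂_imp (fun _ _ => sym_ty) h)

theorem sym_chain {L : ℕ} {N N' : List (Node Q D0 (Lt k))}
    (h : List.Forall₂ (fun ν ν' => sym L ν = sym L ν') N N') {l r : List D0} (hc : Chain l N r) :
    Chain l N' r :=
  ty_chain (forall₂_imp (fun _ _ => sym_ty) h) hc

end

end Pool.Agent.H12E
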