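import Pool.Agent.H12E.Tree

/-! The final contradiction. -/

namespace Pool.Agent.H12E

section

variable {k n0 C C' L J : ℕ} {D0 : Type} {G : ETOL D0} {h : Lt k → List D0}
  {T : List (G.Sig → Set (List G.Sig))} {lay : Layout k n0 C C' L J} (E : Env lay G h T)

/-- the relation between letters -/
def Env.Rel (s s' : ℕ) : Set (G.Sig × G.Sig) :=
  {p | ∃ x1 x2, Steps (seg T s s') [p.1] (x1 ++ p.2 :: x2) ∧ (∀ B ∈ x1, B ∈ E.c.Z s') ∧
    ∀ B ∈ x2, B ∈ E.c.Z s'}

theorem chain_empty {Q X : Type} {N : List (Node Q D0 X)} {l m : List D0} (hc : Chain l N m)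
    (hN : ∀ ν ∈ N, ν.l = ν.r) : l = m := by
  induction N generalizing l with
  | nil => exact hc
  | cons ν N ih =>
    rw [← ih hc.2 (fun κ hκ => hN κ (List.mem_cons_of_mem _ hκ)), ← hN ν List.mem_cons_self, hc.1]

theorem chain_erase {Q X : Type} (l : List D0) (x : List Q) :
    Chain l (x.map (fun B => (⟨B, l, l, [], []⟩ : Node Q D0 X))) l := by
  induction x with
  | nil => rfl
  | cons B x ih => exact ⟨rfl, ih⟩

theorem catO_erase {Q X : Type} (l : List D0) (x : List Q) :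
    catO (x.map (fun B => (⟨B, l, l, [], []⟩ : Node Q D0 X))) = [] := by
  induction x with
  | nil => rfl
  | cons B x ih => simp [ih]

theorem lets_erase {Q X : Type} (l : List D0) (x : List Q) :
    lets (x.map (fun B => (⟨B, l, l, [], []⟩ : Node Q D0 X))) = x := by
  induction x with
  | nil => rfl
  | cons B x ih => simp [ih]

theorem small_map_mu {Q : Type} {M : List (Node Q D0 (Lt k))}
    {φ : Node Q D0 (Lt k) → Node Q D0 (Lt k)} (hM : ∀ ν ∈ M, small L ν = true)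
    (hφ : ∀ ν ∈ M, sym L ν = sym L (φ ν)) : mu (catO (M.map φ)) = mu (catO M) := by
  induction M with
  | nil => rfl
  | cons ν M ih =>
    rw [List.map_cons, catO_cons, catO_cons, mu_append, mu_append,
      ih (fun κ hκ => hM κ (List.mem_cons_of_mem _ hκ))
      (fun κ hκ => hφ κ (List.mem_cons_of_mem _ hκ)),
      Feat.mu_eq (sym_feat (hφ ν List.mem_cons_self)) (small_iff.1 (hM ν List.mem_cons_self))]

theorem caty_mem_nil {Q X : Type} {N : List (Node Q D0 X)} (h : caty N = []) :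
    ∀ ν ∈ N, ν.y = [] := by
  intro ν hν
  obtain ⟨A1, A2, rfl⟩ := List.append_of_mem hν
  simp only [caty_append, caty_cons, List.append_eq_nil_iff] at h
  exact h.2.1

theorem catO_nil_of {Q X : Type} {N : List (Node Q D0 X)} (h : ∀ ν ∈ N, ν.O = []) :
    catO N = [] := by
  induction N with
  | nil => rfl
  | cons ν N ih =>
    rw [catO_cons, h ν List.mem_cons_self, ih (fun κ hκ => h κ (List.mem_cons_of_mem _ hκ))]
    rfl

theorem Env.contra {v : ℕ} {χ : _} {zs : ℕ → ℕ} (hn0 : 1 ≤ n0)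
    (hk : 2 ^ (Nat.card G.Sig * Nat.card G.Sig) < k)
    (hzs : ∀ g : Fin k, E.cls (zs g) = χ ∧
      v / n0 ^ ((g : ℕ) + 1) = zs g / n0 ^ ((g : ℕ) + 1) ∧ v / n0 ^ (g : ℕ) < zs g / n0 ^ (g : ℕ) ∧
      E.Beta g v (zs g)) : False := by
  classical
  have : Finite G.Sig := G.fin
  have : Fintype G.Sig := Fintype.ofFinite _
  have hcard : Fintype.card (Set (G.Sig × G.Sig)) < Fintype.card (Fin k) := by
    rw [Fintype.card_set, Fintype.card_prod, Fintype.card_fin, ← Nat.card_eq_fintype_card]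
    exact hk
  obtain ⟨g', g, hne, heq⟩ := Fintype.exists_ne_map_eq_of_card_lt
    (fun g : Fin k => E.Rel (E.lev v) (E.lev (zs g))) hcard
  wlog hlt : g' < g generalizing g' g
  · exact this g g' hne.symm heq.symm (lt_of_le_of_ne (not_lt.1 hlt) hne.symm)
  have hlt' : (g' : ℕ) + 1 ≤ (g : ℕ) := hlt
  obtain ⟨hc1, hd1, hl1, q1, q2, b, W0, W3, hb, hq1v, hvz, hzq2, hq2, hw, hW0, hAct, hSil⟩ :=
    hzs g'
  obtain ⟨hc2, hd2, hl2, q1', q2', b', W0', W3', -, -, hvz', hzq2', hq2', -⟩ := hzs g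
  have hgk : (g : ℕ) < k := g.2
  -- order of leaves
  have hdg : v / n0 ^ (g : ℕ) = zs g' / n0 ^ (g : ℕ) := by
    have e : n0 ^ (g : ℕ) = n0 ^ ((g' : ℕ) + 1) * n0 ^ ((g : ℕ) - ((g' : ℕ) + 1)) := by
      rw [← pow_add]; congr 1; omega
    rw [e, ← Nat.div_div_eq_div_mul, ← Nat.div_div_eq_div_mul, hd1]
  have hzz : zs g' < zs g := lt_of_div_lt (n := n0 ^ (g : ℕ)) (by rw [← hdg]; exact hl2)
  have hzgk : zs g < n0 ^ k := by omega
  have hzg'k : zs g' < n0 ^ k := by omega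
  have hvk : v < n0 ^ k := by omega
  have hq1k : q1 < n0 ^ k := by omega
  -- levels
  have l1 := E.lev_mono q1 v hq1v.le hvk
  have l2 := E.lev_mono v (zs g') hvz.le hzg'k
  have l3 := E.lev_mono (zs g') q2 hzq2.le hq2
  have l4 := E.lev_mono (zs g') (zs g) hzz.le hzgk
  have l5 := E.lev_le q2 hq2
  have l6 := E.lev_le (zs g) hzgk
  generalize hsv : E.lev v = sv at *
  generalize hsa : E.lev (zs g') = sa at *
  generalize hsb : E.lev (zs g) = sb at *
  -- classes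
  have hcl : E.cls (zs g) = E.cls (zs g') := hc2.trans hc1.symm
  have hRef : E.c.Ref sb = E.c.Ref sa := by
    have := congrArg (fun z => z.1) hcl
    simpa [Env.cls, hsa, hsb] using this
  have htail : E.c.tail sb = E.c.tail sa := by
    have := congrArg (fun z => z.2.1) hcl
    simpa [Env.cls, hsa, hsb] using this
  have hZ : E.c.Z sb = E.c.Z sa := by
    have := congrArg (fun z => z.2.2) hcl
    simpa [Env.cls, hsa, hsb] using this
  -- abbreviations
  set x := (mu lay.w).length - 1 - lay.mrk q2 b with hx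
  have hmk := lay.mk_small q2 hq2 b hb
  have hx3 : 3 ≤ x := by omega
  set W1 := W0 ++ Lt.el g' :: Lt.c :: List.replicate (x - 1) Lt.d' with hW1
  obtain ⟨A1, ν, A2, lam, rho, hA, hνs, hA1s, -, -⟩ := hAct.node sv l1 (l2.trans l3)
  obtain ⟨B1, κ, B2, lam', rho', hB, -, -, -, -⟩ := hAct.node sa (l1.trans l2) l3
  have hlen := hSil _ _ _ _ _ _ _ _ _ _ hA hB
  obtain ⟨D1, X1, X2, D2, e1, e2, e3, e4, e5, e6, e7⟩ := Ctx.At_desc l2 (l3.trans l5) hA hB
  have hyy : caty X1 = [] ∧ caty X2 = [] := by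
    have h1 := congrArg List.length e4.caty
    simp only [caty_append, caty_cons, caty_nil, List.append_nil, List.length_append] at h1
    exact ⟨List.length_eq_zero_iff.1 (by omega), List.length_eq_zero_iff.1 (by omega)⟩
  have hX1mem : ∀ ξ ∈ X1, ξ ∈ E.c.D.N sa := by
    intro ξ hξ; rw [hB.hN, e6]; simp [hξ]
  have hX2mem : ∀ ξ ∈ X2, ξ ∈ E.c.D.N sa := by
    intro ξ hξ; rw [hB.hN, e7]; simp [hξ]
  have hsaT : sa ≤ T.length := l3.trans l5
  have hX1 : ∀ ξ ∈ X1, ξ.O = [] ∧ ξ.l = ξ.r := fun ξ hξ =>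
    E.c.D.inv hsaT (hX1mem ξ hξ) (caty_mem_nil hyy.1 ξ hξ)
  have hX2 : ∀ ξ ∈ X2, ξ.O = [] ∧ ξ.l = ξ.r := fun ξ hξ =>
    E.c.D.inv hsaT (hX2mem ξ hξ) (caty_mem_nil hyy.2 ξ hξ)
  have hOX1 : catO X1 = [] := catO_nil_of (fun ξ hξ => (hX1 ξ hξ).1)
  have hOX2 : catO X2 = [] := catO_nil_of (fun ξ hξ => (hX2 ξ hξ).1)
  rw [hOX1, List.nil_append] at e1
  rw [hOX2, List.append_nil] at e2
  subst e1 e2
  have hνκ : ν.O = κ.O := by rw [hA.hO, hB.hO]
  have hch : Chain ν.l (X1 ++ κ :: X2) ν.r := e4.chain ⟨rfl, rfl⟩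
  obtain ⟨m, c1, c2⟩ := hch.split
  obtain ⟨c3, c4⟩ := c2
  have hl : ν.l = κ.l := by
    rw [c3]; exact chain_empty c1 (fun ξ hξ => (hX1 ξ hξ).2)
  have hr : κ.r = ν.r := chain_empty c4 (fun ξ hξ => (hX2 ξ hξ).2)
  -- the relation
  have hrel : (ν.A, κ.A) ∈ E.Rel sv sa := by
    refine ⟨lets X1, lets X2, ?_, ?_, ?_⟩
    · have := e4.steps
      simpa using this
    · intro B hB'
      obtain ⟨ξ, hξ, rfl⟩ := List.mem_map.1 hB'
      have h1 := (E.c.D.valid hsaT (hX1mem ξ hξ)).2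
      rw [caty_mem_nil hyy.1 ξ hξ] at h1
      exact h1
    · intro B hB'
      obtain ⟨ξ, hξ, rfl⟩ := List.mem_map.1 hB'
      have h1 := (E.c.D.valid hsaT (hX2mem ξ hξ)).2
      rw [caty_mem_nil hyy.2 ξ hξ] at h1
      exact h1
  rw [heq] at hrel
  obtain ⟨x1, x2, hst, hz1, hz2⟩ := hrel
  rw [hZ] at hz1 hz2
  -- level sb
  have l7 : sv ≤ sb := l2.trans l4
  have hrs := E.c.D.rs l7 l6
  rw [hA.hN] at hrs
  obtain ⟨E1, Erest, f1, f2, f3⟩ := hrs.split
  have f3' : RS (seg T sv sb) ([ν] ++ A2) Erest := f3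
  obtain ⟨Kν, E2, f4, f5, f6⟩ := f3'.split
  subst f4
  obtain ⟨φ, hφ1, hφ2⟩ := E.c.images hRef
  have hmemE1 : ∀ ξ ∈ E1, ξ ∈ E.c.D.N sb := by intro ξ hξ; rw [f1]; simp [hξ]
  have hmemK : ∀ ξ ∈ Kν, ξ ∈ E.c.D.N sb := by intro ξ hξ; rw [f1]; simp [hξ]
  have hmemE2 : ∀ ξ ∈ E2, ξ ∈ E.c.D.N sb := by intro ξ hξ; rw [f1]; simp [hξ]
  have hT4 := E.c.T4 l6 hsaT htail (Ctx.forall₂_map_right (R := fun ν ν' => sym L ν = sym L ν' ∧
      ν' ∈ E.c.D.N sa) (fun ν hν => hφ1 ν hν))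
  rw [f1] at hT4
  simp only [List.map_append, catO_append, mu_append] at hT4
  have hE1s : ∀ ξ ∈ E1, small L ξ = true := f2.small hA1s
  have hKs : ∀ ξ ∈ Kν, small L ξ = true := f5.small (by simpa using hνs)
  have hmuE1 := small_map_mu hE1s (fun ξ hξ => (hφ1 ξ (hmemE1 ξ hξ)).1)
  have hmuK := small_map_mu hKs (fun ξ hξ => (hφ1 ξ (hmemK ξ hξ)).1)
  have hOE1 : catO E1 = catO A1 := f2.catO
  have hOK : catO Kν = κ.O := by rw [f5.catO]; simp [hνκ]
  -- the new list of nodes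
  let Nn : List (Node G.Sig D0 (Lt k)) := E1.map φ ++
    (x1.map (fun B => (⟨B, κ.l, κ.l, [], []⟩ : Node G.Sig D0 (Lt k))) ++
      κ :: (x2.map (fun B => (⟨B, κ.r, κ.r, [], []⟩ : Node G.Sig D0 (Lt k))) ++ E2.map φ))
  have hcatN : catO Nn = catO (E1.map φ) ++ (κ.O ++ catO (E2.map φ)) := by
    simp only [Nn, catO_append, catO_cons, catO_erase, List.nil_append]
  have symE1 : List.Forall₂ (fun ν ν' => sym L ν = sym L ν') E1 (E1.map φ) :=
    Ctx.forall₂_map_right (fun ξ hξ => (hφ1 ξ (hmemE1 ξ hξ)).1)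
  have symE2 : List.Forall₂ (fun ν ν' => sym L ν = sym L ν') E2 (E2.map φ) :=
    Ctx.forall₂_map_right (fun ξ hξ => (hφ1 ξ (hmemE2 ξ hξ)).1)
  have hchN := E.c.D.chain (l7.trans l6)
  rw [hA.hN] at hchN
  obtain ⟨m1, c5, c6⟩ := hchN.split
  obtain ⟨c7, c8⟩ := c6
  have hchain : Chain [] Nn [] := by
    refine (sym_chain symE1 (f2.chain c5)).append ?_
    rw [← c7, hl]
    refine (chain_erase κ.l x1).append ?_
    refine ⟨rfl, ?_⟩
    refine (chain_erase κ.r x2).append ?_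
    rw [hr]
    exact sym_chain symE2 (f6.chain c8)
  have hletsN : lets Nn = lets E1 ++ ((x1 ++ κ.A :: x2) ++ lets E2) := by
    simp only [Nn, lets_append, lets_cons, lets_erase, ← sym_lets symE1, ← sym_lets symE2,
      List.append_assoc, List.cons_append]
  have hreach : Steps (seg T 0 sb) G.start (lets Nn) := by
    have h1 := E.c.D.reach (l7.trans l6)
    rw [hA.hN] at h1
    have h2 : Steps (seg T sv sb) (lets (A1 ++ ν :: A2)) (lets Nn) := by
      rw [hletsN, lets_append, lets_cons]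
      exact f2.steps.append (Steps.append (x := [ν.A]) hst f6.steps)
    have h3 := h1.comp h2
    rwa [seg_append T (Nat.zero_le _) l7] at h3
  have hvalid : ∀ ξ ∈ Nn, Valid (G.term : D0 → G.Sig) h (seg T sa T.length) ξ := by
    intro ξ hξ
    simp only [Nn, List.mem_append, List.mem_cons, List.mem_map] at hξ
    rcases hξ with ⟨ζ, hζ, rfl⟩ | ⟨B, hB', rfl⟩ | rfl | ⟨B, hB', rfl⟩ | ⟨ζ, hζ, rfl⟩
    · exact E.c.D.valid hsaT (hφ1 ζ (hmemE1 ζ hζ)).2
    · refine ⟨?_, ?_⟩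
      · show [] ++ κ.l = κ.l ++ hom h []
        simp
      · exact hz1 B hB'
    · exact E.c.D.valid hsaT (by rw [hB.hN]; simp)
    · refine ⟨?_, ?_⟩
      · show [] ++ κ.r = κ.r ++ hom h []
        simp
      · exact hz2 B hB'
    · exact E.c.D.valid hsaT (hφ1 ζ (hmemE2 ζ hζ)).2
  have hmem : catO Nn ∈ Lk k := by
    apply E.c.hL
    exact splice G h (T0 := seg T 0 sb) (T'' := seg T sa T.length)
      (fun t ht => E.c.hT t (mem_seg ht)) (fun t ht => E.c.hT t (mem_seg ht)) hreach hchain hvalid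
  rw [hcatN] at hmem
  have hmuN : mu (catO (E1.map φ) ++ (κ.O ++ catO (E2.map φ))) =
      (mu lay.w).take (E.c.p sb) ++ (mu lay.w).drop (E.c.p sa) := by
    rw [← hT4, mu_append, mu_append, hmuK, hOK]
  have hsplit : catO (E1.map φ) ++ (κ.O ++ catO (E2.map φ)) = (catO (E1.map φ) ++ lam) ++
      Lt.c :: (List.replicate (x - 2) Lt.d' ++ Lt.c :: (rho ++ catO (E2.map φ))) := by
    rw [hB.hO]; simp
  have hfeat : Feat L (catO (E1.map φ) ++ lam) = Feat L W1 := by
    rw [← hA.hW, ← hOE1]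
    exact feat_append (feat_cat symE1).symm rfl
  have hcbW : cb (catO (E1.map φ) ++ lam) = 1 := by
    have h1 := Feat.cb_eq hfeat
    rw [hAct.hcb] at h1
    omega
  have hlsW : ls (catO (E1.map φ) ++ lam) = some (Lt.el g') := by
    rw [Feat.ls_eq hfeat, hW1]
    have : W0 ++ Lt.el g' :: Lt.c :: List.replicate (x - 1) Lt.d' =
      (W0 ++ [Lt.el g']) ++ (Lt.c :: List.replicate (x - 1) Lt.d') := by simp
    rw [this, ls_append_sepfree (by simp [sep_cons, isSep]), ls_append_sep (by simp [sep_cons, isSep])]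
    simp [ls, sep_cons, isSep]
  rw [hsplit] at hmem hmuN
  obtain ⟨i, hi, -⟩ := F2 hmem
  rw [hcbW] at hi
  have hig : i = g' := by
    have := hi.hls
    rw [hlsW] at this
    simpa using this.symm
  subst hig
  have hkill := hi.hkill
  rw [hmuN] at hkill
  have hmuW : (mu (catO (E1.map φ) ++ lam)).length = (mu W0).length := by
    rw [mu_append, hmuE1, hOE1, ← mu_append, hA.hW, hW1]
    simp
  rw [hmuW] at hkill
  -- the event
  have hpos : 0 < n0 ^ (g : ℕ) := Nat.pow_pos hn0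
  set e := (v / n0 ^ (g : ℕ) + 1) * n0 ^ (g : ℕ) with he
  have hve : v < e := by
    have := Nat.lt_mul_div_succ v hpos
    rw [he, Nat.mul_comm]; exact this
  have hez : e ≤ zs g := by
    calc e ≤ (zs g / n0 ^ (g : ℕ)) * n0 ^ (g : ℕ) := Nat.mul_le_mul_right _ hl2
      _ ≤ zs g := Nat.div_mul_le_self _ _
  have hdvd : n0 ^ ((i : ℕ) + 1) ∣ e :=
    (pow_dvd_pow n0 hlt').trans (Dvd.intro_left _ rfl)
  obtain ⟨y, hy1, hy2⟩ := lay.event e (by omega) (by omega) i (by omega) hdvd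
  have k1 := lay.pos_lt_ev E.hC' (show q1 < e by omega) (by omega)
  have k2 := lay.ev_lt_pos e (by omega)
  have k3 := lay.pos_mono E.hC' hez hzgk
  have k4 := E.lev_lb (zs g) hzgk
  rw [hsb] at k4
  have k5 := E.lev_ub q2 hq2
  have k6 := lay.pos_lt_mk q2 hq2 b hb
  have k7 := E.p_mono sa (E.lev q2) l3 l5
  have hpn : ∀ s ≤ T.length, E.c.p s ≤ (mu lay.w).length := by
    intro s hs
    have h1 := congrArg (fun z => (mu z).length) (E.c.D.cat hs)
    rw [E.c.pre_post s] at h1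
    simp only [catO_append, mu_append, List.length_append] at h1
    unfold Ctx.p msum
    omega
  have hp1 := hpn sb l6
  have hp2 := hpn sa hsaT
  have hlenw : ((mu lay.w).take (E.c.p sb) ++ (mu lay.w).drop (E.c.p sa)).length =
      E.c.p sb + ((mu lay.w).length - E.c.p sa) := by
    simp; omega
  refine hkill (lay.ev e) (by omega) ?_ y ?_ hy2
  · rw [hlenw]
    omega
  · rw [List.getElem?_append_left (by simp; omega), List.getElem?_take_of_lt (by omega)]
    exact hy1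

end

end Pool.Agent.H12E
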