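import Pool.Agent.H12E.Src

/-! Good sources. -/

namespace Pool.Agent.H12E

section lay

variable {k n0 C C' L J : ℕ} (lay : Layout k n0 C C' L J)

namespace Layout

theorem pos_lt_ev (hC' : 1 ≤ C') {q q' : ℕ} (hq : q < q') (hq' : q' < n0 ^ k) :
    lay.pos q + J < lay.ev q' := by
  induction q', (Nat.succ_le_of_lt hq) using Nat.le_induction with
  | base =>
    exact (lay.pos_lt_mk q (by omega) 0 hC').trans (lay.mk_lt_ev q hq' 0 hC')
  | succ q' h ih =>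
    have h1 := ih (by omega) (by omega)
    have h2 := lay.ev_lt_pos q' (by omega)
    have h3 := lay.pos_lt_mk q' (by omega) 0 hC'
    have h4 := lay.mk_lt_ev q' hq' 0 hC'
    omega

theorem pos_mono (hC' : 1 ≤ C') {q q' : ℕ} (hq : q ≤ q') (hq' : q' < n0 ^ k) :
    lay.pos q ≤ lay.pos q' := by
  rcases hq.eq_or_lt with rfl | hq
  · exact le_rfl
  · have h1 := lay.pos_lt_ev hC' hq hq'
    have h2 := lay.ev_lt_pos q' hq'
    omega

theorem mrk_lt_ev (hC' : 1 ≤ C') {q q' b : ℕ} (hb : b < C') (hq : q < q') (hq' : q' < n0 ^ k) :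
    lay.mrk q b < lay.ev q' := by
  rcases (Nat.succ_le_of_lt hq).eq_or_lt with h | h
  · rw [← h] at hq' ⊢; exact lay.mk_lt_ev q hq' b hb
  · have h1 := lay.mk_lt_ev q (by omega) b hb
    have h2 := lay.ev_lt_pos (q + 1) (by omega)
    have h3 := lay.pos_lt_ev hC' h hq'
    have e : q.succ = q + 1 := rfl
    rw [e] at h3
    omega

end Layout

theorem head_hasD {w : List (Lt k)} (hh : ∃ x y x' W, 1 ≤ y ∧ w = Lt.mn x ::
    (List.replicate y Lt.d ++ Lt.mn x' :: W)) {P R : List (Lt k)} {x0 : Gm k}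
    (hw : w = P ++ Lt.mn x0 :: R) (hP : P ≠ []) (P2 : List (Lt k)) :
    HasD (P ++ Lt.mn x0 :: P2) := by
  obtain ⟨x, y, x', W, hy, hw'⟩ := hh
  cases P with
  | nil => exact absurd rfl hP
  | cons p P' =>
    rw [hw] at hw'
    simp only [List.cons_append, List.cons.injEq] at hw'
    obtain ⟨rfl, hw'⟩ := hw'
    rcases List.append_eq_append_iff.1 hw' with ⟨a, h1, h2⟩ | ⟨a, h1, h2⟩
    · -- replicate = P' ++ a, mn x0 :: R = a ++ mn x' :: W
      cases a with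
      | nil =>
        simp only [List.nil_append, List.cons.injEq] at h2
        refine ⟨[], x, y, x', P2, hy, ?_⟩
        rw [h2.1, h1]; simp
      | cons z a =>
        exfalso
        simp only [List.cons_append, List.cons.injEq] at h2
        have : Lt.mn x0 ∈ List.replicate y (Lt.d : Lt k) := by rw [h1, h2.1]; simp
        simp [List.mem_replicate] at this
    · -- P' = replicate ++ a, mn x' :: W = a ++ mn x0 :: R
      cases a with
      | nil =>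
        simp only [List.nil_append, List.cons.injEq, Lt.mn.injEq] at h2
        refine ⟨[], x, y, x', P2, hy, ?_⟩
        rw [← h2.1, h1]; simp
      | cons z a =>
        simp only [List.cons_append, List.cons.injEq] at h2
        refine ⟨[], x, y, x', a ++ Lt.mn x0 :: P2, hy, ?_⟩
        rw [h1, ← h2.1]; simp

end lay

section

variable {k n0 C C' L J : ℕ} {D0 : Type} {G : ETOL D0} {h : Lt k → List D0}
  {T : List (G.Sig → Set (List G.Sig))}

/-- Everything. -/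
structure Env (lay : Layout k n0 C C' L J) (G : ETOL D0) (h : Lt k → List D0)
    (T : List (G.Sig → Set (List G.Sig))) where
  c : Ctx G h T lay.w L
  hC' : 1 ≤ C'
  hL : 100 * 3 ^ C ≤ L
  hC : (tySet G.Sig h).ncard < C
  lev : ℕ → ℕ
  lev_le : ∀ q < n0 ^ k, lev q ≤ T.length
  lev_lb : ∀ q < n0 ^ k, lay.pos q ≤ c.p (lev q)
  lev_ub : ∀ q < n0 ^ k, c.p (lev q) ≤ lay.pos q + J
  lev_mono : ∀ q q', q ≤ q' → q' < n0 ^ k → lev q ≤ lev q'
  p_mono : ∀ s s', s ≤ s' → s' ≤ T.length → c.p s ≤ c.p s'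

variable {lay : Layout k n0 C C' L J} (E : Env lay G h T)

/-- the prefix before the second unit -/
def SW (P1 : List (Lt k)) (x0 : Gm k) (y1 : ℕ) (G1 : List (Gm k)) (a : Fin k) (x : ℕ) :
    List (Lt k) := P1 ++ Lt.mn x0 :: (List.replicate y1 Lt.d ++ LW G1 a x)

theorem mu_SW {w : List (Lt k)} {i : ℕ} {a : Fin k} {u x : ℕ} {P1 : List (Lt k)} {x0 : Gm k}
    {y1 : ℕ} {G1 G2 : List (Gm k)} {y2 : ℕ} {x1 : Gm k} {Q1 : List (Lt k)}
    (hS : SrcAt k w i a u x P1 x0 y1 G1 G2 y2 x1 Q1) :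
    (mu (SW P1 x0 y1 G1 a x)).length = u + 1 := by
  have := hS.hu
  have := hS.hG1
  simp [SW, mu_LW]
  omega

theorem cb_SW (P1 : List (Lt k)) (x0 : Gm k) (y1 : ℕ) (G1 : List (Gm k)) (a : Fin k) (x : ℕ) :
    cb (SW P1 x0 y1 G1 a x) = 1 := by
  have : SW P1 x0 y1 G1 a x = ((P1 ++ Lt.mn x0 :: (List.replicate y1 Lt.d ++ G1.map Lt.mn)) ++
      [Lt.el a]) ++ (Lt.c :: List.replicate (x - 1) Lt.d') := by
    simp [SW, LW]
  rw [this, cb_append_sepfree (by simp [sep_cons, isSep]), cb_append_sep (by simp [sep_cons, isSep])]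
  simp [cb, ca_cons, isSep, nc_cons]

/-- a bad source -/
def BadSrc (q1 q2 b : ℕ) (a : Fin k) (i : ℕ) (τ : G.Sig × List D0 × List D0) : Prop :=
  ∃ P1 x0 y1 G1 G2 y2 x1 Q1 A1 ν A2 lam rho,
    SrcAt k lay.w i a (lay.src i q1 q2 b a) ((mu lay.w).length - 1 - lay.mrk q2 b)
      P1 x0 y1 G1 G2 y2 x1 Q1 ∧
    At (E.c.D.N (E.lev q1)) (SW P1 x0 y1 G1 a ((mu lay.w).length - 1 - lay.mrk q2 b))
      ((mu lay.w).length - 1 - lay.mrk q2 b - 2) A1 ν A2 lam rho ∧ ν.ty = τ ∧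
    (HasD ν.O ∨ ((∃ P2, catO A1 = P1 ++ Lt.mn x0 :: P2) ∧
      (3 ^ i + 1 ≤ (mu ν.O).length ∧ (mu ν.O).length ≤ 2 * 3 ^ i + 2)))

include E in
theorem Env.pow_le {i : ℕ} (hi : i ≤ C) : 100 * 3 ^ i ≤ L :=
  (Nat.mul_le_mul_left _ (Nat.pow_le_pow_right (by norm_num) hi)).trans E.hL

theorem Env.no_two_bad {q1 q2 b : ℕ} {a : Fin k} {i i' : ℕ} {τ : G.Sig × List D0 × List D0}
    (hi : 1 ≤ i) (hiC : i ≤ C) (hi' : 1 ≤ i') (hiC' : i' ≤ C) (hne : i ≠ i')
    (hq1 : q1 < n0 ^ k) (hu1 : lay.src i q1 q2 b a + 3 ^ i + 3 < lay.pos q1)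
    (hu2 : lay.src i' q1 q2 b a + 3 ^ i' + 3 < lay.pos q1)
    (hsep : lay.src i q1 q2 b a + L < lay.src i' q1 q2 b a)
    (h1 : BadSrc E q1 q2 b a i τ) (h2 : BadSrc E q1 q2 b a i' τ) : False := by
  obtain ⟨P1, x0, y1, G1, G2, y2, x1, Q1, A1, ν, A2, lam, rho, hS, hA, hty, hW⟩ := h1
  obtain ⟨P1', x0', y1', G1', G2', y2', x1', Q1', A1', ν', A2', lam', rho', hS', hA', hty', hW'⟩ :=
    h2
  have hs := E.lev_le q1 hq1
  have hlb := E.lev_lb q1 hq1
  have m1 := mu_SW hS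
  have m2 := mu_SW hS'
  have m1' := congrArg (fun z => (mu z).length) hA.hW
  have m2' := congrArg (fun z => (mu z).length) hA'.hW
  simp only [mu_append, List.length_append] at m1' m2'
  have a1 : 3 ≤ 3 ^ i := by
    calc 3 = 3 ^ 1 := by norm_num
      _ ≤ 3 ^ i := Nat.pow_le_pow_right (by norm_num) hi
  have a2 : 3 ≤ 3 ^ i' := by
    calc 3 = 3 ^ 1 := by norm_num
      _ ≤ 3 ^ i' := Nat.pow_le_pow_right (by norm_num) hi'
  have sm1 := E.c.small_of_lt hA.hN (by omega)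
  have sm2 := E.c.small_of_lt hA'.hN (by omega)
  -- different positions
  have hnoD : ¬ HasD ν.O ∧ ¬ HasD ν'.O := by
    rcases decomp_tri (hA.hN.symm.trans hA'.hN) with ⟨e1, e2, e3⟩ | ⟨B, hB, hB2⟩ | ⟨B, hB, hB2⟩
    · exfalso
      subst e1 e2
      have h3 : L < (mu lam').length := by omega
      have h4 := small_iff.1 sm1.2
      rw [hA'.hO] at h4
      have h5 := mu_length_le_sep lam'
      simp only [sep_append, List.length_append] at h4
      omega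
    · have hN := hA.hN
      rw [hB2] at hN
      exact E.c.P1 hs hN (hty.trans hty'.symm)
    · have hN := hA'.hN
      rw [hB2] at hN
      exact (E.c.P1 hs hN (hty'.trans hty.symm)).symm
  rcases hW with hW | ⟨-, hW1, hW2⟩
  · exact hnoD.1 hW
  rcases hW' with hW' | ⟨⟨P2, hP2⟩, hW1', hW2'⟩
  · exact hnoD.2 hW'
  have hP1' : P1' ≠ [] := by
    intro h0
    have := hS'.hu
    rw [h0] at this
    have hp := E.pow_le hiC'
    simp only [mu_nil, List.length_nil] at this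
    have : 1 ≤ 3 ^ i' := Nat.one_le_pow _ _ (by norm_num)
    omega
  have hD : HasD (catO A1') := by
    rw [hP2]
    exact head_hasD lay.head (R := _) hS'.hw hP1' P2
  have heq := E.c.P2 hs hA'.hN (κ := ν) (by rw [hA.hN]; simp) (hty'.trans hty.symm) hD
  rcases lt_or_gt_of_ne hne with h3 | h3
  · have : 3 ^ (i + 1) ≤ 3 ^ i' := Nat.pow_le_pow_right (by norm_num) h3
    rw [pow_succ] at this
    omega
  · have : 3 ^ (i' + 1) ≤ 3 ^ i := Nat.pow_le_pow_right (by norm_num) h3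
    rw [pow_succ] at this
    omega

/-- good sources exist -/
theorem Env.good_source {q1 q2 b : ℕ} {a : Fin k} (hq : q1 < q2) (hq2 : q2 < n0 ^ k) (hb : b < C')
    (hblk : q1 / n0 ^ ((a : ℕ) + 1) = q2 / n0 ^ ((a : ℕ) + 1)) :
    ∃ i, 1 ≤ i ∧ i ≤ C ∧ ∃ P1 x0 y1 G1 G2 y2 x1 Q1,
      SrcAt k lay.w i a (lay.src i q1 q2 b a) ((mu lay.w).length - 1 - lay.mrk q2 b)
        P1 x0 y1 G1 G2 y2 x1 Q1 ∧
      ∀ A1 ν A2 lam rho,
        At (E.c.D.N (E.lev q1)) (SW P1 x0 y1 G1 a ((mu lay.w).length - 1 - lay.mrk q2 b))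
          ((mu lay.w).length - 1 - lay.mrk q2 b - 2) A1 ν A2 lam rho →
        lam <:+ LW G1 a ((mu lay.w).length - 1 - lay.mrk q2 b) ∧
        rho <+: RW G2 ((mu lay.w).length - 1 - lay.mrk q2 b) := by
  classical
  by_contra hcon
  have hs := E.lev_le q1 (by omega)
  have hx : 3 ≤ (mu lay.w).length - 1 - lay.mrk q2 b := by
    have := lay.mk_small q2 hq2 b hb
    omega
  have hbad : ∀ i ∈ Finset.Icc 1 C, ∃ τ, BadSrc E q1 q2 b a i τ ∧ τ ∈ tySet G.Sig h := by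
    intro i hi
    rw [Finset.mem_Icc] at hi
    obtain ⟨P1, x0, y1, G1, G2, y2, x1, Q1, hS⟩ := lay.src_at i hi.1 hi.2 q1 q2 hq hq2 b hb a hblk
    by_contra hno
    apply hcon
    refine ⟨i, hi.1, hi.2, P1, x0, y1, G1, G2, y2, x1, Q1, hS, ?_⟩
    intro A1 ν A2 lam rho hA
    have hm : ν ∈ E.c.D.N (E.lev q1) := by rw [hA.hN]; simp
    have hw := E.c.window hs hS hx hA
    by_contra hno2
    apply hno
    refine ⟨ν.ty, ⟨P1, x0, y1, G1, G2, y2, x1, Q1, A1, ν, A2, lam, rho, hS, hA, rfl, ?_⟩,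
      E.c.D.res _ hs ν hm⟩
    rcases hw with hw | ⟨hw1, hw2 | hw2⟩
    · left; exact hw
    · right; exact ⟨hw1, hw2⟩
    · exact absurd hw2 hno2
  have hCpos : 1 ≤ C := by
    have := E.hC
    omega
  obtain ⟨τ0, -⟩ := hbad 1 (by simpa using hCpos)
  have : Nonempty (G.Sig × List D0 × List D0) := ⟨τ0⟩
  choose! τ hτ using hbad
  have : Finite G.Sig := G.fin
  have hfin := tySet_finite (Q := G.Sig) h
  have hcard : hfin.toFinset.card < (Finset.Icc 1 C).card := by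
    rw [← Set.ncard_eq_toFinset_card _ hfin]
    simpa using E.hC
  obtain ⟨i, hi, i', hi', hne, heq⟩ := Finset.exists_ne_map_eq_of_card_lt_of_maps_to hcard
    (f := τ) (by
      intro i hi
      simpa using (hτ i hi).2)
  have b1 := (hτ i hi).1
  have b2 := (hτ i' hi').1
  rw [heq] at b1
  rw [Finset.mem_Icc] at hi hi'
  have u1 := lay.src_ub i hi.1 hi.2 q1 q2 hq hq2 b hb a hblk
  have u2 := lay.src_ub i' hi'.1 hi'.2 q1 q2 hq hq2 b hb a hblk
  rcases lay.src_sep i hi.1 hi.2 i' hi'.1 hi'.2 q1 q2 hq hq2 b hb a hblk hne with h1 | h1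
  · exact E.no_two_bad hi.1 hi.2 hi'.1 hi'.2 hne (by omega) u1 u2 h1 b1 b2
  · exact E.no_two_bad hi'.1 hi'.2 hi.1 hi.2 hne.symm (by omega) u2 u1 h1 b2 b1

/-- active blocks -/
theorem Env.act {q1 s2 : ℕ} {i : ℕ} {a : Fin k} {u x : ℕ} {P1 : List (Lt k)} {x0 : Gm k}
    {y1 : ℕ} {G1 G2 : List (Gm k)} {y2 : ℕ} {x1 : Gm k} {Q1 : List (Lt k)}
    (hS : SrcAt k lay.w i a u x P1 x0 y1 G1 G2 y2 x1 Q1) (hq1 : q1 < n0 ^ k)
    (hu : u + 1 < lay.pos q1) (hs : E.lev q1 ≤ s2) (hs2 : s2 ≤ T.length)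
    (hgood : ∀ A1 ν A2 lam rho, At (E.c.D.N (E.lev q1)) (SW P1 x0 y1 G1 a x) (x - 2) A1 ν A2 lam rho →
      lam <:+ LW G1 a x ∧ rho <+: RW G2 x)
    (hub : ∃ A1 ν A2 lam rho, At (E.c.D.N s2) (SW P1 x0 y1 G1 a x) (x - 2) A1 ν A2 lam rho) :
    E.c.Act (E.lev q1) s2 (SW P1 x0 y1 G1 a x) (x - 2) := by
  refine ⟨cb_SW _ _ _ _ _ _, ?_⟩
  intro r hr hr2
  obtain ⟨B1, κ, B2, lam, rho, hκ⟩ := hub
  have h1 := E.c.D.rs hr2 hs2
  obtain ⟨A1, ν, A2, D1, X1, X2, D2, hA, -, -, -, -, -⟩ := hκ.anc h1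
  have h2 := E.c.D.rs hr (hr2.trans hs2)
  obtain ⟨A1', ν', A2', D1', X1', X2', D2', hA', -, -, -, -, -⟩ := hA.anc h2
  obtain ⟨g1, g2⟩ := hgood _ _ _ _ _ hA'
  have g3 := (List.suffix_append (catO X1') (catO X1 ++ lam)).trans g1
  have g4 := (List.prefix_append (rho ++ catO X2) (catO X2')).trans g2
  have m1 := mu_SW hS
  have m1' := congrArg (fun z => (mu z).length) hA.hW
  rw [m1] at m1'
  simp only [mu_append, List.length_append] at m1'
  have hp := E.p_mono _ _ hr (hr2.trans hs2)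
  have hlb := E.lev_lb q1 hq1
  have sm := E.c.small_of_lt hA.hN (by omega)
  exact ⟨A1, ν, A2, _, _, hA, sm.2, sm.1, LR_of_suffix g3, RR_of_prefix g4⟩

end

end Pool.Agent.H12E
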