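import Pool.Agent.H12E.Defs

/-! The language `Lk k` and the counting functions on its words. -/

namespace Pool.Agent.H12E

/-- main letters: filler, mark, events -/
inductive Gm (k : ℕ)
  | o
  | m
  | e (i : Fin k)
  deriving DecidableEq

/-- all letters -/
inductive Lt (k : ℕ)
  | mn (x : Gm k)
  | d
  | d'
  | c
  | el (i : Fin k)
  | b
  deriving DecidableEq

variable {k : ℕ}

/-- `comb x = c d'^(x-1) c d'^(x-2) ... c d'^0` -/
def comb (k : ℕ) : ℕ → List (Lt k)
  | 0 => []
  | x + 1 => Lt.c :: (List.replicate x Lt.d' ++ comb k x)

/-- the event `e g` kills label `i` iff `i < g` -/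
def Gm.kills (i : Fin k) : Gm k → Prop
  | .e g => i < g
  | _ => False

/-- What may stand between a main letter and the next one, when `G` is the list of main letters
that follow. -/
inductive Blk (G : List (Gm k)) : List (Lt k) → Prop
  | plain : Blk G []
  | dunit : Blk G (List.replicate G.length Lt.d)
  | skip (i : Fin k) (G1 G2 : List (Gm k)) (hG : G = G1 ++ Gm.m :: G2)
      (hk : ∀ x ∈ G1, ¬ Gm.kills i x) : Blk G (Lt.el i :: (comb k G2.length ++ [Lt.b]))

/-- Main texts. -/
inductive Str : List (Gm k) → List (Lt k) → Prop
  | nil : Str [] []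
  | cons {x : Gm k} {G : List (Gm k)} {X v : List (Lt k)} (hX : Blk G X) (hv : Str G v) :
      Str (x :: G) (Lt.mn x :: (X ++ v))

/-- The language. -/
def Lk (k : ℕ) : Set (List (Lt k)) := {v | ∃ G : List (Gm k), G ≠ [] ∧ Str G v}

/-- main letters of a word -/
def toG : Lt k → Option (Gm k)
  | .mn x => some x
  | _ => none

def mu (W : List (Lt k)) : List (Gm k) := W.filterMap toG

/-- separating letters -/
def isSep : Lt k → Bool
  | .mn _ => true
  | .el _ => true
  | .b => true
  | _ => false

def sep (W : List (Lt k)) : List (Lt k) := W.filter isSep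

/-- number of `c` -/
def nc (W : List (Lt k)) : ℕ := W.count Lt.c

/-- number of `c` before the first separating letter -/
def ca : List (Lt k) → ℕ
  | [] => 0
  | x :: W => if isSep x then 0 else (if x = Lt.c then 1 else 0) + ca W

/-- number of `c` after the last separating letter -/
def cb (W : List (Lt k)) : ℕ := ca W.reverse

/-- last separating letter -/
def ls (W : List (Lt k)) : Option (Lt k) := (sep W).getLast?

end Pool.Agent.H12E
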