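import Pool.Agent.H12E.LangDefs

/-! The language `Lk k` is an ETOL language. -/

namespace Pool.Agent.H12E.LangE

variable {k : ℕ}

/-- auxiliary symbols -/
inductive Aux (k : ℕ)
  | S0
  | S
  | D
  | D'
  | C
  | W (i : Fin k)
  | dead
  deriving DecidableEq

instance : Finite (Gm k) := by
  refine Finite.of_surjective (α := Option (Option (Fin k)))
    (fun x => match x with
      | none => Gm.o
      | some none => Gm.m
      | some (some i) => Gm.e i) ?_
  intro x
  cases x with
  | o => exact ⟨none, rfl⟩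
  | m => exact ⟨some none, rfl⟩
  | e i => exact ⟨some (some i), rfl⟩

instance : Finite (Lt k) := by
  refine Finite.of_surjective (α := (Gm k ⊕ Fin k) ⊕ Fin 4)
    (fun x => match x with
      | .inl (.inl x) => Lt.mn x
      | .inl (.inr i) => Lt.el i
      | .inr 0 => Lt.d
      | .inr 1 => Lt.d'
      | .inr 2 => Lt.c
      | .inr 3 => Lt.b) ?_
  intro x
  cases x with
  | mn x => exact ⟨.inl (.inl x), rfl⟩
  | el i => exact ⟨.inl (.inr i), rfl⟩
  | d => exact ⟨.inr 0, rfl⟩
  | d' => exact ⟨.inr 1, rfl⟩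
  | c => exact ⟨.inr 2, rfl⟩
  | b => exact ⟨.inr 3, rfl⟩

instance : Finite (Aux k) := by
  refine Finite.of_surjective (α := Fin k ⊕ Fin 6)
    (fun x => match x with
      | .inl i => Aux.W i
      | .inr 0 => Aux.S0
      | .inr 1 => Aux.S
      | .inr 2 => Aux.D
      | .inr 3 => Aux.D'
      | .inr 4 => Aux.C
      | .inr 5 => Aux.dead) ?_
  intro x
  cases x with
  | W i => exact ⟨.inl i, rfl⟩
  | S0 => exact ⟨.inr 0, rfl⟩
  | S => exact ⟨.inr 1, rfl⟩
  | D => exact ⟨.inr 2, rfl⟩
  | D' => exact ⟨.inr 3, rfl⟩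
  | C => exact ⟨.inr 4, rfl⟩
  | dead => exact ⟨.inr 5, rfl⟩

/-- symbols of the grammar -/
abbrev Sg (k : ℕ) := Lt k ⊕ Aux k

/-- productions of the main symbol -/
def prods (x : Gm k) : Set (List (Sg k)) :=
  {[.inl (.mn x), .inr .S], [.inl (.mn x), .inr .D, .inr .S]} ∪
    Set.range (fun i : Fin k =>
      [.inl (.mn x), .inl (.el i), .inr (.W i), .inl .b, .inr .S])

/-- the table of the main letter `x` -/
def tabA (x : Gm k) : Sg k → Set (List (Sg k))
  | .inl a => {[.inl a]}
  | .inr .S0 => prods x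
  | .inr .S => prods x
  | .inr .D => {[.inl .d, .inr .D]}
  | .inr .D' => {[.inl .d', .inr .D']}
  | .inr .C => {[.inl .c, .inr .D', .inr .C]}
  | .inr (.W i) => {z | (¬ Gm.kills i x ∧ z = [.inr (.W i)]) ∨ (x = .m ∧ z = [.inr .C]) ∨
      (Gm.kills i x ∧ z = [.inr .dead])}
  | .inr .dead => {[.inr .dead]}

/-- the final table -/
def tabF : Sg k → Set (List (Sg k))
  | .inl a => {[.inl a]}
  | .inr .S0 => {[.inr .dead]}
  | .inr .S => {[]}
  | .inr .D => {[]}
  | .inr .D' => {[]}
  | .inr .C => {[]}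
  | .inr (.W _) => {[.inr .dead]}
  | .inr .dead => {[.inr .dead]}

/-- the grammar -/
def gram (k : ℕ) : ETOL (Lt k) where
  Sig := Sg k
  fin := inferInstance
  tables := Set.range tabA ∪ {tabF}
  tables_fin := (Set.finite_range _).union (Set.finite_singleton _)
  tables_ok := by
    classical
    rintro t (⟨x, rfl⟩ | rfl) a
    · rcases a with a | a
      · exact ⟨Set.finite_singleton _, Set.singleton_nonempty _⟩
      · have hp : (prods x : Set (List (Sg k))).Finite ∧ (prods x : Set (List (Sg k))).Nonempty := by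
          refine ⟨?_, ⟨[.inl (.mn x), .inr .S], ?_⟩⟩
          · exact ((Set.finite_singleton _).insert _).union (Set.finite_range _)
          · exact Or.inl (Or.inl rfl)
        cases a with
        | S0 => exact hp
        | S => exact hp
        | D => exact ⟨Set.finite_singleton _, Set.singleton_nonempty _⟩
        | D' => exact ⟨Set.finite_singleton _, Set.singleton_nonempty _⟩
        | C => exact ⟨Set.finite_singleton _, Set.singleton_nonempty _⟩
        | dead => exact ⟨Set.finite_singleton _, Set.singleton_nonempty _⟩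
        | W i =>
          constructor
          · refine Set.Finite.subset (s := {[.inr (.W i)], [.inr .C], [.inr .dead]})
              (((Set.finite_singleton _).insert _).insert _) ?_
            rintro z (⟨_, rfl⟩ | ⟨_, rfl⟩ | ⟨_, rfl⟩) <;> simp
          · by_cases h : Gm.kills i x
            · exact ⟨[.inr .dead], Or.inr (Or.inr ⟨h, rfl⟩)⟩
            · exact ⟨[.inr (.W i)], Or.inl ⟨h, rfl⟩⟩
    · rcases a with a | a
      · exact ⟨Set.finite_singleton _, Set.singleton_nonempty _⟩
      · cases a <;> exact ⟨Set.finite_singleton _, Set.singleton_nonempty _⟩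
  start := [.inr .S0]
  term := ⟨Sum.inl, Sum.inl_injective⟩

/-! ### generic lemmas -/

lemma step_single {A : Type} {t : A → Set (List A)} {a : A} {z : List A} :
    Step t [a] z ↔ z ∈ t a := by
  constructor
  · intro h
    obtain ⟨u, v, rfl, hu, hv⟩ := h.cons_left
    rw [hv.nil_left, List.append_nil]
    exact hu
  · intro h
    have := Step.cons h Step.nil
    rwa [List.append_nil] at this

lemma steps_fix {A : Type} {a : A} {T : List (A → Set (List A))} (hT : ∀ t ∈ T, t a = {[a]})
    {z : List A} : Steps T [a] z ↔ z = [a] := by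
  induction T with
  | nil => exact eq_comm
  | cons t T ih =>
    have ht : t a = {[a]} := hT t (by simp)
    have ih' := ih (fun s hs => hT s (by simp [hs]))
    constructor
    · rintro ⟨y, hy, h⟩
      rw [step_single, ht] at hy
      have hy' : y = [a] := hy
      rw [hy'] at h
      exact ih'.1 h
    · rintro rfl
      exact ⟨[a], by rw [step_single, ht]; rfl, ih'.2 rfl⟩

/-- a list of tables of the grammar -/
def Tb (k : ℕ) (T : List (Sg k → Set (List (Sg k)))) : Prop := ∀ t ∈ T, t ∈ (gram k).tables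

lemma fix_inl {T : List (Sg k → Set (List (Sg k)))} (hT : Tb k T) (a : Lt k) {z : List (Sg k)} :
    Steps T [Sum.inl a] z ↔ z = [Sum.inl a] := by
  apply steps_fix
  intro t ht
  rcases hT t ht with ⟨x, rfl⟩ | h
  · rfl
  · rw [Set.mem_singleton_iff] at h
    rw [h]; rfl

lemma fix_dead {T : List (Sg k → Set (List (Sg k)))} (hT : Tb k T) {z : List (Sg k)} :
    Steps T [Sum.inr Aux.dead] z ↔ z = [Sum.inr Aux.dead] := by
  apply steps_fix
  intro t ht
  rcases hT t ht with ⟨x, rfl⟩ | h
  · rfl
  · rw [Set.mem_singleton_iff] at h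
    rw [h]; rfl

lemma map_inl_ne_dead (v : List (Lt k)) : v.map (Sum.inl : Lt k → Sg k) ≠ [Sum.inr Aux.dead] := by
  intro h
  have : (Sum.inr Aux.dead : Sg k) ∈ v.map (Sum.inl : Lt k → Sg k) := by rw [h]; simp
  simp at this

/-- the table sequence: main letters, then final, then a rest -/
def seqT (G : List (Gm k)) (T' : List (Sg k → Set (List (Sg k)))) :
    List (Sg k → Set (List (Sg k))) := G.map tabA ++ tabF :: T'

lemma seqT_cons (x : Gm k) (G : List (Gm k)) (T' : List (Sg k → Set (List (Sg k)))) :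
    seqT (x :: G) T' = tabA x :: seqT G T' := rfl

lemma seqT_Tb (G : List (Gm k)) {T' : List (Sg k → Set (List (Sg k)))} (hT : Tb k T') :
    Tb k (seqT G T') := by
  intro t ht
  rw [seqT, List.mem_append, List.mem_cons, List.mem_map] at ht
  rcases ht with ⟨x, _, rfl⟩ | rfl | h
  · exact Or.inl ⟨x, rfl⟩
  · exact Or.inr rfl
  · exact hT t h

/-- one step on a single symbol -/
lemma steps_cons_single {A : Type} {t : A → Set (List A)} {T : List (A → Set (List A))} {a : A}
    {z : List A} : Steps (t :: T) [a] z ↔ ∃ y ∈ t a, Steps T y z := by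
  constructor
  · rintro ⟨y, hy, h⟩
    exact ⟨y, step_single.1 hy, h⟩
  · rintro ⟨y, hy, h⟩
    exact ⟨y, step_single.2 hy, h⟩

lemma steps_append_iff {A : Type} {T : List (A → Set (List A))} {x x' z : List A} :
    Steps T (x ++ x') z ↔ ∃ u v, z = u ++ v ∧ Steps T x u ∧ Steps T x' v :=
  ⟨Steps.split, by rintro ⟨u, v, rfl, h1, h2⟩; exact h1.append h2⟩

lemma steps_nil_iff {A : Type} {T : List (A → Set (List A))} {z : List A} :
    Steps T [] z ↔ z = [] :=
  ⟨Steps.nil_left, by rintro rfl; exact Steps.nil_nil⟩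

lemma steps_cons_iff {A : Type} {T : List (A → Set (List A))} {a : A} {x z : List A} :
    Steps T (a :: x) z ↔ ∃ u v, z = u ++ v ∧ Steps T [a] u ∧ Steps T x v := by
  have : a :: x = [a] ++ x := rfl
  rw [this, steps_append_iff]

lemma steps_inl_cons {T : List (Sg k → Set (List (Sg k)))} (hT : Tb k T) {a : Lt k}
    {x z : List (Sg k)} : Steps T (Sum.inl a :: x) z ↔ ∃ v, z = Sum.inl a :: v ∧ Steps T x v := by
  rw [steps_cons_iff]
  constructor
  · rintro ⟨u, v, rfl, h1, h2⟩
    rw [fix_inl hT] at h1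
    exact ⟨v, by rw [h1]; rfl, h2⟩
  · rintro ⟨v, rfl, h⟩
    exact ⟨[Sum.inl a], v, rfl, (fix_inl hT a).2 rfl, h⟩

section Der
variable {T' : List (Sg k → Set (List (Sg k)))} (hT' : Tb k T')
include hT'

lemma der_D (G : List (Gm k)) (z : List (Sg k)) :
    Steps (seqT G T') [Sum.inr Aux.D] z ↔
      z = (List.replicate G.length (Lt.d : Lt k)).map Sum.inl := by
  induction G generalizing z with
  | nil =>
    show Steps (tabF :: T') _ _ ↔ _
    rw [steps_cons_single]
    simp only [tabF, Set.mem_singleton_iff, exists_eq_left, steps_nil_iff, List.length_nil,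
      List.replicate_zero, List.map_nil]
  | cons x G ih =>
    rw [seqT_cons, steps_cons_single]
    simp only [tabA, Set.mem_singleton_iff, exists_eq_left]
    rw [steps_inl_cons (seqT_Tb G hT')]
    simp only [ih, exists_eq_right]
    rfl

lemma der_D' (G : List (Gm k)) (z : List (Sg k)) :
    Steps (seqT G T') [Sum.inr Aux.D'] z ↔
      z = (List.replicate G.length (Lt.d' : Lt k)).map Sum.inl := by
  induction G generalizing z with
  | nil =>
    show Steps (tabF :: T') _ _ ↔ _
    rw [steps_cons_single]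
    simp only [tabF, Set.mem_singleton_iff, exists_eq_left, steps_nil_iff, List.length_nil,
      List.replicate_zero, List.map_nil]
  | cons x G ih =>
    rw [seqT_cons, steps_cons_single]
    simp only [tabA, Set.mem_singleton_iff, exists_eq_left]
    rw [steps_inl_cons (seqT_Tb G hT')]
    simp only [ih, exists_eq_right]
    rfl

lemma der_C (G : List (Gm k)) (z : List (Sg k)) :
    Steps (seqT G T') [Sum.inr Aux.C] z ↔ z = (comb k G.length).map Sum.inl := by
  induction G generalizing z with
  | nil =>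
    show Steps (tabF :: T') _ _ ↔ _
    rw [steps_cons_single]
    simp only [tabF, Set.mem_singleton_iff, exists_eq_left, steps_nil_iff, List.length_nil,
      comb, List.map_nil]
  | cons x G ih =>
    rw [seqT_cons, steps_cons_single]
    simp only [tabA, Set.mem_singleton_iff, exists_eq_left]
    rw [steps_inl_cons (seqT_Tb G hT')]
    constructor
    · rintro ⟨v, rfl, h⟩
      rw [steps_cons_iff] at h
      obtain ⟨u, w, rfl, h1, h2⟩ := h
      rw [der_D' hT'] at h1
      rw [ih] at h2
      subst h1 h2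
      simp [comb]
    · rintro rfl
      refine ⟨(List.replicate G.length (Lt.d' : Lt k)).map Sum.inl ++
        (comb k G.length).map Sum.inl, by simp [comb], ?_⟩
      rw [steps_cons_iff]
      exact ⟨_, _, rfl, (der_D' hT' G _).2 rfl, (ih _).2 rfl⟩

lemma der_W (i : Fin k) (G : List (Gm k)) (v : List (Lt k)) :
    Steps (seqT G T') [Sum.inr (Aux.W i)] (v.map Sum.inl) ↔
      ∃ G1 G2, G = G1 ++ Gm.m :: G2 ∧ (∀ x ∈ G1, ¬ Gm.kills i x) ∧ v = comb k G2.length := by
  induction G generalizing v with
  | nil =>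
    constructor
    · intro h
      have h' : Steps (tabF :: T') [Sum.inr (Aux.W i)] (v.map Sum.inl) := h
      rw [steps_cons_single] at h'
      simp only [tabF, Set.mem_singleton_iff, exists_eq_left] at h'
      rw [fix_dead hT'] at h'
      exact absurd h' (map_inl_ne_dead v)
    · rintro ⟨G1, G2, h, _⟩
      simp at h
  | cons x G ih =>
    rw [seqT_cons, steps_cons_single]
    constructor
    · rintro ⟨y, hy, h⟩
      rcases hy with ⟨h1, rfl⟩ | ⟨h1, rfl⟩ | ⟨h1, rfl⟩
      · obtain ⟨G1, G2, e1, e2, e3⟩ := (ih v).1 h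
        refine ⟨x :: G1, G2, by rw [e1]; rfl, ?_, e3⟩
        intro y hy
        rcases List.mem_cons.1 hy with rfl | hy
        · exact h1
        · exact e2 y hy
      · rw [der_C hT'] at h
        refine ⟨[], G, by rw [h1]; rfl, by simp, ?_⟩
        exact List.map_injective_iff.2 Sum.inl_injective h
      · rw [fix_dead (seqT_Tb G hT')] at h
        exact absurd h (map_inl_ne_dead v)
    · rintro ⟨G1, G2, e1, e2, e3⟩
      cases G1 with
      | nil =>
        simp only [List.nil_append, List.cons.injEq] at e1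
        refine ⟨[Sum.inr Aux.C], Or.inr (Or.inl ⟨e1.1, rfl⟩), ?_⟩
        rw [der_C hT', e3, e1.2]
      | cons y G1 =>
        simp only [List.cons_append, List.cons.injEq] at e1
        refine ⟨[Sum.inr (Aux.W i)], Or.inl ⟨?_, rfl⟩, ?_⟩
        · rw [e1.1]; exact e2 y (by simp)
        · exact (ih v).2 ⟨G1, G2, e1.2, fun z hz => e2 z (by simp [hz]), e3⟩

/-- the productions of the main symbol -/
lemma der_prods (x : Gm k) (G : List (Gm k))
    (ih : ∀ v : List (Lt k), Steps (seqT G T') [Sum.inr Aux.S] (v.map Sum.inl) ↔ Str G v)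
    (w : List (Lt k)) :
    (∃ y ∈ prods x, Steps (seqT G T') y (w.map Sum.inl)) ↔ Str (x :: G) w := by
  have hTb := seqT_Tb G hT'
  have hsplit : ∀ (u : List (Lt k)) (p q : List (Sg k)), u.map Sum.inl = p ++ q →
      ∃ p' q' : List (Lt k), u = p' ++ q' ∧ p = p'.map Sum.inl ∧ q = q'.map Sum.inl := by
    intro u p q h
    obtain ⟨p', q', h1, h2, h3⟩ := List.map_eq_append_iff.1 h
    exact ⟨p', q', h1, h2.symm, h3.symm⟩
  have hcons : ∀ (u : List (Lt k)) (a : Lt k) (q : List (Sg k)), u.map Sum.inl = Sum.inl a :: q →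
      ∃ q' : List (Lt k), u = a :: q' ∧ q = q'.map Sum.inl := by
    intro u a q h
    cases u with
    | nil => simp at h
    | cons b1 u =>
      simp only [List.map_cons, List.cons.injEq, Sum.inl.injEq] at h
      exact ⟨u, by rw [h.1], h.2.symm⟩
  constructor
  · rintro ⟨y, hy, h⟩
    rcases hy with (rfl | hy) | ⟨i, rfl⟩
    · rw [steps_inl_cons hTb] at h
      obtain ⟨v, hv, h⟩ := h
      obtain ⟨q, rfl, rfl⟩ := hcons _ _ _ hv
      exact Str.cons (X := []) Blk.plain ((ih q).1 h)
    · rw [Set.mem_singleton_iff] at hy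
      subst hy
      rw [steps_inl_cons hTb] at h
      obtain ⟨v, hv, h⟩ := h
      obtain ⟨q, rfl, rfl⟩ := hcons _ _ _ hv
      rw [steps_cons_iff] at h
      obtain ⟨a1, a2, hab, h1, h2⟩ := h
      obtain ⟨p, r, rfl, rfl, rfl⟩ := hsplit _ _ _ hab
      rw [der_D hT'] at h1
      have := List.map_injective_iff.2 Sum.inl_injective h1
      subst this
      exact Str.cons Blk.dunit ((ih r).1 h2)
    · simp only at h
      rw [steps_inl_cons hTb] at h
      obtain ⟨v, hv, h⟩ := h
      obtain ⟨q, rfl, rfl⟩ := hcons _ _ _ hv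
      rw [steps_inl_cons hTb] at h
      obtain ⟨v, hv, h⟩ := h
      obtain ⟨q', rfl, rfl⟩ := hcons _ _ _ hv
      rw [steps_cons_iff] at h
      obtain ⟨a1, a2, hab, h1, h2⟩ := h
      obtain ⟨p, r, rfl, rfl, rfl⟩ := hsplit _ _ _ hab
      rw [der_W hT'] at h1
      obtain ⟨G1, G2, e1, e2, rfl⟩ := h1
      rw [steps_inl_cons hTb] at h2
      obtain ⟨v, hv, h2⟩ := h2
      obtain ⟨q'', rfl, rfl⟩ := hcons _ _ _ hv
      have := Str.cons (x := x) (Blk.skip i G1 G2 e1 e2) ((ih q'').1 h2)
      simpa using this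
  · intro h
    cases h with
    | cons hX hv =>
      rename_i X v
      cases hX with
      | plain =>
        refine ⟨_, Or.inl (Or.inl rfl), ?_⟩
        rw [steps_inl_cons hTb]
        exact ⟨v.map Sum.inl, by simp, (ih v).2 hv⟩
      | dunit =>
        refine ⟨_, Or.inl (Or.inr rfl), ?_⟩
        rw [steps_inl_cons hTb]
        refine ⟨(List.replicate G.length Lt.d).map Sum.inl ++ v.map Sum.inl, by simp, ?_⟩
        rw [steps_cons_iff]
        exact ⟨_, _, rfl, (der_D hT' G _).2 rfl, (ih v).2 hv⟩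
      | skip i G1 G2 e1 e2 =>
        refine ⟨_, Or.inr ⟨i, rfl⟩, ?_⟩
        simp only
        rw [steps_inl_cons hTb]
        refine ⟨Sum.inl (Lt.el i) :: ((comb k G2.length).map Sum.inl ++
          (Sum.inl Lt.b :: v.map Sum.inl)), by simp, ?_⟩
        rw [steps_inl_cons hTb]
        refine ⟨_, rfl, ?_⟩
        rw [steps_cons_iff]
        refine ⟨_, _, rfl, (der_W hT' i G _).2 ⟨G1, G2, e1, e2, rfl⟩, ?_⟩
        rw [steps_inl_cons hTb]
        exact ⟨_, rfl, (ih v).2 hv⟩

lemma der_S (G : List (Gm k)) (v : List (Lt k)) :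
    Steps (seqT G T') [Sum.inr Aux.S] (v.map Sum.inl) ↔ Str G v := by
  induction G generalizing v with
  | nil =>
    show Steps (tabF :: T') _ _ ↔ _
    rw [steps_cons_single]
    simp only [tabF, Set.mem_singleton_iff, exists_eq_left, steps_nil_iff, List.map_eq_nil_iff]
    constructor
    · rintro rfl; exact Str.nil
    · intro h; cases h; rfl
  | cons x G ih =>
    rw [seqT_cons, steps_cons_single]
    exact der_prods hT' x G ih v

lemma der_S0 (G : List (Gm k)) (v : List (Lt k)) :
    Steps (seqT G T') [Sum.inr Aux.S0] (v.map Sum.inl) ↔ (G ≠ [] ∧ Str G v) := by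
  cases G with
  | nil =>
    constructor
    · intro h
      have h' : Steps (tabF :: T') [Sum.inr Aux.S0] (v.map Sum.inl) := h
      rw [steps_cons_single] at h'
      simp only [tabF, Set.mem_singleton_iff, exists_eq_left] at h'
      rw [fix_dead hT'] at h'
      exact absurd h' (map_inl_ne_dead v)
    · rintro ⟨h, _⟩; exact absurd rfl h
  | cons x G =>
    rw [seqT_cons, steps_cons_single]
    have := der_prods hT' x G (fun v => der_S hT' G v) v
    rw [← this]
    simp [tabA]

end Der

/-- every list of tables is a sequence of main tables, or has the form `seqT` -/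
lemma tb_cases {T : List (Sg k → Set (List (Sg k)))} (hT : Tb k T) :
    (∃ G : List (Gm k), T = G.map tabA) ∨ ∃ G T', Tb k T' ∧ T = seqT G T' := by
  induction T with
  | nil => exact Or.inl ⟨[], rfl⟩
  | cons t T ih =>
    have hT1 : Tb k T := fun s hs => hT s (by simp [hs])
    rcases hT t (by simp) with ⟨x, rfl⟩ | h
    · rcases ih hT1 with ⟨G, rfl⟩ | ⟨G, T', h1, rfl⟩
      · exact Or.inl ⟨x :: G, rfl⟩
      · exact Or.inr ⟨x :: G, T', h1, rfl⟩
    · rw [Set.mem_singleton_iff] at h
      exact Or.inr ⟨[], T, hT1, by rw [h]; rfl⟩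

/-- without the final table the main symbol survives -/
lemma no_final (G : List (Gm k)) : ∀ (X : Aux k), (X = Aux.S0 ∨ X = Aux.S) →
    ∀ (z : List (Sg k)), Steps (G.map tabA) [Sum.inr X] z →
      ∃ y : Aux k, Sum.inr y ∈ z := by
  induction G with
  | nil =>
    rintro X _ z h
    have h' : [Sum.inr X] = z := h
    exact ⟨X, by rw [← h']; simp⟩
  | cons x G ih =>
    rintro X hX z h
    rw [List.map_cons, steps_cons_single] at h
    obtain ⟨y, hy, h⟩ := h
    have hy' : y ∈ prods x := by rcases hX with rfl | rfl <;> exact hy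
    obtain ⟨y0, rfl⟩ : ∃ y0, y = y0 ++ [Sum.inr Aux.S] := by
      rcases hy' with (rfl | hy) | ⟨i, rfl⟩
      · exact ⟨[_], rfl⟩
      · rw [Set.mem_singleton_iff] at hy
        exact ⟨[_, _], hy⟩
      · exact ⟨[_, _, _, _], rfl⟩
    obtain ⟨u, v, rfl, _, h2⟩ := h.split
    obtain ⟨y, hy⟩ := ih Aux.S (Or.inr rfl) v h2
    exact ⟨y, by simp [hy]⟩

/-- **`Lk k` is an ETOL language.** -/
theorem isETOL_Lk (k : ℕ) : IsETOL (Lk k) := by
  refine ⟨gram k, ?_⟩
  ext v
  constructor
  · rintro ⟨T, hT, h⟩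
    have h' : Steps T [Sum.inr Aux.S0] (v.map (Sum.inl : Lt k → Sg k)) := h
    rcases tb_cases hT with ⟨G, rfl⟩ | ⟨G, T', hT', rfl⟩
    · obtain ⟨y, hy⟩ := no_final G Aux.S0 (Or.inl rfl) _ h'
      obtain ⟨a, _, h⟩ := List.mem_map.1
        (show (Sum.inr y : Sg k) ∈ List.map (Sum.inl : Lt k → Sg k) v from hy)
      cases h
    · obtain ⟨h1, h2⟩ := (der_S0 hT' G v).1 h'
      exact ⟨G, h1, h2⟩
  · rintro ⟨G, h1, h2⟩
    have hT' : Tb k ([] : List (Sg k → Set (List (Sg k)))) := by intro t ht; simp at ht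
    exact ⟨seqT G [], seqT_Tb G hT', (der_S0 hT' G v).2 ⟨h1, h2⟩⟩

end Pool.Agent.H12E.LangE
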