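import Pool.Agent.H12E.LayoutDefs

/-! Construction of the test word. -/

namespace Pool.Agent.H12E

namespace Lay

/-- parameters -/
structure Par where
  k : ℕ
  n0 : ℕ
  C : ℕ
  C' : ℕ
  L : ℕ
  J : ℕ
  hk : 1 ≤ k
  hn : 2 ≤ n0
  hC : 1 ≤ C
  hC' : 1 ≤ C'
  hL : 100 * 3 ^ C ≤ L

namespace Par

variable (p : Par)

/-- spacing of the sources -/
def S : ℕ := p.L + 4 * 3 ^ p.C + 10
/-- number of codes -/
def M : ℕ := (p.C + 1) * (p.n0 ^ p.k * (p.C' * p.k))
/-- unit of length of the layout -/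
def Lam : ℕ := p.S * (p.M + 3) + p.J + 10
def base (q : ℕ) : ℕ := p.Lam * 4 ^ (q * p.C')
def mrk (q b : ℕ) : ℕ := p.Lam * 4 ^ (q * p.C' + b + 1)
def ev (q : ℕ) : ℕ := p.base q + 1
def pos (q : ℕ) : ℕ := p.base q + p.Lam
/-- number of main letters -/
def N : ℕ := p.Lam * 4 ^ (p.n0 ^ p.k * p.C') + 100
def code (i q2 b a : ℕ) : ℕ := ((i * p.n0 ^ p.k + q2) * p.C' + b) * p.k + a
def src (i q1 q2 b : ℕ) (a : Fin p.k) : ℕ := p.base q1 + p.S * (p.code i q2 b a + 1)
/-- height of a leaf -/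
def height (q : ℕ) : ℕ := Nat.findGreatest (fun g => p.n0 ^ g ∣ q) (p.k - 1)

/-- valid data of a source -/
@[ext] structure SD where
  i : ℕ
  q1 : ℕ
  q2 : ℕ
  b : ℕ
  a : Fin p.k
  hi : 1 ≤ i
  hi' : i ≤ p.C
  h12 : q1 < q2
  h2 : q2 < p.n0 ^ p.k
  hb : b < p.C'
  hab : q1 / p.n0 ^ ((a : ℕ) + 1) = q2 / p.n0 ^ ((a : ℕ) + 1)

variable {p}

def SD.pos (s : SD p) : ℕ := p.src s.i s.q1 s.q2 s.b s.a
def SD.InWin (s : SD p) (x : ℕ) : Prop := s.pos ≤ x + 3 ^ s.i ∧ x ≤ s.pos + 3 ^ s.i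

theorem Lam_pos : 0 < p.Lam := by unfold Lam; omega

theorem S_ge : p.L + 4 * 3 ^ p.C + 10 ≤ p.S := le_rfl

theorem Lam_le_base (q : ℕ) : p.Lam ≤ p.base q := by
  unfold base
  exact Nat.le_mul_of_pos_right _ (by positivity)

theorem base_mono {q q' : ℕ} (h : q ≤ q') : p.base q ≤ p.base q' := by
  unfold base
  exact Nat.mul_le_mul_left _ (Nat.pow_le_pow_right (by norm_num) (Nat.mul_le_mul_right _ h))

theorem base_lt {q q' : ℕ} (h : q < q') : 4 * p.base q ≤ p.base q' := by
  have h1 : q * p.C' + 1 ≤ q' * p.C' := by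
    have := Nat.mul_le_mul_right p.C' (Nat.succ_le_of_lt h)
    have h2 := p.hC'
    rw [Nat.succ_mul] at this
    omega
  unfold base
  calc 4 * (p.Lam * 4 ^ (q * p.C')) = p.Lam * 4 ^ (q * p.C' + 1) := by ring
    _ ≤ p.Lam * 4 ^ (q' * p.C') :=
      Nat.mul_le_mul_left _ (Nat.pow_le_pow_right (by norm_num) h1)

theorem mrk_ge_base (q b : ℕ) : 4 * p.base q ≤ p.mrk q b := by
  unfold base mrk
  calc 4 * (p.Lam * 4 ^ (q * p.C')) = p.Lam * 4 ^ (q * p.C' + 1) := by ring
    _ ≤ _ := Nat.mul_le_mul_left _ (Nat.pow_le_pow_right (by norm_num) (by omega))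

theorem mrk_le_base {q b : ℕ} (hb : b < p.C') : p.mrk q b ≤ p.base (q + 1) := by
  unfold base mrk
  refine Nat.mul_le_mul_left _ (Nat.pow_le_pow_right (by norm_num) ?_)
  rw [Nat.succ_mul]
  omega

theorem mrk_lt_N {q b : ℕ} (hq : q < p.n0 ^ p.k) (hb : b < p.C') : p.mrk q b + 100 ≤ p.N := by
  have h1 := mrk_le_base (p := p) (q := q) hb
  have h2 : p.base (q + 1) ≤ p.base (p.n0 ^ p.k) := base_mono hq
  unfold N
  have h3 : p.base (p.n0 ^ p.k) = p.Lam * 4 ^ (p.n0 ^ p.k * p.C') := rfl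
  omega

theorem mul_add_inj {k x y a b : ℕ} (ha : a < k) (hb : b < k) (h : x * k + a = y * k + b) :
    x = y ∧ a = b := by
  have hk : 0 < k := by omega
  have h1 : (x * k + a) / k = x := by
    rw [Nat.mul_comm, Nat.mul_add_div hk, Nat.div_eq_of_lt ha]; rfl
  have h2 : (y * k + b) / k = y := by
    rw [Nat.mul_comm, Nat.mul_add_div hk, Nat.div_eq_of_lt hb]; rfl
  have h3 : x = y := by rw [← h1, ← h2, h]
  subst h3
  exact ⟨rfl, by omega⟩

theorem mul_add_lt {k x y a : ℕ} (ha : a < k) (h : x < y) : x * k + a < y * k := by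
  have := Nat.mul_le_mul_right k (Nat.succ_le_of_lt h)
  rw [Nat.succ_mul] at this
  omega

theorem SD.code_lt (s : SD p) : p.code s.i s.q2 s.b s.a < p.M := by
  unfold code M
  have e : (p.C + 1) * (p.n0 ^ p.k * (p.C' * p.k)) = ((p.C + 1) * p.n0 ^ p.k * p.C') * p.k := by
    ring
  rw [e]
  exact mul_add_lt s.a.2 (mul_add_lt s.hb (mul_add_lt s.h2 (Nat.lt_succ_of_le s.hi')))

theorem S_pos : 0 < p.S := by unfold S; omega

theorem pow_le (s : SD p) : 3 ^ s.i ≤ 3 ^ p.C := Nat.pow_le_pow_right (by norm_num) s.hi'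

theorem pow_ge (s : SD p) : 1 ≤ 3 ^ s.i := Nat.one_le_pow _ _ (by norm_num)

theorem Lam_ge : p.S * (p.M + 3) + 10 ≤ p.Lam := by unfold Lam; omega

theorem SD.pos_le (s : SD p) : s.pos + 2 * p.S + 10 ≤ p.base s.q1 + p.Lam := by
  have h1 := s.code_lt
  have h2 : p.S * (p.code s.i s.q2 s.b s.a + 1) ≤ p.S * p.M := Nat.mul_le_mul_left _ h1
  have h3 := Lam_ge (p := p)
  have h4 : p.S * (p.M + 3) = p.S * p.M + 3 * p.S := by ring
  have h5 : s.pos = p.base s.q1 + p.S * (p.code s.i s.q2 s.b s.a + 1) := rfl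
  omega

theorem SD.pos_ge (s : SD p) : p.base s.q1 + p.S ≤ s.pos := by
  have h5 : s.pos = p.base s.q1 + p.S * (p.code s.i s.q2 s.b s.a + 1) := rfl
  rw [h5, Nat.mul_succ]
  omega

theorem SD.sep {s t : SD p} (h : s ≠ t) : s.pos + p.S ≤ t.pos ∨ t.pos + p.S ≤ s.pos := by
  have aux : ∀ s t : SD p, s.q1 < t.q1 → s.pos + p.S ≤ t.pos := by
    intro s t hst
    have h1 := s.pos_le
    have h2 := t.pos_ge
    have h3 := base_lt (p := p) hst
    have h4 := Lam_le_base (p := p) s.q1
    omega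
  rcases lt_trichotomy s.q1 t.q1 with h1 | h1 | h1
  · exact Or.inl (aux s t h1)
  · have hc : p.code s.i s.q2 s.b s.a ≠ p.code t.i t.q2 t.b t.a := by
      intro hc
      apply h
      unfold code at hc
      obtain ⟨h2, h3⟩ := mul_add_inj s.a.2 t.a.2 hc
      obtain ⟨h4, h5⟩ := mul_add_inj s.hb t.hb h2
      obtain ⟨h6, h7⟩ := mul_add_inj s.h2 t.h2 h4
      exact SD.ext h6 h1 h7 h5 (Fin.ext h3)
    have e1 : s.pos = p.base s.q1 + p.S * (p.code s.i s.q2 s.b s.a + 1) := rfl
    have e2 : t.pos = p.base t.q1 + p.S * (p.code t.i t.q2 t.b t.a + 1) := rfl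
    rw [← h1] at e2
    rcases Nat.lt_or_gt_of_ne hc with h2 | h2
    · left
      have h3 : p.S * (p.code s.i s.q2 s.b s.a + 1 + 1) ≤ p.S * (p.code t.i t.q2 t.b t.a + 1) :=
        Nat.mul_le_mul_left _ (by omega)
      rw [Nat.mul_succ] at h3
      omega
    · right
      have h3 : p.S * (p.code t.i t.q2 t.b t.a + 1 + 1) ≤ p.S * (p.code s.i s.q2 s.b s.a + 1) :=
        Nat.mul_le_mul_left _ (by omega)
      rw [Nat.mul_succ] at h3
      omega
  · exact Or.inr (aux t s h1)

theorem SD.eq_of_close {s t : SD p} (h1 : s.pos ≤ t.pos + 2 * 3 ^ p.C + 1)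
    (h2 : t.pos ≤ s.pos + 2 * 3 ^ p.C + 1) : s = t := by
  by_contra h
  have h3 := S_ge (p := p)
  have h4 : 0 < 3 ^ p.C := by positivity
  rcases SD.sep h with h | h <;> omega

open Classical in
/-- the block after the main letter at position `x` -/
noncomputable def X (p : Par) (x : ℕ) : List (Lt p.k) :=
  if h : ∃ s : SD p, s.pos = x then
    Lt.el h.choose.a :: (comb p.k (p.N - 1 - p.mrk h.choose.q2 h.choose.b) ++ [Lt.b])
  else if ∃ s : SD p, s.InWin x then [] else List.replicate (p.N - 1 - x) Lt.d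

theorem X_src (s : SD p) :
    X p s.pos = Lt.el s.a :: (comb p.k (p.N - 1 - p.mrk s.q2 s.b) ++ [Lt.b]) := by
  have h : ∃ t : SD p, t.pos = s.pos := ⟨s, rfl⟩
  have h1 : h.choose = s := by
    have := h.choose_spec
    exact SD.eq_of_close (by omega) (by omega)
  unfold X
  rw [dif_pos h, h1]

theorem X_plain {s : SD p} {x : ℕ} (h : s.InWin x) (hx : x ≠ s.pos) : X p x = [] := by
  unfold X
  rw [dif_neg, if_pos ⟨s, h⟩]
  rintro ⟨t, ht⟩
  have h1 := pow_le s
  have : t = s := SD.eq_of_close (by have := h.1; have := h.2; omega)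
    (by have := h.1; have := h.2; omega)
  subst this
  exact hx ht.symm

theorem X_d {x : ℕ} (h : ∀ s : SD p, ¬ s.InWin x) : X p x = List.replicate (p.N - 1 - x) Lt.d := by
  unfold X
  rw [dif_neg, if_neg]
  · rintro ⟨s, hs⟩; exact h s hs
  · rintro ⟨s, hs⟩
    exact h s ⟨by rw [hs]; exact Nat.le_add_right _ _, by rw [hs]; exact Nat.le_add_right _ _⟩

theorem X_cases (x : ℕ) : (∃ s : SD p, s.pos = x) ∨ X p x = [] ∨
    X p x = List.replicate (p.N - 1 - x) Lt.d := by
  by_cases h : ∃ s : SD p, s.pos = x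
  · exact Or.inl h
  · right
    unfold X
    rw [dif_neg h]
    split_ifs
    · exact Or.inl rfl
    · exact Or.inr rfl

open Classical in
/-- the main letter at position `x` -/
noncomputable def E (p : Par) (x : ℕ) : Gm p.k :=
  if ∃ q b, q < p.n0 ^ p.k ∧ b < p.C' ∧ x = p.mrk q b then Gm.m
  else if h : ∃ q, 0 < q ∧ q < p.n0 ^ p.k ∧ x = p.ev q then
    Gm.e ⟨p.height h.choose, by
      have h1 := p.hk
      have h2 : p.height h.choose ≤ p.k - 1 := Nat.findGreatest_le _
      omega⟩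
  else Gm.o

theorem E_mrk {q b : ℕ} (hq : q < p.n0 ^ p.k) (hb : b < p.C') : E p (p.mrk q b) = Gm.m := by
  unfold E
  rw [if_pos ⟨q, b, hq, hb, rfl⟩]

theorem E_eq_m {x : ℕ} (h : E p x = Gm.m) : ∃ r, x = p.Lam * 4 ^ r := by
  unfold E at h
  split_ifs at h with h1
  obtain ⟨q, b, -, -, rfl⟩ := h1
  exact ⟨q * p.C' + b + 1, rfl⟩

theorem ev_inj {q q' : ℕ} (h : p.ev q = p.ev q') : q = q' := by
  unfold ev at h
  have h0 := Lam_pos (p := p)
  rcases lt_trichotomy q q' with h1 | h1 | h1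
  · have := base_lt (p := p) h1
    have := Lam_le_base (p := p) q
    omega
  · exact h1
  · have := base_lt (p := p) h1
    have := Lam_le_base (p := p) q'
    omega

theorem ev_ne_mrk (q q' b : ℕ) : p.ev q ≠ p.mrk q' b := by
  intro h
  have h1 : p.Lam ∣ p.mrk q' b := Dvd.intro _ rfl
  have h2 : p.Lam ∣ p.base q := Dvd.intro _ rfl
  rw [← h] at h1
  unfold ev at h1
  have h3 : p.Lam ∣ 1 := (Nat.dvd_add_right h2).mp h1
  have h4 := Nat.le_of_dvd one_pos h3
  unfold Lam at h4
  omega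

theorem E_ev {q : ℕ} (h0 : 0 < q) (hq : q < p.n0 ^ p.k) :
    ∃ h : p.height q < p.k, E p (p.ev q) = Gm.e ⟨p.height q, h⟩ := by
  have hk := p.hk
  have hh : p.height q ≤ p.k - 1 := Nat.findGreatest_le _
  refine ⟨by omega, ?_⟩
  have hex : ∃ q', 0 < q' ∧ q' < p.n0 ^ p.k ∧ p.ev q = p.ev q' := ⟨q, h0, hq, rfl⟩
  have h1 : hex.choose = q := (ev_inj hex.choose_spec.2.2).symm
  unfold E
  rw [if_neg, dif_pos hex]
  · simp only [h1]
  · rintro ⟨q', b, -, -, h⟩
    exact ev_ne_mrk _ _ _ h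

theorem E_kills {x : ℕ} {a : Fin p.k} (h : Gm.kills a (E p x)) :
    ∃ q, 0 < q ∧ q < p.n0 ^ p.k ∧ x = p.ev q ∧ (a : ℕ) < p.height q := by
  unfold E at h
  split_ifs at h with h1 h2
  · exact absurd h (by simp [Gm.kills])
  · refine ⟨h2.choose, h2.choose_spec.1, h2.choose_spec.2.1, h2.choose_spec.2.2, ?_⟩
    exact Fin.lt_def.mp h
  · exact absurd h (by simp [Gm.kills])

theorem height_dvd {q : ℕ} {a : ℕ} (h : a < p.height q) : p.n0 ^ (a + 1) ∣ q := by
  have h1 : p.n0 ^ (p.height q) ∣ q := by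
    have := Nat.findGreatest_spec (P := fun g => p.n0 ^ g ∣ q) (n := p.k - 1) (m := 0)
      (Nat.zero_le _) (by simp)
    exact this
  exact (Nat.pow_dvd_pow _ h).trans h1

theorem lt_height {q : ℕ} {a : ℕ} (ha : a + 1 < p.k) (h : p.n0 ^ (a + 1) ∣ q) :
    a < p.height q := by
  have : a + 1 ≤ p.height q :=
    Nat.le_findGreatest (P := fun g => p.n0 ^ g ∣ q) (by omega) h
  omega

/-- the word of the positions `a, ..., a + m - 1` -/
noncomputable def W (p : Par) (a m : ℕ) : List (Lt p.k) :=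
  (List.range' a m).flatMap (fun x => Lt.mn (E p x) :: X p x)

theorem W_zero (a : ℕ) : W p a 0 = [] := rfl

theorem W_succ (a m : ℕ) : W p a (m + 1) = Lt.mn (E p a) :: (X p a ++ W p (a + 1) m) := by
  unfold W
  rw [List.range'_succ]
  simp

theorem W_add (a m n : ℕ) : W p a (m + n) = W p a m ++ W p (a + m) n := by
  induction m generalizing a with
  | zero => simp [W_zero]
  | succ m ih =>
    rw [Nat.add_right_comm, W_succ, W_succ, ih]
    have : a + 1 + m = a + (m + 1) := by omega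
    rw [this]
    simp

theorem mu_X (x : ℕ) : mu (X p x) = [] := by
  rcases X_cases (p := p) x with ⟨s, rfl⟩ | h | h
  · rw [X_src]
    have h1 : ∀ n, mu (comb p.k n) = [] := by
      intro n
      induction n with
      | zero => rfl
      | succ n ih =>
        have : mu (List.replicate n (Lt.d' : Lt p.k)) = [] := by
          simp [mu, List.filterMap_replicate, toG]
        simp [comb, ih, this]
    simp [h1]
  · rw [h]; rfl
  · rw [h]
    simp [mu, List.filterMap_replicate, toG]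

theorem mu_W (a m : ℕ) : mu (W p a m) = (List.range' a m).map (E p) := by
  induction m generalizing a with
  | zero => rfl
  | succ m ih => rw [W_succ, mu_mn, mu_append, mu_X, ih, List.range'_succ]; rfl

theorem W_plain (a m : ℕ) (h : ∀ x, a ≤ x → x < a + m → X p x = []) :
    W p a m = ((List.range' a m).map (E p)).map Lt.mn := by
  induction m generalizing a with
  | zero => rfl
  | succ m ih =>
    rw [W_succ, h a le_rfl (by omega), ih (a + 1) (fun x h1 h2 => h x (by omega) (by omega)),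
      List.range'_succ]
    rfl

theorem mrk_pos_lt (s : SD p) : s.pos < p.mrk s.q2 s.b := by
  have h1 := s.pos_le
  have h2 := base_lt (p := p) s.h12
  have h3 := mrk_ge_base (p := p) s.q2 s.b
  have h4 := Lam_le_base (p := p) s.q1
  have h5 := Lam_pos (p := p)
  omega

theorem no_kill (s : SD p) {x : ℕ} (h1 : s.pos < x) (h2 : x < p.mrk s.q2 s.b) :
    ¬ Gm.kills s.a (E p x) := by
  intro h
  obtain ⟨q, hq0, hq, rfl, ha⟩ := E_kills h
  have hd := height_dvd ha
  have hlt : s.q1 < q := by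
    by_contra hcon
    have h3 := base_mono (p := p) (not_lt.mp hcon)
    have h4 := s.pos_ge
    have h5 := S_ge (p := p)
    unfold ev at h1
    omega
  have hle : q ≤ s.q2 := by
    by_contra hcon
    have h3 : p.base (s.q2 + 1) ≤ p.base q := base_mono (by omega)
    have h4 := mrk_le_base (p := p) (q := s.q2) s.hb
    unfold ev at h2
    omega
  have hn : 0 < p.n0 ^ ((s.a : ℕ) + 1) := Nat.pow_pos (by have := p.hn; omega)
  obtain ⟨t, ht⟩ := hd
  have h6 : s.q1 / p.n0 ^ ((s.a : ℕ) + 1) < t := by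
    rw [Nat.div_lt_iff_lt_mul hn]
    rw [ht, Nat.mul_comm] at hlt
    exact hlt
  have h7 : t ≤ s.q2 / p.n0 ^ ((s.a : ℕ) + 1) := by
    rw [Nat.le_div_iff_mul_le hn]
    rw [ht, Nat.mul_comm] at hle
    exact hle
  have := s.hab
  omega

theorem blk_X {a m : ℕ} (h : a + 1 + m = p.N) : Blk ((List.range' (a + 1) m).map (E p)) (X p a) := by
  rcases X_cases (p := p) a with ⟨s, rfl⟩ | hX | hX
  · rw [X_src]
    set t := p.mrk s.q2 s.b with ht
    have h1 : s.pos < t := mrk_pos_lt s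
    have h2 : t + 100 ≤ p.N := mrk_lt_N s.h2 s.hb
    obtain ⟨u, hu⟩ : ∃ u, t = s.pos + 1 + u := ⟨t - s.pos - 1, by omega⟩
    obtain ⟨v, hv⟩ : ∃ v, p.N = t + 1 + v := ⟨p.N - t - 1, by omega⟩
    have hm : m = u + (1 + v) := by omega
    have hsplit : (List.range' (s.pos + 1) m).map (E p) =
        (List.range' (s.pos + 1) u).map (E p) ++ Gm.m :: (List.range' (t + 1) v).map (E p) := by
      rw [hm, ← List.range'_append_1, List.map_append, ← hu, Nat.add_comm 1 v, List.range'_succ,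
        List.map_cons, E_mrk s.h2 s.hb]
    have hlen : p.N - 1 - t = ((List.range' (t + 1) v).map (E p)).length := by
      simp; omega
    rw [hlen]
    refine Blk.skip s.a _ _ hsplit ?_
    intro x hx
    rw [List.mem_map] at hx
    obtain ⟨y, hy, rfl⟩ := hx
    rw [List.mem_range'_1] at hy
    exact no_kill s (by omega) (by omega)
  · rw [hX]; exact Blk.plain
  · rw [hX]
    have hlen : p.N - 1 - a = ((List.range' (a + 1) m).map (E p)).length := by
      simp; omega
    rw [hlen]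
    exact Blk.dunit

theorem str_W (m : ℕ) : ∀ a, a + m = p.N → Str ((List.range' a m).map (E p)) (W p a m) := by
  induction m with
  | zero => intro a _; exact Str.nil
  | succ m ih =>
    intro a h
    rw [W_succ, List.range'_succ, List.map_cons]
    exact Str.cons (blk_X (by omega)) (ih (a + 1) (by omega))

theorem X_sep_le (x : ℕ) : (sep (X p x)).length ≤ 2 := by
  have hc : ∀ n, sep (comb p.k n) = [] := by
    intro n
    induction n with
    | zero => rfl
    | succ n ih =>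
      have : sep (List.replicate n (Lt.d' : Lt p.k)) = [] := by
        simp [sep, isSep]
      simp [comb, sep_cons, isSep, ih, this]
  rcases X_cases (p := p) x with ⟨s, rfl⟩ | h | h
  · rw [X_src]
    simp [sep_cons, hc, isSep]
  · rw [h]; simp
  · rw [h]
    simp [sep, isSep]

theorem W_sep_le (a m : ℕ) : (sep (W p a m)).length ≤ 3 * m := by
  induction m generalizing a with
  | zero => simp [W_zero]
  | succ m ih =>
    rw [W_succ, sep_cons, sep_append]
    have h1 := X_sep_le (p := p) a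
    have h2 := ih (a + 1)
    simp only [isSep, if_true, List.length_cons, List.length_append]
    omega

/-- among `2 * 3 ^ C + 2` consecutive positions there is a position of a `d`-unit -/
theorem exists_dpos (a : ℕ) : ∃ x, a ≤ x ∧ x < a + (2 * 3 ^ p.C + 2) ∧
    ∀ s : SD p, ¬ s.InWin x := by
  by_contra hcon
  push Not at hcon
  obtain ⟨s, hs⟩ := hcon a le_rfl (by omega)
  have h1 := pow_le s
  have hs1 := hs.1
  have hs2 := hs.2
  obtain ⟨t, ht⟩ := hcon (s.pos + 3 ^ s.i + 1) (by omega) (by omega)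
  have h2 := pow_le t
  have ht1 := ht.1
  have ht2 := ht.2
  have hst : s = t := SD.eq_of_close (by omega) (by omega)
  subst hst
  omega

/-- a factor of `W` decomposes -/
theorem W_suffix (m : ℕ) : ∀ (a : ℕ) (P R : List (Lt p.k)), W p a m = P ++ R →
    ∃ (j : ℕ) (s : List (Lt p.k)), j ≤ m ∧ (sep s).length ≤ 3 ∧ R = s ++ W p (a + j) (m - j) := by
  induction m with
  | zero =>
    intro a P R h
    rw [W_zero] at h
    obtain ⟨rfl, rfl⟩ := List.append_eq_nil_iff.mp h.symm
    exact ⟨0, [], le_rfl, by simp, rfl⟩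
  | succ m ih =>
    intro a P R h
    rw [W_succ, ← List.cons_append] at h
    rcases List.append_eq_append_iff.mp h with ⟨P', h1, h2⟩ | ⟨R', h1, h2⟩
    · obtain ⟨j, s, hj, hs, hR⟩ := ih (a + 1) P' R h2
      refine ⟨j + 1, s, by omega, hs, ?_⟩
      have e1 : a + (j + 1) = a + 1 + j := by omega
      have e2 : m + 1 - (j + 1) = m - j := by omega
      rw [e1, e2]; exact hR
    · refine ⟨1, R', by omega, ?_, by simpa using h2⟩
      have h3 : (sep (Lt.mn (E p a) :: X p a)).length ≤ 3 := by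
        rw [sep_cons]
        have := X_sep_le (p := p) a
        simp only [isSep, if_true, List.length_cons]
        omega
      rw [h1, sep_append, List.length_append] at h3
      omega

theorem W_prefix (m : ℕ) : ∀ (a : ℕ) (O Q : List (Lt p.k)), W p a m = O ++ Q →
    ∃ (j : ℕ) (t : List (Lt p.k)), j ≤ m ∧ (sep t).length ≤ 3 ∧ O = W p a j ++ t := by
  induction m with
  | zero =>
    intro a O Q h
    rw [W_zero] at h
    obtain ⟨rfl, rfl⟩ := List.append_eq_nil_iff.mp h.symm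
    exact ⟨0, [], le_rfl, by simp, rfl⟩
  | succ m ih =>
    intro a O Q h
    rw [W_succ, ← List.cons_append] at h
    rcases List.append_eq_append_iff.mp h with ⟨O', h1, h2⟩ | ⟨Q', h1, h2⟩
    · obtain ⟨j, t, hj, ht, hO⟩ := ih (a + 1) O' Q h2
      refine ⟨j + 1, t, by omega, ht, ?_⟩
      rw [h1, hO, W_succ]
      simp
    · refine ⟨0, O, by omega, ?_, by simp [W_zero]⟩
      have h3 : (sep (Lt.mn (E p a) :: X p a)).length ≤ 3 := by
        rw [sep_cons]
        have := X_sep_le (p := p) a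
        simp only [isSep, if_true, List.length_cons]
        omega
      rw [h1, sep_append, List.length_append] at h3
      omega

theorem big_W (P O Q : List (Lt p.k)) (h : W p 0 p.N = P ++ O ++ Q) (hO : p.L < (sep O).length) :
    ∃ o1 x y x' o2, 1 ≤ y ∧ O = o1 ++ Lt.mn x :: (List.replicate y Lt.d ++ Lt.mn x' :: o2) := by
  rw [List.append_assoc] at h
  obtain ⟨j, s, hj, hs, hR⟩ := W_suffix _ _ _ _ h
  have hL := p.hL
  have h3C : 1 ≤ 3 ^ p.C := Nat.one_le_pow _ _ (by norm_num)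
  rcases List.append_eq_append_iff.mp hR with ⟨s', h1, h2⟩ | ⟨O', h1, h2⟩
  · -- `O` is a prefix of `s`
    rw [h1, sep_append, List.length_append] at hs
    omega
  · obtain ⟨m, t, hm, ht, hO'⟩ := W_prefix _ _ _ _ h2
    rw [h1, hO', sep_append, sep_append, List.length_append, List.length_append] at hO
    have h4 := W_sep_le (p := p) (0 + j) m
    have h5 : 2 * 3 ^ p.C + 3 ≤ m := by omega
    obtain ⟨x, hx1, hx2, hx3⟩ := exists_dpos (p := p) (0 + j)
    obtain ⟨u, hu⟩ : ∃ u, x = 0 + j + u := ⟨x - (0 + j), by omega⟩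
    obtain ⟨v, hv⟩ : ∃ v, m = u + (v + 1 + 1) := ⟨m - u - 2, by omega⟩
    have e : W p (0 + j) m = W p (0 + j) u ++ Lt.mn (E p x) ::
        (List.replicate (p.N - 1 - x) Lt.d ++ Lt.mn (E p (x + 1)) ::
          (X p (x + 1) ++ W p (x + 1 + 1) v)) := by
      rw [hv, W_add, ← hu, W_succ, W_succ, X_d hx3]
    refine ⟨s ++ W p (0 + j) u, E p x, p.N - 1 - x, E p (x + 1),
      (X p (x + 1) ++ W p (x + 1 + 1) v) ++ t, by omega, ?_⟩
    rw [h1, hO', e]
    simp

theorem not_inWin_left (s : SD p) {x : ℕ} (h : x + 3 ^ s.i + 1 = s.pos) (t : SD p) :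
    ¬ t.InWin x := by
  intro ht
  have h1 := ht.1
  have h2 := ht.2
  have h3 := pow_le s
  have h4 := pow_le t
  have h5 := pow_ge s
  have h6 := pow_ge t
  have : s = t := SD.eq_of_close (by omega) (by omega)
  subst this
  omega

theorem not_inWin_right (s : SD p) (t : SD p) : ¬ t.InWin (s.pos + 3 ^ s.i + 1) := by
  intro ht
  have h1 := ht.1
  have h2 := ht.2
  have h3 := pow_le s
  have h4 := pow_le t
  have h5 := pow_ge s
  have h6 := pow_ge t
  have : s = t := SD.eq_of_close (by omega) (by omega)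
  subst this
  omega

theorem srcAt_W (s : SD p) : ∃ P1 x0 y1 G1 G2 y2 x1 Q1, SrcAt p.k (W p 0 p.N) s.i s.a s.pos
    (p.N - 1 - p.mrk s.q2 s.b) P1 x0 y1 G1 G2 y2 x1 Q1 := by
  have h1 := s.pos_ge
  have h2 := S_ge (p := p)
  have h3 := pow_le s
  have h4 := mrk_pos_lt s
  have h5 := mrk_lt_N s.h2 s.hb
  have h6 := s.pos_le
  have h7 := base_lt (p := p) s.h12
  have h8 := mrk_ge_base (p := p) s.q2 s.b
  have h9 := Lam_le_base (p := p) s.q1
  have h10 := pow_ge s
  set g := 3 ^ s.i with hg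
  obtain ⟨u, hu⟩ : ∃ u, s.pos = u + (g + 1) := ⟨s.pos - (g + 1), by omega⟩
  obtain ⟨v, hv⟩ : ∃ v, p.N = s.pos + 1 + g + 1 + 1 + v := ⟨p.N - (s.pos + 1 + g + 1 + 1), by omega⟩
  -- the splitting
  have e1 : W p 0 p.N = W p 0 u ++ (Lt.mn (E p u) :: (X p u ++ (W p (u + 1) g ++
      (Lt.mn (E p s.pos) :: (X p s.pos ++ (W p (s.pos + 1) g ++
        (Lt.mn (E p (s.pos + 1 + g)) :: (X p (s.pos + 1 + g) ++
          (Lt.mn (E p (s.pos + 1 + g + 1)) :: (X p (s.pos + 1 + g + 1) ++
            W p (s.pos + 1 + g + 1 + 1) v)))))))))) := by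
    have hN : p.N = u + ((g + ((g + (v + 1 + 1)) + 1)) + 1) := by omega
    rw [hN, W_add, Nat.zero_add, W_succ, W_add]
    have : u + 1 + g = s.pos := by omega
    rw [this, W_succ, W_add, W_succ, W_succ]
  have hp1 : W p (u + 1) g = ((List.range' (u + 1) g).map (E p)).map Lt.mn := by
    apply W_plain
    intro x hx1 hx2
    exact X_plain (s := s) ⟨by omega, by omega⟩ (by omega)
  have hp2 : W p (s.pos + 1) g = ((List.range' (s.pos + 1) g).map (E p)).map Lt.mn := by
    apply W_plain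
    intro x hx1 hx2
    exact X_plain (s := s) ⟨by omega, by omega⟩ (by omega)
  have hd1 : X p u = List.replicate (p.N - 1 - u) Lt.d :=
    X_d (not_inWin_left s (by omega))
  have hd2 : X p (s.pos + 1 + g) = List.replicate (p.N - 1 - (s.pos + 1 + g)) Lt.d := by
    apply X_d
    have e : s.pos + 1 + g = s.pos + 3 ^ s.i + 1 := by omega
    rw [e]
    exact not_inWin_right s
  refine ⟨W p 0 u, E p u, p.N - 1 - u, (List.range' (u + 1) g).map (E p) ++ [E p s.pos],
    (List.range' (s.pos + 1) g).map (E p) ++ [E p (s.pos + 1 + g)],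
    p.N - 1 - (s.pos + 1 + g), E p (s.pos + 1 + g + 1),
    X p (s.pos + 1 + g + 1) ++ W p (s.pos + 1 + g + 1 + 1) v, ?_, by omega, by omega,
    by simp [hg], by simp [hg], ?_⟩
  · rw [e1, hp1, hp2, hd1, hd2, X_src]
    simp
  · rw [mu_W]
    simp
    omega

theorem src_mem (i q1 q2 b : ℕ) (a : Fin p.k) (hi : 1 ≤ i) (hi' : i ≤ p.C) (h12 : q1 < q2)
    (h2 : q2 < p.n0 ^ p.k) (hb : b < p.C')
    (hab : q1 / p.n0 ^ ((a : ℕ) + 1) = q2 / p.n0 ^ ((a : ℕ) + 1)) :
    ∃ s : SD p, s.i = i ∧ s.q1 = q1 ∧ s.q2 = q2 ∧ s.b = b ∧ s.a = a ∧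
      s.pos = p.src i q1 q2 b a :=
  ⟨⟨i, q1, q2, b, a, hi, hi', h12, h2, hb, hab⟩, rfl, rfl, rfl, rfl, rfl, rfl⟩

theorem pow4_sidon {a b c d : ℕ} (h1 : a < b) (h2 : 4 ^ b + 4 ^ c = 4 ^ a + 4 ^ d) : a = c := by
  have hab : 4 * 4 ^ a ≤ 4 ^ b := by
    rw [← pow_succ']
    exact Nat.pow_le_pow_right (by norm_num) h1
  have ha : 0 < 4 ^ a := by positivity
  have hc : 0 < 4 ^ c := by positivity
  have hcd : c < d := by
    by_contra hcon
    have : 4 ^ d ≤ 4 ^ c := Nat.pow_le_pow_right (by norm_num) (not_lt.mp hcon)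
    omega
  have hcd' : 4 * 4 ^ c ≤ 4 ^ d := by
    rw [← pow_succ']
    exact Nat.pow_le_pow_right (by norm_num) hcd
  have hbd : b = d := by
    rcases lt_trichotomy b d with h | h | h
    · have : 4 * 4 ^ b ≤ 4 ^ d := by
        rw [← pow_succ']
        exact Nat.pow_le_pow_right (by norm_num) h
      omega
    · exact h
    · have : 4 * 4 ^ d ≤ 4 ^ b := by
        rw [← pow_succ']
        exact Nat.pow_le_pow_right (by norm_num) h
      omega
  subst hbd
  have : 4 ^ a = 4 ^ c := by omega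
  exact Nat.pow_right_injective (le_refl 2 |>.trans (by norm_num)) this

/-- the layout -/
noncomputable def layout (p : Par) : Layout p.k p.n0 p.C p.C' p.L p.J where
  w := W p 0 p.N
  hw := ⟨(List.range' 0 p.N).map (E p), by
    have : p.N ≠ 0 := by unfold N; omega
    simpa using this, str_W p.N 0 (by omega)⟩
  big := big_W
  head := by
    have hN : ∃ m, p.N = m + 1 + 1 := ⟨p.N - 2, by unfold N; omega⟩
    obtain ⟨m, hm⟩ := hN
    have h0 : X p 0 = List.replicate (p.N - 1 - 0) Lt.d := by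
      apply X_d
      intro s hs
      have h1 := hs.1
      have h2 := s.pos_ge
      have h3 := S_ge (p := p)
      have h4 := pow_le s
      have h5 := Lam_pos (p := p)
      have h6 := Lam_le_base (p := p) s.q1
      omega
    refine ⟨E p 0, p.N - 1 - 0, E p 1, X p 1 ++ W p (1 + 1) m, by omega, ?_⟩
    rw [← h0, hm, W_succ, W_succ]
  pos := p.pos
  ev := p.ev
  mrk := p.mrk
  src := p.src
  pos_zero := by
    have h := Lam_le_base (p := p) 0
    unfold pos
    have : p.J < p.Lam := by unfold Lam; omega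
    omega
  ev_lt_pos := by
    intro q _
    unfold ev pos
    have := Lam_ge (p := p)
    omega
  pos_lt_mk := by
    intro q _ b _
    have h1 := mrk_ge_base (p := p) q b
    have h2 := Lam_le_base (p := p) q
    have : p.J < p.Lam := by unfold Lam; omega
    unfold pos
    omega
  mk_lt_ev := by
    intro q _ b hb
    have h1 := mrk_le_base (p := p) (q := q) hb
    unfold ev
    omega
  mk_inj := by
    intro q _ b _ b' _ h
    unfold mrk at h
    have h1 := Nat.eq_of_mul_eq_mul_left (Lam_pos (p := p)) h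
    have h2 := Nat.pow_right_injective (le_refl 2 |>.trans (by norm_num)) h1
    omega
  mk_mark := by
    intro q hq b hb
    have h1 := mrk_lt_N (p := p) hq hb
    rw [mu_W, List.getElem?_map, List.getElem?_range' (by omega)]
    simp [E_mrk hq hb]
  mk_small := by
    intro q hq b hb
    have h1 := mrk_lt_N (p := p) hq hb
    rw [mu_W]
    simp
    omega
  sidon := by
    have key : ∀ t, (mu (W p 0 p.N))[t]? = some Gm.m → ∃ r, t = p.Lam * 4 ^ r := by
      intro t ht
      rw [mu_W, List.getElem?_map] at ht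
      rcases lt_or_ge t p.N with h | h
      · rw [List.getElem?_range' h] at ht
        simp only [Option.map_some, Option.some.injEq, one_mul, zero_add] at ht
        exact E_eq_m ht
      · rw [List.getElem?_eq_none (by simpa using h)] at ht
        simp at ht
    intro t1 t2 t3 t4 h1 h2 h3 h4 h12 hs
    obtain ⟨a, rfl⟩ := key _ h1
    obtain ⟨b, rfl⟩ := key _ h2
    obtain ⟨c, rfl⟩ := key _ h3
    obtain ⟨d, rfl⟩ := key _ h4
    have hL := Lam_pos (p := p)
    rw [← Nat.mul_add, ← Nat.mul_add] at hs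
    have hs' := Nat.eq_of_mul_eq_mul_left hL hs
    have hab : a < b := by
      have := Nat.lt_of_mul_lt_mul_left h12
      exact (Nat.pow_lt_pow_iff_right (by norm_num)).mp this
    rw [pow4_sidon hab hs']
  event := by
    intro q h0 hq a ha hd
    obtain ⟨h, hE⟩ := E_ev (p := p) h0 hq
    refine ⟨Gm.e ⟨p.height q, h⟩, ?_, ?_⟩
    · rw [mu_W, List.getElem?_map]
      have h1 : p.ev q < p.N := by
        have h2 : p.base q ≤ p.base (p.n0 ^ p.k) := base_mono hq.le
        have h3 : p.base (p.n0 ^ p.k) = p.Lam * 4 ^ (p.n0 ^ p.k * p.C') := rfl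
        unfold ev N
        omega
      rw [List.getElem?_range' h1]
      simp [hE]
    · have := lt_height (p := p) ha hd
      exact Fin.lt_def.mpr this
  src_lb := by
    intro i hi hi' q1 q2 h12 h2 b hb a hab
    obtain ⟨s, -, rfl, -, -, -, hs⟩ := src_mem (p := p) i q1 q2 b a hi hi' h12 h2 hb hab
    rw [← hs]
    have h1 := s.pos_ge
    have h3 := S_ge (p := p)
    unfold ev
    omega
  src_ub := by
    intro i hi hi' q1 q2 h12 h2 b hb a hab
    obtain ⟨s, rfl, rfl, -, -, -, hs⟩ := src_mem (p := p) i q1 q2 b a hi hi' h12 h2 hb hab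
    rw [← hs]
    have h1 := s.pos_le
    have h3 := S_ge (p := p)
    have h4 := pow_le s
    unfold pos
    omega
  src_sep := by
    intro i hi hi' i' hj hj' q1 q2 h12 h2 b hb a hab hne
    obtain ⟨s, h1, -, -, -, -, hs⟩ := src_mem (p := p) i q1 q2 b a hi hi' h12 h2 hb hab
    obtain ⟨t, h3, -, -, -, -, ht⟩ := src_mem (p := p) i' q1 q2 b a hj hj' h12 h2 hb hab
    rw [← hs, ← ht]
    have h4 := S_ge (p := p)
    have : s ≠ t := by
      rintro rfl
      exact hne (h1.symm.trans h3)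
    rcases SD.sep this with h | h
    · left; omega
    · right; omega
  src_at := by
    intro i hi hi' q1 q2 h12 h2 b hb a hab
    obtain ⟨s, h1, h3, h4, h5, h6, hs⟩ := src_mem (p := p) i q1 q2 b a hi hi' h12 h2 hb hab
    have := srcAt_W s
    rw [h1, h4, h5, h6, hs] at this
    have hlen : (mu (W p 0 p.N)).length = p.N := by rw [mu_W]; simp
    rw [hlen]
    exact this

end Par

end Lay

theorem exists_layout (k n0 C C' L J : ℕ) (hk : 1 ≤ k) (hn : 2 ≤ n0) (hC : 1 ≤ C) (hC' : 1 ≤ C')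
    (hL : 100 * 3 ^ C ≤ L) : Nonempty (Layout k n0 C C' L J) :=
  ⟨Lay.Par.layout ⟨k, n0, C, C', L, J, hk, hn, hC, hC', hL⟩⟩

end Pool.Agent.H12E
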