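import Pool.Agent.H12E.LangFacts

/-! Interface: the test word. -/

namespace Pool.Agent.H12E

/-- A source: a unit with a skip block, surrounded by plain units and then by `d`-units.
`u` is the (0-indexed) position of the unit among the main letters. -/
structure SrcAt (k : ℕ) (w : List (Lt k)) (i : ℕ) (a : Fin k) (u x : ℕ)
    (P1 : List (Lt k)) (x0 : Gm k) (y1 : ℕ) (G1 G2 : List (Gm k)) (y2 : ℕ) (x1 : Gm k)
    (Q1 : List (Lt k)) : Prop where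
  hw : w = P1 ++ Lt.mn x0 :: (List.replicate y1 Lt.d ++ (G1.map Lt.mn ++ Lt.el a ::
    (comb k x ++ Lt.b :: (G2.map Lt.mn ++ (List.replicate y2 Lt.d ++ Lt.mn x1 :: Q1)))))
  hy1 : 1 ≤ y1
  hy2 : 1 ≤ y2
  hG1 : G1.length = 3 ^ i + 1
  hG2 : G2.length = 3 ^ i + 1
  /-- the last letter of `G1` is the letter of the source unit, at position `u` -/
  hu : (mu P1).length + 1 + (3 ^ i + 1) = u + 1

/-- The test word with all the facts which are needed about it. `C` = number of source scales,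
`C'` = number of target candidates per leaf; the leaves are `q < n0 ^ k`. -/
structure Layout (k n0 C C' L J : ℕ) where
  w : List (Lt k)
  hw : w ∈ Lk k
  /-- every factor with more than `L` separating letters contains a `d`-unit -/
  big : ∀ P O Q, w = P ++ O ++ Q → L < (sep O).length →
    ∃ o1 x y x' o2, 1 ≤ y ∧ O = o1 ++ Lt.mn x :: (List.replicate y Lt.d ++ Lt.mn x' :: o2)
  head : ∃ x y x' W, 1 ≤ y ∧ w = Lt.mn x :: (List.replicate y Lt.d ++ Lt.mn x' :: W)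
  /-- start of the buffer of leaf `q` (a number of main letters) -/
  pos : ℕ → ℕ
  /-- position of the event which separates leaf `q-1` and leaf `q` -/
  ev : ℕ → ℕ
  /-- position of the marks of leaf `q` -/
  mrk : ℕ → ℕ → ℕ
  /-- position of the sources: scale `i`, source leaf `q1`, target leaf `q2`, candidate `b`,
  label `a` -/
  src : ℕ → ℕ → ℕ → ℕ → Fin k → ℕ
  pos_zero : J < pos 0
  ev_lt_pos : ∀ q < n0 ^ k, ev q < pos q
  pos_lt_mk : ∀ q < n0 ^ k, ∀ b < C', pos q + J < mrk q b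
  mk_lt_ev : ∀ q, q + 1 < n0 ^ k → ∀ b < C', mrk q b < ev (q + 1)
  mk_inj : ∀ q < n0 ^ k, ∀ b < C', ∀ b' < C', mrk q b = mrk q b' → b = b'
  mk_mark : ∀ q < n0 ^ k, ∀ b < C', (mu w)[mrk q b]? = some Gm.m
  /-- combs are long -/
  mk_small : ∀ q < n0 ^ k, ∀ b < C', mrk q b + 10 ≤ (mu w).length
  /-- all differences of positions of marks are different -/
  sidon : ∀ t1 t2 t3 t4 : ℕ, (mu w)[t1]? = some Gm.m → (mu w)[t2]? = some Gm.m →
    (mu w)[t3]? = some Gm.m → (mu w)[t4]? = some Gm.m → t1 < t2 → t2 + t3 = t1 + t4 → t1 = t3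
  /-- the event before leaf `q` kills every label `a` with `n0^(a+1) ∣ q` -/
  event : ∀ q, 0 < q → q < n0 ^ k → ∀ a : Fin k, (a : ℕ) + 1 < k → n0 ^ ((a : ℕ) + 1) ∣ q →
    ∃ y, (mu w)[ev q]? = some y ∧ Gm.kills a y
  src_lb : ∀ i, 1 ≤ i → i ≤ C → ∀ q1 q2, q1 < q2 → q2 < n0 ^ k → ∀ b < C', ∀ a : Fin k,
    q1 / n0 ^ ((a : ℕ) + 1) = q2 / n0 ^ ((a : ℕ) + 1) → ev q1 < src i q1 q2 b a
  src_ub : ∀ i, 1 ≤ i → i ≤ C → ∀ q1 q2, q1 < q2 → q2 < n0 ^ k → ∀ b < C', ∀ a : Fin k,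
    q1 / n0 ^ ((a : ℕ) + 1) = q2 / n0 ^ ((a : ℕ) + 1) →
    src i q1 q2 b a + 3 ^ i + 3 < pos q1
  src_sep : ∀ i, 1 ≤ i → i ≤ C → ∀ i', 1 ≤ i' → i' ≤ C → ∀ q1 q2, q1 < q2 → q2 < n0 ^ k →
    ∀ b < C', ∀ a : Fin k, q1 / n0 ^ ((a : ℕ) + 1) = q2 / n0 ^ ((a : ℕ) + 1) → i ≠ i' →
    src i q1 q2 b a + L < src i' q1 q2 b a ∨ src i' q1 q2 b a + L < src i q1 q2 b a
  src_at : ∀ i, 1 ≤ i → i ≤ C → ∀ q1 q2, q1 < q2 → q2 < n0 ^ k → ∀ b < C', ∀ a : Fin k,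
    q1 / n0 ^ ((a : ℕ) + 1) = q2 / n0 ^ ((a : ℕ) + 1) →
    ∃ P1 x0 y1 G1 G2 y2 x1 Q1, SrcAt k w i a (src i q1 q2 b a)
      ((mu w).length - 1 - mrk q2 b) P1 x0 y1 G1 G2 y2 x1 Q1

/- TO PROVE (module LAYOUT):
theorem exists_layout (k n0 C C' L J : ℕ) (hk : 1 ≤ k) (hn : 2 ≤ n0) (hC : 1 ≤ C) (hC' : 1 ≤ C')
    (hL : 100 * 3 ^ C ≤ L) : Nonempty (Layout k n0 C C' L J)
-/

end Pool.Agent.H12E
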