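import Pool.Agent.H12E.Nodes

/-! Existence of typed derivations. -/

namespace Pool.Agent.H12E

section

variable {Q D0 X : Type}

/-- The set of residuals. -/
def Res (h : X → List D0) : Set (List D0) := {l | l = [] ∨ ∃ x, l <:+ h x}

theorem Res.finite [Finite X] (h : X → List D0) : (Res h).Finite := by
  have : Res h = {[]} ∪ ⋃ x, {l | l <:+ h x} := by
    ext l; simp [Res]
  rw [this]
  refine (Set.finite_singleton _).union (Set.finite_iUnion fun x => ?_)
  have : {l | l <:+ h x} = {l | l ∈ (h x).tails} := by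
    ext l; simp
  rw [this]
  exact List.finite_toSet _

theorem Res.tail {h : X → List D0} {a : D0} {l : List D0} (hl : (a :: l) ∈ Res h) : l ∈ Res h := by
  rcases hl with hl | ⟨x, hx⟩
  · simp at hl
  · exact Or.inr ⟨x, (List.suffix_cons a l).trans hx⟩

def Valid (em : D0 → Q) (h : X → List D0) (T : List (Q → Set (List Q))) (ν : Node Q D0 X) : Prop :=
  ν.Ok h ∧ Steps T [ν.A] (ν.y.map em)

theorem hom_eq_cons {h : X → List D0} {O : List X} {a : D0} {w : List D0}
    (hO : hom h O = a :: w) : ∃ O1 x' O2, O = O1 ++ O2 ∧ hom h O1 = a :: x' ∧ x' ∈ Res h ∧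
      w = x' ++ hom h O2 := by
  induction O with
  | nil => simp at hO
  | cons x O ih =>
    rw [hom_cons] at hO
    cases hx : h x with
    | nil =>
      rw [hx, List.nil_append] at hO
      obtain ⟨O1, x', O2, e1, e2, e3, e4⟩ := ih hO
      exact ⟨x :: O1, x', O2, by simp [e1], by simp [hx, e2], e3, e4⟩
    | cons b x' =>
      rw [hx, List.cons_append] at hO
      simp only [List.cons.injEq] at hO
      obtain ⟨rfl, rfl⟩ := hO
      refine ⟨[x], x', O, rfl, by simp [hx], ?_, rfl⟩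
      exact Or.inr ⟨x, by rw [hx]; exact List.suffix_cons _ _⟩

theorem base_nodes (em : D0 → Q) (h : X → List D0) {r : List D0} (hr : r ∈ Res h) :
    ∀ (y l : List D0) (O : List X), l ∈ Res h → y ≠ [] → y ++ r = l ++ hom h O →
    ∃ N : List (Node Q D0 X), lets N = y.map em ∧ Chain l N r ∧ catO N = O ∧ caty N = y ∧
      ∀ ν ∈ N, ν.Ok h ∧ (∃ a, ν.A = em a ∧ ν.y = [a]) ∧ ν.l ∈ Res h ∧ ν.r ∈ Res h := by
  intro y
  induction y with
  | nil => intro l O _ h1; exact absurd rfl h1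
  | cons a y ih =>
    intro l O hl _ h0
    cases y with
    | nil =>
      refine ⟨[⟨em a, l, r, [a], O⟩], rfl, ⟨rfl, rfl⟩, by simp, by simp, ?_⟩
      intro ν hν
      simp only [List.mem_singleton] at hν
      subst hν
      exact ⟨h0, ⟨a, rfl, rfl⟩, hl, hr⟩
    | cons b y =>
      -- find the cut
      obtain ⟨O1, r1, O2, e1, e2, e3, e4⟩ : ∃ O1 r1 O2, O = O1 ++ O2 ∧
          [a] ++ r1 = l ++ hom h O1 ∧ r1 ∈ Res h ∧ (b :: y) ++ r = r1 ++ hom h O2 := by
        cases l with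
        | nil =>
          simp only [List.nil_append, List.cons_append] at h0
          obtain ⟨O1, x', O2, e1, e2, e3, e4⟩ := hom_eq_cons h0.symm
          exact ⟨O1, x', O2, e1, by simp [e2], e3, by simpa using e4⟩
        | cons a' l =>
          simp only [List.cons_append, List.cons.injEq] at h0
          obtain ⟨rfl, h0⟩ := h0
          exact ⟨[], l, O, rfl, by simp, Res.tail hl, by simpa using h0⟩
      obtain ⟨N, f1, f2, f3, f4, f5⟩ := ih r1 O2 e3 (by simp) e4
      refine ⟨⟨em a, l, r1, [a], O1⟩ :: N, by simp [f1], ⟨rfl, f2⟩, by simp [f3, e1],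
        by simp [f4], ?_⟩
      intro ν hν
      rcases List.mem_cons.1 hν with rfl | hν
      · exact ⟨e2, ⟨a, rfl, rfl⟩, hl, e3⟩
      · exact f5 ν hν

theorem lets_split {N : List (Node Q D0 X)} {u v : List Q} (h : lets N = u ++ v) :
    ∃ N1 N2, N = N1 ++ N2 ∧ lets N1 = u ∧ lets N2 = v := by
  unfold lets at *
  obtain ⟨N1, N2, h1, h2, h3⟩ := List.map_eq_append_iff.1 h
  exact ⟨N1, N2, h1, h2, h3⟩

theorem chain_mem {S : Set (List D0)} {N : List (Node Q D0 X)} {l m : List D0} (hc : Chain l N m)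
    (hl : l ∈ S) (hN : ∀ ν ∈ N, ν.r ∈ S) : m ∈ S := by
  induction N generalizing l with
  | nil => simp only [Chain] at hc; rwa [← hc]
  | cons ν N ih =>
    exact ih hc.2 (hN ν List.mem_cons_self) (fun κ hκ => hN κ (List.mem_cons_of_mem _ hκ))

/-- grouping children -/
theorem group_nodes {h : X → List D0} {t : Q → Set (List Q)} {x z : List Q} (hs : Step t x z) :
    ∀ {N' : List (Node Q D0 X)} {l r : List D0}, lets N' = z → Chain l N' r → l ∈ Res h →
    (∀ ν ∈ N', ν.l ∈ Res h ∧ ν.r ∈ Res h) →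
    ∃ N : List (Node Q D0 X), lets N = x ∧ Chain l N r ∧ Refine t N N' ∧
      (∀ ν ∈ N, ν.l ∈ Res h ∧ ν.r ∈ Res h) := by
  induction hs with
  | nil =>
    intro N' l r h1 h2 _ _
    have : N' = [] := by simpa [lets] using h1
    subst this
    exact ⟨[], rfl, h2, Refine.nil, by simp⟩
  | @cons a x u v hu hv ih =>
    intro N' l r h1 h2 hl hN'
    obtain ⟨N1, N2, rfl, h3, h4⟩ := lets_split h1
    obtain ⟨m, h5, h6⟩ := h2.split
    have hm : m ∈ Res h := chain_mem h5 hl (fun ν hν => (hN' ν (by simp [hν])).2)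
    obtain ⟨N, g1, g2, g3, g4⟩ := ih h4 h6 hm (fun ν hν => hN' ν (by simp [hν]))
    refine ⟨⟨a, l, m, caty N1, catO N1⟩ :: N, by simp [g1], ⟨rfl, g2⟩, ?_, ?_⟩
    · exact Refine.cons ⟨by rw [h3]; exact hu, h5, rfl, rfl⟩ g3
    · intro ν hν
      rcases List.mem_cons.1 hν with rfl | hν
      · exact ⟨hl, hm⟩
      · exact g4 ν hν

/-- A typed derivation. -/
structure Deriv (em : D0 → Q) (h : X → List D0) (T : List (Q → Set (List Q))) (x : List Q)
    (O : List X) where
  N : ℕ → List (Node Q D0 X)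
  step : ∀ s (hs : s < T.length), Refine T[s] (N s) (N (s + 1))
  lets0 : lets (N 0) = x
  chain0 : Chain [] (N 0) []
  cat0 : catO (N 0) = O
  last : ∀ ν ∈ N T.length, ν.Ok h ∧ (∃ a, ν.A = em a ∧ ν.y = [a])
  res : ∀ s ≤ T.length, ∀ ν ∈ N s, ν.l ∈ Res h ∧ ν.r ∈ Res h

theorem exists_levels (em : D0 → Q) (h : X → List D0) {r : List D0} (hr : r ∈ Res h)
    {y : List D0} {O : List X} {l : List D0} (hl : l ∈ Res h) (hy : y ≠ [])
    (h0 : y ++ r = l ++ hom h O) :
    ∀ (T : List (Q → Set (List Q))) (x : List Q), Steps T x (y.map em) →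
    ∃ N : ℕ → List (Node Q D0 X), (∀ s (hs : s < T.length), Refine T[s] (N s) (N (s + 1))) ∧
      lets (N 0) = x ∧ Chain l (N 0) r ∧ catO (N 0) = O ∧
      (∀ ν ∈ N T.length, ν.Ok h ∧ (∃ a, ν.A = em a ∧ ν.y = [a])) ∧
      (∀ s ≤ T.length, ∀ ν ∈ N s, ν.l ∈ Res h ∧ ν.r ∈ Res h) := by
  intro T
  induction T with
  | nil =>
    intro x hx
    obtain ⟨N, f1, f2, f3, f4, f5⟩ := base_nodes em h hr y l O hl hy h0
    refine ⟨fun _ => N, ?_, ?_, f2, f3, ?_, ?_⟩
    · intro s hs; simp at hs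
    · rw [f1]; exact hx.symm
    · intro ν hν; exact ⟨(f5 ν hν).1, (f5 ν hν).2.1⟩
    · intro s _ ν hν; exact (f5 ν hν).2.2
  | cons t T ih =>
    intro x hx
    obtain ⟨z, hz, hx⟩ := hx
    obtain ⟨N, f1, f2, f3, f4, f5, f6⟩ := ih z hx
    obtain ⟨N0, g1, g2, g3, g4⟩ := group_nodes (h := h) hz f2 f3 hl (f6 0 (Nat.zero_le _))
    refine ⟨fun s => match s with
      | 0 => N0
      | s + 1 => N s, ?_, g1, g2, ?_, f5, ?_⟩
    · intro s hs
      cases s with
      | zero => simpa using g3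
      | succ s => simpa using f1 s (by simpa using hs)
    · show catO N0 = O
      rw [← f4, g3.catO]
    · intro s hs ν hν
      cases s with
      | zero => exact g4 ν hν
      | succ s => exact f6 s (by simpa using hs) ν hν

theorem exists_deriv (em : D0 → Q) (h : X → List D0) {T : List (Q → Set (List Q))} {x : List Q}
    {O : List X} (hy : hom h O ≠ []) (hs : Steps T x ((hom h O).map em)) :
    Nonempty (Deriv em h T x O) := by
  have h0 : ([] : List D0) ∈ Res h := Or.inl rfl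
  obtain ⟨N, f1, f2, f3, f4, f5, f6⟩ := exists_levels em h h0 (y := hom h O) (O := O) h0 hy
    (by simp) T x hs
  exact ⟨⟨N, f1, f2, f3, f4, f5, f6⟩⟩

end

end Pool.Agent.H12E
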