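import Pool.Agent.H12E.Defs

/-! Typed derivations. -/

namespace Pool.Agent.H12E

section

variable {Q D0 X : Type}

def hom (h : X → List D0) (w : List X) : List D0 := w.flatMap h

@[simp] theorem hom_nil (h : X → List D0) : hom h [] = [] := rfl
@[simp] theorem hom_append (h : X → List D0) (v w : List X) :
    hom h (v ++ w) = hom h v ++ hom h w := by simp [hom]
@[simp] theorem hom_cons (h : X → List D0) (x : X) (w : List X) :
    hom h (x :: w) = h x ++ hom h w := by simp [hom]

/-- A node: letter, left and right residuals, raw yield, yield. -/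
structure Node (Q D0 X : Type) where
  A : Q
  l : List D0
  r : List D0
  y : List D0
  O : List X

/-- type of a node -/
def Node.ty (ν : Node Q D0 X) : Q × List D0 × List D0 := (ν.A, ν.l, ν.r)

def Node.Ok (h : X → List D0) (ν : Node Q D0 X) : Prop := ν.y ++ ν.r = ν.l ++ hom h ν.O

/-- residuals match -/
def Chain : List D0 → List (Node Q D0 X) → List D0 → Prop
  | l, [], r => l = r
  | l, ν :: N, r => ν.l = l ∧ Chain ν.r N r

def catO (N : List (Node Q D0 X)) : List X := N.flatMap Node.O
def caty (N : List (Node Q D0 X)) : List D0 := N.flatMap Node.y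
def lets (N : List (Node Q D0 X)) : List Q := N.map Node.A

@[simp] theorem catO_nil : catO ([] : List (Node Q D0 X)) = [] := rfl
@[simp] theorem catO_cons (ν : Node Q D0 X) (N : List (Node Q D0 X)) :
    catO (ν :: N) = ν.O ++ catO N := by simp [catO]
@[simp] theorem catO_append (M N : List (Node Q D0 X)) : catO (M ++ N) = catO M ++ catO N := by
  simp [catO]
@[simp] theorem caty_nil : caty ([] : List (Node Q D0 X)) = [] := rfl
@[simp] theorem caty_cons (ν : Node Q D0 X) (N : List (Node Q D0 X)) :
    caty (ν :: N) = ν.y ++ caty N := by simp [caty]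
@[simp] theorem caty_append (M N : List (Node Q D0 X)) : caty (M ++ N) = caty M ++ caty N := by
  simp [caty]
@[simp] theorem lets_nil : lets ([] : List (Node Q D0 X)) = [] := rfl
@[simp] theorem lets_cons (ν : Node Q D0 X) (N : List (Node Q D0 X)) :
    lets (ν :: N) = ν.A :: lets N := by simp [lets]
@[simp] theorem lets_append (M N : List (Node Q D0 X)) : lets (M ++ N) = lets M ++ lets N := by
  simp [lets]

theorem Chain.append {l m r : List D0} {M N : List (Node Q D0 X)} (h1 : Chain l M m)
    (h2 : Chain m N r) : Chain l (M ++ N) r := by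
  induction M generalizing l with
  | nil => simp only [Chain] at h1; subst h1; simpa using h2
  | cons ν M ih => exact ⟨h1.1, ih h1.2⟩

theorem Chain.split {l r : List D0} {M N : List (Node Q D0 X)} (h : Chain l (M ++ N) r) :
    ∃ m, Chain l M m ∧ Chain m N r := by
  induction M generalizing l with
  | nil => exact ⟨l, rfl, h⟩
  | cons ν M ih =>
    obtain ⟨h1, h2⟩ := h
    obtain ⟨m, h3, h4⟩ := ih h2
    exact ⟨m, ⟨h1, h3⟩, h4⟩

theorem Chain.unique {l r r' : List D0} {N : List (Node Q D0 X)} (h : Chain l N r)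
    (h' : Chain l N r') : r = r' := by
  induction N generalizing l with
  | nil => exact h.symm.trans h'
  | cons ν N ih => exact ih h.2 h'.2

theorem chain_ok {h : X → List D0} {l r : List D0} {N : List (Node Q D0 X)} (hc : Chain l N r)
    (hok : ∀ ν ∈ N, ν.Ok h) : caty N ++ r = l ++ hom h (catO N) := by
  induction N generalizing l with
  | nil => simp only [Chain] at hc; subst hc; simp
  | cons ν N ih =>
    obtain ⟨h1, h2⟩ := hc
    have h3 := ih h2 (fun κ hκ => hok κ (List.mem_cons_of_mem _ hκ))
    have h4 := hok ν List.mem_cons_self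
    simp only [caty_cons, catO_cons, hom_append, List.append_assoc]
    rw [h3, ← List.append_assoc, h4, h1]
    simp

/-- `Exp t ν ch`: the node `ν` is rewritten into the list of nodes `ch` by the table `t`. -/
structure Exp (t : Q → Set (List Q)) (ν : Node Q D0 X) (ch : List (Node Q D0 X)) : Prop where
  hA : lets ch ∈ t ν.A
  hc : Chain ν.l ch ν.r
  hO : ν.O = catO ch
  hy : ν.y = caty ch

inductive Refine (t : Q → Set (List Q)) : List (Node Q D0 X) → List (Node Q D0 X) → Prop
  | nil : Refine t [] []
  | cons {ν : Node Q D0 X} {ch N N' : List (Node Q D0 X)} (h : Exp t ν ch) (h' : Refine t N N') :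
      Refine t (ν :: N) (ch ++ N')

def RS : List (Q → Set (List Q)) → List (Node Q D0 X) → List (Node Q D0 X) → Prop
  | [], N, N' => N = N'
  | t :: T, N, N' => ∃ M, Refine t N M ∧ RS T M N'

variable {t : Q → Set (List Q)} {T T' : List (Q → Set (List Q))}

theorem Refine.step {N N' : List (Node Q D0 X)} (h : Refine t N N') : Step t (lets N) (lets N') := by
  induction h with
  | nil => exact Step.nil
  | cons h _ ih => simpa using Step.cons h.hA ih

theorem Refine.catO {N N' : List (Node Q D0 X)} (h : Refine t N N') : catO N' = catO N := by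
  induction h with
  | nil => rfl
  | cons h _ ih => simp [ih, h.hO]

theorem Refine.caty {N N' : List (Node Q D0 X)} (h : Refine t N N') : caty N' = caty N := by
  induction h with
  | nil => rfl
  | cons h _ ih => simp [ih, h.hy]

theorem Refine.chain {N N' : List (Node Q D0 X)} (h : Refine t N N') {l r : List D0}
    (hc : Chain l N r) : Chain l N' r := by
  induction h generalizing l with
  | nil => exact hc
  | cons h _ ih =>
    obtain ⟨h1, h2⟩ := hc
    have h3 := h.hc
    rw [h1] at h3
    exact h3.append (ih h2)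

theorem Refine.split {M N K : List (Node Q D0 X)} (h : Refine t (M ++ N) K) :
    ∃ K1 K2, K = K1 ++ K2 ∧ Refine t M K1 ∧ Refine t N K2 := by
  induction M generalizing K with
  | nil => exact ⟨[], K, rfl, Refine.nil, h⟩
  | cons ν M ih =>
    cases h with
    | cons h1 h2 =>
      obtain ⟨K1, K2, rfl, h3, h4⟩ := ih h2
      exact ⟨_ ++ K1, K2, by simp, Refine.cons h1 h3, h4⟩

theorem Refine.append {M N M' N' : List (Node Q D0 X)} (h : Refine t M M') (h' : Refine t N N') :
    Refine t (M ++ N) (M' ++ N') := by
  induction h with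
  | nil => simpa using h'
  | cons h1 _ ih => simpa [List.append_assoc] using Refine.cons h1 ih

theorem Refine.nil_left {N : List (Node Q D0 X)} (h : Refine t [] N) : N = [] := by
  cases h; rfl

theorem RS.steps {N N' : List (Node Q D0 X)} (h : RS T N N') : Steps T (lets N) (lets N') := by
  induction T generalizing N with
  | nil => simp only [RS] at h; rw [h]; rfl
  | cons t T ih =>
    obtain ⟨M, h1, h2⟩ := h
    exact ⟨_, h1.step, ih h2⟩

theorem RS.catO {N N' : List (Node Q D0 X)} (h : RS T N N') : catO N' = catO N := by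
  induction T generalizing N with
  | nil => simp only [RS] at h; rw [h]
  | cons t T ih =>
    obtain ⟨M, h1, h2⟩ := h
    rw [ih h2, h1.catO]

theorem RS.caty {N N' : List (Node Q D0 X)} (h : RS T N N') : caty N' = caty N := by
  induction T generalizing N with
  | nil => simp only [RS] at h; rw [h]
  | cons t T ih =>
    obtain ⟨M, h1, h2⟩ := h
    rw [ih h2, h1.caty]

theorem RS.chain {N N' : List (Node Q D0 X)} (h : RS T N N') {l r : List D0}
    (hc : Chain l N r) : Chain l N' r := by
  induction T generalizing N with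
  | nil => simp only [RS] at h; rwa [← h]
  | cons t T ih =>
    obtain ⟨M, h1, h2⟩ := h
    exact ih h2 (h1.chain hc)

theorem RS.nil_left {N : List (Node Q D0 X)} (h : RS T [] N) : N = [] := by
  induction T with
  | nil => exact h.symm
  | cons t T ih =>
    obtain ⟨M, h1, h2⟩ := h
    have := h1.nil_left
    subst this
    exact ih h2

theorem RS.split {M N K : List (Node Q D0 X)} (h : RS T (M ++ N) K) :
    ∃ K1 K2, K = K1 ++ K2 ∧ RS T M K1 ∧ RS T N K2 := by
  induction T generalizing M N with
  | nil => exact ⟨M, N, h.symm, rfl, rfl⟩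
  | cons t T ih =>
    obtain ⟨L, h1, h2⟩ := h
    obtain ⟨L1, L2, rfl, h3, h4⟩ := h1.split
    obtain ⟨K1, K2, rfl, h5, h6⟩ := ih h2
    exact ⟨K1, K2, rfl, ⟨L1, h3, h5⟩, ⟨L2, h4, h6⟩⟩

theorem RS.append {M N M' N' : List (Node Q D0 X)} (h : RS T M M') (h' : RS T N N') :
    RS T (M ++ N) (M' ++ N') := by
  induction T generalizing M N with
  | nil => simp only [RS] at *; rw [h, h']
  | cons t T ih =>
    obtain ⟨L, h1, h2⟩ := h
    obtain ⟨L', h1', h2'⟩ := h'
    exact ⟨_, h1.append h1', ih h2 h2'⟩

theorem RS.comp {N M K : List (Node Q D0 X)} (h1 : RS T N M) (h2 : RS T' M K) :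
    RS (T ++ T') N K := by
  induction T generalizing N with
  | nil => simp only [RS] at h1; subst h1; simpa using h2
  | cons t T ih =>
    obtain ⟨L, h3, h4⟩ := h1
    exact ⟨L, h3, ih h4⟩

/-- ancestors -/
theorem RS.ancestor {N B1 B2 : List (Node Q D0 X)} {κ : Node Q D0 X}
    (h : RS T N (B1 ++ κ :: B2)) :
    ∃ A1 ν A2 D1 X1 X2 D2, N = A1 ++ ν :: A2 ∧ RS T A1 D1 ∧ RS T [ν] (X1 ++ κ :: X2) ∧
      RS T A2 D2 ∧ B1 = D1 ++ X1 ∧ B2 = X2 ++ D2 := by
  induction N generalizing B1 with
  | nil =>
    have := h.nil_left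
    simp at this
  | cons ν N ih =>
    have h' : RS T ([ν] ++ N) (B1 ++ κ :: B2) := h
    obtain ⟨K1, K2, hK, h1, h2⟩ := h'.split
    -- either κ in K1 or in K2
    rcases List.append_eq_append_iff.1 hK with ⟨a, ha1, ha2⟩ | ⟨a, ha1, ha2⟩
    · -- K1 = B1 ++ a, κ :: B2 = a ++ K2
      cases a with
      | nil =>
        simp only [List.append_nil, List.nil_append] at ha1 ha2
        subst ha1 ha2
        obtain ⟨A1, ν', A2, D1, X1, X2, D2, e1, e2, e3, e4, e5, e6⟩ := ih (B1 := []) h2
        refine ⟨ν :: A1, ν', A2, K1 ++ D1, X1, X2, D2, by simp [e1], ?_, e3, e4, ?_, e6⟩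
        · exact RS.append (M := [ν]) h1 e2
        · have := List.append_eq_nil_iff.1 e5.symm
          simp [this.1, this.2]
      | cons z a =>
        simp only [List.cons_append, List.cons.injEq] at ha2
        obtain ⟨rfl, rfl⟩ := ha2
        refine ⟨[], ν, N, [], B1, a, K2, rfl, ?_, by rw [← ha1]; exact h1, h2, rfl, rfl⟩
        clear * -
        induction T with
        | nil => rfl
        | cons t T ih => exact ⟨[], Refine.nil, ih⟩
    · -- B1 = K1 ++ a, K2 = a ++ κ :: B2
      subst ha1 ha2
      obtain ⟨A1, ν', A2, D1, X1, X2, D2, e1, e2, e3, e4, e5, e6⟩ := ih (B1 := a) h2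
      refine ⟨ν :: A1, ν', A2, K1 ++ D1, X1, X2, D2, by simp [e1], ?_, e3, e4, by simp [e5], e6⟩
      exact RS.append (M := [ν]) h1 e2

end

end Pool.Agent.H12E
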