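import Pool.Agent.H12E.Core3

/-! Pumping and silence. -/

namespace Pool.Agent.H12E

section

variable {k : ℕ} {Q D0 : Type}

/-- stretched sequence -/
def stretch {τ : Type} (U V : List τ) : ℕ → List τ
  | 0 => V
  | j + 1 => U ++ stretch U V j

/-- growing a node from its descendants -/
theorem grow {em : D0 → Q} {h : Lt k → List D0} {L : ℕ} {U V : List (Q → Set (List Q))}
    {ν : Node Q D0 (Lt k)} {K K' : List (Node Q D0 (Lt k))} (hK : RS U [ν] K)
    (hK' : List.Forall₂ (fun κ κ' => sym L κ = sym L κ' ∧ Valid em h V κ') K K') :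
    sym L ν = sym L (⟨ν.A, ν.l, ν.r, caty K', catO K'⟩ : Node Q D0 (Lt k)) ∧
    Valid em h (U ++ V) ⟨ν.A, ν.l, ν.r, caty K', catO K'⟩ := by
  have h1 := forall₂_imp (S := fun κ κ' => sym L κ = sym L κ') (fun _ _ h => h.1) hK'
  have h2 : ∀ κ' ∈ K', Valid em h V κ' := by
    intro κ' hκ'
    obtain ⟨a, -, h3⟩ := forall₂_mem_right hK' hκ'
    exact h3.2
  have hO : ν.O = catO K := by rw [hK.catO]; simp
  have hy : ν.y = caty K := by rw [hK.caty]; simp
  have hc : Chain ν.l K ν.r := hK.chain ⟨rfl, rfl⟩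
  constructor
  · have e1 := feat_cat h1
    have e2 := empty_cat h1
    rw [← hO] at e1
    rw [← hy] at e2
    simp only [sym, Node.ty]
    rw [e1, e2]
  · refine ⟨?_, ?_⟩
    · exact chain_ok (sym_chain h1 hc) (fun κ hκ => (h2 κ hκ).1)
    · have e3 := hK.steps
      rw [sym_lets h1] at e3
      have e4 := steps_of_valid h2
      have := e3.comp e4
      simpa using this

theorem chain_len {h : Lt k → List D0} {l : List D0} {N : List (Node Q D0 (Lt k))}
    (hc : Chain l N l) (hok : ∀ ν ∈ N, ν.Ok h) : (caty N).length = (hom h (catO N)).length := by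
  have := congrArg List.length (chain_ok hc hok)
  simp only [List.length_append] at this
  omega

end

section

variable {k : ℕ} {D0 : Type} {G : ETOL D0} {h : Lt k → List D0}
  {T : List (G.Sig → Set (List G.Sig))} {w : List (Lt k)} {L : ℕ} (c : Ctx G h T w L)

namespace Ctx

/-- claim 1 -/
theorem pump1 {r r' : ℕ} (hr : r ≤ r') (hr' : r' ≤ T.length) (hR : c.Ref r = c.Ref r') (j : ℕ) :
    ∀ σ ∈ c.Ref r', ∃ ν', sym L ν' = σ ∧
      Valid (G.term : D0 → G.Sig) h (stretch (seg T r r') (seg T r' T.length) j) ν' := by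
  induction j with
  | zero =>
    rintro σ ⟨ν, hν, rfl⟩
    exact ⟨ν, rfl, c.D.valid hr' hν⟩
  | succ j ih =>
    intro σ hσ
    rw [← hR] at hσ
    obtain ⟨ν, hν, rfl⟩ := hσ
    obtain ⟨K, h1, h2, h3, h4, h5⟩ := c.D.desc hr hr' hν
    obtain ⟨K', hK'⟩ := forall₂_exists (R := fun κ κ' => sym L κ = sym L κ' ∧
      Valid (G.term : D0 → G.Sig) h (stretch (seg T r r') (seg T r' T.length) j) κ') (l := K) (by
        intro κ hκ
        obtain ⟨ν', e1, e2⟩ := ih (sym L κ) ⟨κ, h2 hκ, rfl⟩
        exact ⟨ν', e1.symm, e2⟩)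
    obtain ⟨e1, e2⟩ := grow h1 hK'
    exact ⟨_, e1.symm, e2⟩

/-- claim 2 -/
theorem pump2 {r r' : ℕ} (hr : r ≤ r') (hr' : r' ≤ T.length) (hR : c.Ref r = c.Ref r')
    {ν κ : Node G.Sig D0 (Lt k)} {X1 X2 : List (Node G.Sig D0 (Lt k))}
    (hRS : RS (seg T r r') [ν] (X1 ++ κ :: X2)) (hX : X1 ++ κ :: X2 ⊆ c.D.N r')
    (hsym : sym L ν = sym L κ) (j : ℕ) :
    ∃ α β ya yb, sym L κ = sym L (⟨κ.A, κ.l, κ.r, ya ++ (κ.y ++ yb), α ++ (κ.O ++ β)⟩ :
        Node G.Sig D0 (Lt k)) ∧
      Valid (G.term : D0 → G.Sig) h (stretch (seg T r r') (seg T r' T.length) j)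
        ⟨κ.A, κ.l, κ.r, ya ++ (κ.y ++ yb), α ++ (κ.O ++ β)⟩ ∧
      (sep (catO X1) = [] → sep α = [] ∧ (nc (catO X1) = 0 → nc α = 0)) ∧
      (sep (catO X2) = [] → sep β = []) ∧ ya.length = (hom h α).length ∧
      yb.length = (hom h β).length ∧ (caty X1 ≠ [] → j ≤ ya.length) ∧
      (caty X2 ≠ [] → j ≤ yb.length) := by
  induction j with
  | zero =>
    refine ⟨[], [], [], [], ?_, ?_, by simp, by simp, by simp, by simp, by simp, by simp⟩
    · simp
    · have := c.D.valid hr' (hX (by simp : κ ∈ X1 ++ κ :: X2))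
      simpa [stretch] using this
  | succ j ih =>
    obtain ⟨α, β, ya, yb, e1, e2, e3, e4, e5, e6, e7, e8⟩ := ih
    have himg : ∀ X : List (Node G.Sig D0 (Lt k)), X ⊆ c.D.N r' →
        ∃ X', List.Forall₂ (fun κ κ' => sym L κ = sym L κ' ∧
          Valid (G.term : D0 → G.Sig) h (stretch (seg T r r') (seg T r' T.length) j) κ') X X' := by
      intro X hX
      refine forall₂_exists (R := fun κ κ' => sym L κ = sym L κ' ∧
        Valid (G.term : D0 → G.Sig) h (stretch (seg T r r') (seg T r' T.length) j) κ')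
        (l := X) ?_
      intro κ hκ
      obtain ⟨ν', e1, e2⟩ := c.pump1 hr hr' hR j (sym L κ) ⟨κ, hX hκ, rfl⟩
      exact ⟨ν', e1.symm, e2⟩
    obtain ⟨X1', hX1'⟩ := himg X1 (fun x hx => hX (by simp [hx]))
    obtain ⟨X2', hX2'⟩ := himg X2 (fun x hx => hX (by simp [hx]))
    have hall := forall₂_append hX1' (List.Forall₂.cons (a := κ)
      (b := (⟨κ.A, κ.l, κ.r, ya ++ (κ.y ++ yb), α ++ (κ.O ++ β)⟩ : Node G.Sig D0 (Lt k)))
      ⟨e1, e2⟩ hX2')
    obtain ⟨g1, g2⟩ := grow hRS hall
    have hty := sym_ty hsym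
    simp only [Node.ty, Prod.mk.injEq] at hty
    obtain ⟨tA, tl, tr⟩ := hty
    have s1 := forall₂_imp (S := fun κ κ' => sym L κ = sym L κ') (fun _ _ h => h.1) hX1'
    have s2 := forall₂_imp (S := fun κ κ' => sym L κ = sym L κ') (fun _ _ h => h.1) hX2'
    have v1 : ∀ κ' ∈ X1', κ'.Ok h := by
      intro κ' hκ'
      obtain ⟨a, -, h3⟩ := forall₂_mem_right hX1' hκ'
      exact h3.2.1
    have v2 : ∀ κ' ∈ X2', κ'.Ok h := by
      intro κ' hκ'
      obtain ⟨a, -, h3⟩ := forall₂_mem_right hX2' hκ'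
      exact h3.2.1
    have hch : Chain ν.l (X1 ++ κ :: X2) ν.r := hRS.chain ⟨rfl, rfl⟩
    obtain ⟨m, c1, c2⟩ := hch.split
    obtain ⟨c3, c4⟩ := c2
    have c1' : Chain κ.l X1 κ.l := by
      rw [tl, ← c3] at c1; exact c1
    have c4' : Chain κ.r X2 κ.r := by
      rw [tr] at c4; exact c4
    have len1 := chain_len (sym_chain s1 c1') v1
    have len2 := chain_len (sym_chain s2 c4') v2
    refine ⟨catO X1' ++ α, β ++ catO X2', caty X1' ++ ya, yb ++ caty X2', ?_, ?_, ?_, ?_, ?_, ?_,
      ?_, ?_⟩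
    · rw [← hsym, g1]
      simp only [sym, Node.ty, catO_append, catO_cons, caty_append, caty_cons, tA, tl, tr,
        List.append_assoc]
    · have : (⟨κ.A, κ.l, κ.r, (caty X1' ++ ya) ++ (κ.y ++ (yb ++ caty X2')),
          (catO X1' ++ α) ++ (κ.O ++ (β ++ catO X2'))⟩ : Node G.Sig D0 (Lt k)) =
          ⟨ν.A, ν.l, ν.r, caty (X1' ++ ⟨κ.A, κ.l, κ.r, ya ++ (κ.y ++ yb), α ++ (κ.O ++ β)⟩ :: X2'),
            catO (X1' ++ ⟨κ.A, κ.l, κ.r, ya ++ (κ.y ++ yb), α ++ (κ.O ++ β)⟩ :: X2')⟩ := by
        simp only [catO_append, catO_cons, caty_append, caty_cons, tA, tl, tr,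
          List.append_assoc]
      rw [this]
      exact g2
    · intro hs
      have f1 := feat_cat s1
      have f2 := (Feat.sep_nil_iff f1).1 hs
      obtain ⟨f3, f4⟩ := e3 hs
      refine ⟨by simp [f2, f3], ?_⟩
      intro hn
      have f5 := Feat.ca_eq f1
      rw [ca_of_sepfree hs, ca_of_sepfree f2, hn] at f5
      rw [nc_append, f4 hn]
      omega
    · intro hs
      have f1 := feat_cat s2
      have f2 := (Feat.sep_nil_iff f1).1 hs
      simp [f2, e4 hs]
    · simp only [List.length_append, hom_append, len1, e5]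
    · simp only [List.length_append, hom_append, len2, e6]
    · intro hne
      have f1 := empty_cat s1
      have f2 : caty X1' ≠ [] := by
        intro h0
        rw [h0, Bool.eq_iff_iff] at f1
        simp only [List.isEmpty_iff] at f1
        exact hne (f1.2 trivial)
      have f3 : 1 ≤ (caty X1').length := List.length_pos_iff.2 f2
      have := e7 hne
      rw [List.length_append]
      omega
    · intro hne
      have f1 := empty_cat s2
      have f2 : caty X2' ≠ [] := by
        intro h0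
        rw [h0, Bool.eq_iff_iff] at f1
        simp only [List.isEmpty_iff] at f1
        exact hne (f1.2 trivial)
      have f3 : 1 ≤ (caty X2').length := List.length_pos_iff.2 f2
      have := e8 hne
      rw [List.length_append]
      omega

/-- claim 3 -/
theorem pump3 {r r' : ℕ} (hr : r ≤ r') (hr' : r' ≤ T.length) (hR : c.Ref r = c.Ref r')
    {ν κ : Node G.Sig D0 (Lt k)} {A1 A2 X1 X2 : List (Node G.Sig D0 (Lt k))}
    (hN : c.D.N r = A1 ++ ν :: A2)
    (hRS : RS (seg T r r') [ν] (X1 ++ κ :: X2)) (hX : X1 ++ κ :: X2 ⊆ c.D.N r')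
    (hsym : sym L ν = sym L κ) (j : ℕ) :
    ∃ P' α β Q', P' ++ (α ++ (κ.O ++ (β ++ Q'))) ∈ Lk k ∧ Feat L P' = Feat L (catO A1) ∧
      (sep (catO X1) = [] → sep α = [] ∧ (nc (catO X1) = 0 → nc α = 0)) ∧
      (sep (catO X2) = [] → sep β = []) ∧ (caty X1 ≠ [] → j ≤ (hom h α).length) ∧
      (caty X2 ≠ [] → j ≤ (hom h β).length) := by
  obtain ⟨α, β, ya, yb, e1, e2, e3, e4, e5, e6, e7, e8⟩ := c.pump2 hr hr' hR hRS hX hsym j
  have himg : ∀ X : List (Node G.Sig D0 (Lt k)), X ⊆ c.D.N r →
      ∃ X', List.Forall₂ (fun κ κ' => sym L κ = sym L κ' ∧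
        Valid (G.term : D0 → G.Sig) h (stretch (seg T r r') (seg T r' T.length) j) κ') X X' := by
    intro X hX
    refine forall₂_exists (R := fun κ κ' => sym L κ = sym L κ' ∧
      Valid (G.term : D0 → G.Sig) h (stretch (seg T r r') (seg T r' T.length) j) κ')
      (l := X) ?_
    intro κ hκ
    have : sym L κ ∈ c.Ref r' := by rw [← hR]; exact ⟨κ, hX hκ, rfl⟩
    obtain ⟨ν', e1, e2⟩ := c.pump1 hr hr' hR j (sym L κ) this
    exact ⟨ν', e1.symm, e2⟩
  obtain ⟨A1', hA1'⟩ := himg A1 (fun x hx => by rw [hN]; simp [hx])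
  obtain ⟨A2', hA2'⟩ := himg A2 (fun x hx => by rw [hN]; simp [hx])
  have hall := forall₂_append hA1' (List.Forall₂.cons (a := ν)
    (b := (⟨κ.A, κ.l, κ.r, ya ++ (κ.y ++ yb), α ++ (κ.O ++ β)⟩ : Node G.Sig D0 (Lt k)))
    ⟨hsym.trans e1, e2⟩ hA2')
  rw [← hN] at hall
  have hmem := c.hyb (hr.trans hr') (T'' := stretch (seg T r r') (seg T r' T.length) j) (by
    intro t ht
    have : ∀ j, t ∈ stretch (seg T r r') (seg T r' T.length) j → t ∈ T := by
      intro j
      induction j with
      | zero => intro h; exact mem_seg h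
      | succ j ih =>
        intro h
        rcases List.mem_append.1 h with h | h
        · exact mem_seg h
        · exact ih h
    exact c.hT t (this j ht)) (forall₂_imp (fun _ _ h => sym_ty h.1) hall)
    (fun ν' hν' => by obtain ⟨a, -, h3⟩ := forall₂_mem_right hall hν'; exact h3.2)
  refine ⟨catO A1', α, β, catO A2', ?_, ?_, e3, e4, ?_, ?_⟩
  · simpa using hmem
  · exact (feat_cat (forall₂_imp (fun _ _ h => h.1) hA1')).symm
  · intro h; rw [← e5]; exact e7 h
  · intro h; rw [← e6]; exact e8 h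

end Ctx

/-- Sep-free suffix -/
theorem suffix_of_sepfree {P S V U : List (Lt k)} {g : Lt k} (hS : sep S = []) (hg : isSep g = true)
    (h : P ++ S = V ++ g :: U) : S <:+ U := by
  rcases List.append_eq_append_iff.1 h with ⟨a, h1, h2⟩ | ⟨a, h1, h2⟩
  · exfalso
    have : g ∈ S := by rw [h2]; simp
    have := sep_of_mem_sepfree hS this
    rw [hg] at this; simp at this
  · cases a with
    | nil =>
      exfalso
      have : g ∈ S := by
        simp only [List.nil_append] at h2; rw [← h2]; simp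
      have := sep_of_mem_sepfree hS this
      rw [hg] at this; simp at this
    | cons x a =>
      simp only [List.cons_append, List.cons.injEq] at h2
      rw [h2.2]
      exact List.suffix_append _ _

theorem prefix_of_sepfree {S P U V : List (Lt k)} {g : Lt k} (hS : sep S = []) (hg : isSep g = true)
    (h : S ++ P = U ++ g :: V) : S <+: U := by
  rcases List.append_eq_append_iff.1 h with ⟨a, h1, h2⟩ | ⟨a, h1, h2⟩
  · rw [h1]; exact List.prefix_append _ _
  · cases a with
    | nil => rw [h1]; simp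
    | cons x a =>
      exfalso
      simp only [List.cons_append, List.cons.injEq] at h2
      have : g ∈ S := by rw [h1, ← h2.1]; simp
      have := sep_of_mem_sepfree hS this
      rw [hg] at this; simp at this

theorem hom_length_le {X : Type} {h : X → List D0} {A B : List X} (hAB : A <:+: B) :
    (hom h A).length ≤ (hom h B).length := by
  obtain ⟨s, t, rfl⟩ := hAB
  simp
  omega

namespace Ctx

/-- (R3) -/
theorem R3 {r r' : ℕ} (hr : r ≤ r') (hr' : r' ≤ T.length) (hR : c.Ref r = c.Ref r')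
    {ν κ : Node G.Sig D0 (Lt k)} {A1 A2 X1 X2 : List (Node G.Sig D0 (Lt k))}
    (hN : c.D.N r = A1 ++ ν :: A2)
    (hRS : RS (seg T r r') [ν] (X1 ++ κ :: X2)) (hX : X1 ++ κ :: X2 ⊆ c.D.N r')
    (hsym : sym L ν = sym L κ) (hsmall : small L ν = true)
    {lam rho : List (Lt k)} {z : ℕ}
    (hκO : κ.O = lam ++ Lt.c :: (List.replicate z Lt.d' ++ Lt.c :: rho))
    (hcb : cb (catO A1 ++ (catO X1 ++ lam)) = 1)
    (hlam : (sep (catO X1 ++ lam) = [] ∧ nc (catO X1) = 0) ∨
      (sep (catO X1 ++ lam) ≠ [] ∧ ∃ g l0, catO X1 ++ lam = g :: l0 ∧ isSep g = true))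
    (hrho : sep (rho ++ catO X2) = [] ∨ ∃ g l0, rho ++ catO X2 = l0 ++ [g] ∧ isSep g = true) :
    caty X1 = [] ∧ caty X2 = [] := by
  have hνO : ν.O = catO X1 ++ (κ.O ++ catO X2) := by
    have := hRS.catO
    simpa using this.symm
  have hsep : sep (catO X1) = [] ∧ sep (catO X2) = [] := by
    have h1 := Feat.sep_eq (sym_feat hsym) (small_iff.1 hsmall)
    rw [hνO] at h1
    have := congrArg List.length h1
    simp only [sep_append, List.length_append] at this
    constructor
    · exact List.length_eq_zero_iff.1 (by omega)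
    · exact List.length_eq_zero_iff.1 (by omega)
  have hty := sym_ty hsym
  simp only [Node.ty, Prod.mk.injEq] at hty
  obtain ⟨tA, tl, tr⟩ := hty
  have hch : Chain ν.l (X1 ++ κ :: X2) ν.r := hRS.chain ⟨rfl, rfl⟩
  obtain ⟨m, c1, c2⟩ := hch.split
  obtain ⟨c3, c4⟩ := c2
  have c1' : Chain κ.l X1 κ.l := by rw [tl, ← c3] at c1; exact c1
  have c4' : Chain κ.r X2 κ.r := by rw [tr] at c4; exact c4
  have hok : ∀ x ∈ X1 ++ κ :: X2, x.Ok h := fun x hx => (c.D.valid hr' (hX hx)).1
  have len1 := chain_len c1' (fun x hx => hok x (by simp [hx]))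
  have len2 := chain_len c4' (fun x hx => hok x (by simp [hx]))
  -- the comb of the pumped word
  have key : ∀ P' α β Q' : List (Lt k), P' ++ (α ++ (κ.O ++ (β ++ Q'))) ∈ Lk k →
      Feat L P' = Feat L (catO A1) → sep α = [] → (nc (catO X1) = 0 → nc α = 0) →
      cb (P' ++ (α ++ lam)) = 1 := by
    intro P' α β Q' _ h2 h3 h4
    rcases hlam with ⟨h5, h6⟩ | ⟨h5, -⟩
    · have h5' : sep lam = [] := by
        rw [sep_append] at h5; exact (List.append_eq_nil_iff.1 h5).2
      rw [cb_append_sepfree h5, nc_append, h6] at hcb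
      rw [cb_append_sepfree (by simp [h3, h5']), nc_append, h4 h6]
      have := Feat.cb_eq h2
      omega
    · have h5' : sep lam ≠ [] := by
        intro h0; apply h5; simp [hsep.1, h0]
      rw [← List.append_assoc, cb_append_sep h5'] at hcb
      rw [← List.append_assoc, cb_append_sep h5', hcb]
  constructor
  · rcases hlam with ⟨h5, h6⟩ | ⟨-, g, l0, h7, h8⟩
    · by_contra hne
      obtain ⟨P', α, β, Q', e1, e2, e3, e4, e5, e6⟩ := c.pump3 hr hr' hR hN hRS hX hsym
        ((hom h (comb k (1 + 1 + z))).length + 1)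
      have e7 := key _ _ _ _ e1 e2 (e3 hsep.1).1 (e3 hsep.1).2
      have e8 : (P' ++ (α ++ lam)) ++ Lt.c :: (List.replicate z Lt.d' ++ Lt.c ::
          (rho ++ (β ++ Q'))) ∈ Lk k := by
        rw [hκO] at e1; simpa using e1
      obtain ⟨i, -, -, V0, U1, U2, V3, f1, f2, f3⟩ := F2 e8
      rw [e7] at f3
      have h5' : sep lam = [] := by
        rw [sep_append] at h5; exact (List.append_eq_nil_iff.1 h5).2
      have f4 := suffix_of_sepfree (S := α ++ lam) (by simp [(e3 hsep.1).1, h5']) rfl f1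
      have f5 : α <:+: comb k (1 + 1 + z) := by
        rw [← f3]
        refine List.IsInfix.trans ?_ (List.infix_append' [] U1 _)
        exact (List.prefix_append α lam).isInfix.trans f4.isInfix
      have f6 := hom_length_le (h := h) f5
      have := e5 hne
      omega
    · have : catO X1 = [] := by
        cases hX1 : catO X1 with
        | nil => rfl
        | cons x l =>
          exfalso
          rw [hX1] at h7
          simp only [List.cons_append, List.cons.injEq] at h7
          have h9 := hsep.1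
          rw [hX1] at h9
          have := sep_of_mem_sepfree h9 (x := x) (by simp)
          rw [h7.1, h8] at this
          simp at this
      rw [this] at len1
      exact List.length_eq_zero_iff.1 (by simpa using len1)
  · rcases hrho with h5 | ⟨g, l0, h7, h8⟩
    · by_contra hne
      obtain ⟨P', α, β, Q', e1, e2, e3, e4, e5, e6⟩ := c.pump3 hr hr' hR hN hRS hX hsym
        ((hom h (comb k (1 + 1 + z))).length + 1)
      have e7 := key _ _ _ _ e1 e2 (e3 hsep.1).1 (e3 hsep.1).2
      have e8 : (P' ++ (α ++ lam)) ++ Lt.c :: (List.replicate z Lt.d' ++ Lt.c ::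
          (rho ++ (β ++ Q'))) ∈ Lk k := by
        rw [hκO] at e1; simpa using e1
      obtain ⟨i, -, -, V0, U1, U2, V3, f1, f2, f3⟩ := F2 e8
      rw [e7] at f3
      have h5' : sep rho = [] := by
        rw [sep_append] at h5; exact (List.append_eq_nil_iff.1 h5).1
      have f4 := prefix_of_sepfree (S := rho ++ β) (P := Q') (by simp [e4 hsep.2, h5']) rfl
        (by rw [List.append_assoc]; exact f2)
      have f5 : β <:+: comb k (1 + 1 + z) := by
        rw [← f3]
        have g1 : β <:+: U2 := (List.suffix_append rho β).isInfix.trans f4.isInfix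
        refine g1.trans ?_
        exact ⟨U1 ++ Lt.c :: (List.replicate z Lt.d' ++ [Lt.c]), [], by simp⟩
      have f6 := hom_length_le (h := h) f5
      have := e6 hne
      omega
    · have : catO X2 = [] := by
        rcases List.eq_nil_or_concat' (catO X2) with h0 | ⟨l, x, h0⟩
        · exact h0
        · exfalso
          rw [h0, ← List.append_assoc] at h7
          have h10 := (List.append_inj' h7 rfl).2
          simp only [List.cons.injEq, and_true] at h10
          have h9 := hsep.2
          rw [h0] at h9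
          have := sep_of_mem_sepfree h9 (x := x) (by simp)
          rw [h10, h8] at this
          simp at this
      rw [this] at len2
      exact List.length_eq_zero_iff.1 (by simpa using len2)

end Ctx

end

end Pool.Agent.H12E
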