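import Pool.Agent.H12E.Target2

/-! Silence. -/

namespace Pool.Agent.H12E

section

variable {k : ℕ} {D0 : Type} {G : ETOL D0} {h : Lt k → List D0}
  {T : List (G.Sig → Set (List G.Sig))} {w : List (Lt k)} {L : ℕ} {c : Ctx G h T w L}

namespace Ctx

theorem At_desc {W1 : List (Lt k)} {z : ℕ} {r r' : ℕ} (hr : r ≤ r') (hr' : r' ≤ T.length)
    {A1 A2 B1 B2 : List (Node G.Sig D0 (Lt k))} {ν κ : Node G.Sig D0 (Lt k)}
    {lam rho lam' rho' : List (Lt k)} (hA : At (c.D.N r) W1 z A1 ν A2 lam rho)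
    (hB : At (c.D.N r') W1 z B1 κ B2 lam' rho') :
    ∃ D1 X1 X2 D2, lam = catO X1 ++ lam' ∧ rho = rho' ++ catO X2 ∧ RS (seg T r r') A1 D1 ∧
      RS (seg T r r') [ν] (X1 ++ κ :: X2) ∧ RS (seg T r r') A2 D2 ∧ B1 = D1 ++ X1 ∧
      B2 = X2 ++ D2 := by
  obtain ⟨A1', ν', A2', D1, X1, X2, D2, e1, e2, e3, e4, e5, e6⟩ := hB.anc (c.D.rs hr hr')
  obtain ⟨rfl, rfl, rfl, rfl, rfl⟩ := hA.unique e1
  exact ⟨D1, X1, X2, D2, rfl, rfl, e2, e3, e4, e5, e6⟩

/-- the raw length of the node which contains the unit does not change -/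
def Sil (c : Ctx G h T w L) (W1 : List (Lt k)) (z s s' : ℕ) : Prop :=
  ∀ A1 ν A2 lam rho B1 κ B2 lam' rho', At (c.D.N s) W1 z A1 ν A2 lam rho →
    At (c.D.N s') W1 z B1 κ B2 lam' rho' → ν.y.length = κ.y.length

theorem y_len_le {W1 : List (Lt k)} {z : ℕ} {r r' : ℕ} (hr : r ≤ r') (hr' : r' ≤ T.length)
    {A1 A2 B1 B2 : List (Node G.Sig D0 (Lt k))} {ν κ : Node G.Sig D0 (Lt k)}
    {lam rho lam' rho' : List (Lt k)} (hA : At (c.D.N r) W1 z A1 ν A2 lam rho)
    (hB : At (c.D.N r') W1 z B1 κ B2 lam' rho') : κ.y.length ≤ ν.y.length := by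
  obtain ⟨D1, X1, X2, D2, -, -, -, h1, -⟩ := At_desc hr hr' hA hB
  have := congrArg List.length h1.caty
  simp at this
  omega

theorem Act.silence {s1 s2 : ℕ} {W1 : List (Lt k)} {z : ℕ} (hAct : c.Act s1 s2 W1 z)
    (hs2 : s2 ≤ T.length) {K : ℕ} (hK : nref G.Sig h L * (nsym G.Sig h L * 2) ≤ K) (lv : ℕ → ℕ)
    (hlv : ∀ m ≤ K, s1 ≤ lv m ∧ lv m ≤ s2) (hmono : ∀ m m', m ≤ m' → m' ≤ K → lv m ≤ lv m') :
    ∃ m m', m < m' ∧ m' ≤ K ∧ ∀ s s', lv m ≤ s → s ≤ s' → s' ≤ lv m' → c.Sil W1 z s s' := by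
  classical
  have : Finite G.Sig := G.fin
  have hfin : (symSet h L : Set (SymT G.Sig D0 k)).Finite := symSet_finite h L
  have hfin2 : (𝒫 (symSet h L : Set (SymT G.Sig D0 k))).Finite := hfin.finite_subsets
  have hnode : ∀ m ∈ Finset.range (K + 1), ∃ ν : Node G.Sig D0 (Lt k), ∃ lam : List (Lt k),
      ∃ A1 A2 rho, At (c.D.N (lv m)) W1 z A1 ν A2 lam rho ∧
      small L ν = true ∧ (∀ κ ∈ A1, small L κ = true) ∧ LR lam ∧ RR rho := by
    intro m hm
    have hm' : m ≤ K := by simpa [Nat.lt_succ_iff] using hm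
    obtain ⟨A1, ν, A2, lam, rho, h1⟩ := hAct.node (lv m) (hlv m hm').1 (hlv m hm').2
    exact ⟨ν, lam, A1, A2, rho, h1⟩
  have hne : Nonempty (Node G.Sig D0 (Lt k)) := by
    obtain ⟨ν, -⟩ := hnode 0 (by simp)
    exact ⟨ν⟩
  choose! ν lam hνl using hnode
  have hcard : (hfin2.toFinset ×ˢ (hfin.toFinset ×ˢ (Finset.univ : Finset Bool))).card <
      (Finset.range (K + 1)).card := by
    rw [Finset.card_product, Finset.card_product, ← Set.ncard_eq_toFinset_card _ hfin,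
      ← Set.ncard_eq_toFinset_card _ hfin2, Finset.card_range]
    simp only [Finset.card_univ, Fintype.card_bool]
    unfold nsym nref at hK
    omega
  obtain ⟨m, hm, m', hm', hne2, heq⟩ := Finset.exists_ne_map_eq_of_card_lt_of_maps_to hcard
    (f := fun m => (c.Ref (lv m), (sym L (ν m), decide (nc (lam m) = 0)))) (by
      intro m hm
      have hm' : m ≤ K := by simpa [Nat.lt_succ_iff] using hm
      have hs : lv m ≤ T.length := (hlv m hm').2.trans hs2
      obtain ⟨A1, A2, rho, h1, -⟩ := hνl m (by simp; omega)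
      simp only [Finset.coe_product, Set.Finite.coe_toFinset, Finset.coe_univ, Set.mem_prod,
        Set.mem_univ, and_true]
      exact ⟨c.ref_sub hs, c.ref_sub hs ⟨ν m, by rw [h1.hN]; simp, rfl⟩⟩)
  -- order
  wlog hlt : m < m' generalizing m m'
  · exact this m' hm' m hm hne2.symm heq.symm (by omega)
  rw [Finset.mem_range] at hm hm'
  simp only [Prod.mk.injEq, decide_eq_decide] at heq
  obtain ⟨hRef, hsym, hnc⟩ := heq
  obtain ⟨A1, A2, rho, hA, hA2, hA3, hA4, hA5⟩ := hνl m (by simp; omega)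
  obtain ⟨B1, B2, rho', hB, hB2, hB3, hB4, hB5⟩ := hνl m' (by simp; omega)
  refine ⟨m, m', hlt, by omega, ?_⟩
  have hle : lv m ≤ lv m' := hmono m m' hlt.le (by omega)
  have hle2 : lv m' ≤ T.length := (hlv m' (by omega)).2.trans hs2
  have hlen : (ν m).y.length = (ν m').y.length := by
    obtain ⟨D1, X1, X2, D2, e1, e2, e3, e4, e5, e6, e7⟩ := At_desc hle hle2 hA hB
    have h3 := c.R3 hle hle2 hRef hA.hN e4 (by
      intro x hx
      rw [hB.hN, e6, e7]
      simp only [List.mem_append, List.mem_cons] at hx ⊢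
      tauto) hsym hA2 hB.hO (by
        rw [← e1, hA.hW]; exact hAct.hcb) (by
        rw [← e1]
        rcases hA4 with ⟨g1, g2⟩ | ⟨g, l0, g1, g2⟩
        · left
          refine ⟨g1, ?_⟩
          have g3 := congrArg nc e1
          rw [nc_append] at g3
          omega
        · right
          exact ⟨by rw [g1, sep_cons]; simp [g2], g, l0, g1, g2⟩) (by rw [← e2]; exact hA5)
    have := congrArg List.length e4.caty
    simp [h3.1, h3.2] at this
    exact this.symm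
  intro s s' h1 h2 h3 C1 κ1 C2 l1 r1 C1' κ2 C2' l2 r2 hC hC'
  have a1 := y_len_le h1 (by omega) hA hC
  have a2 := y_len_le h2 (by omega) hC hC'
  have a3 := y_len_le h3 hle2 hC' hB
  omega

end Ctx

end

end Pool.Agent.H12E
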