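import Pool.Agent.H12E.Pump
import Pool.Agent.H12E.LayoutDefs

/-! Nodes which contain the second unit of a comb. -/

namespace Pool.Agent.H12E

section lists

variable {k : ℕ}

theorem decomp_tri {α : Type} {A1 A2 A1' A2' : List α} {x x' : α}
    (h : A1 ++ x :: A2 = A1' ++ x' :: A2') :
    (A1 = A1' ∧ x = x' ∧ A2 = A2') ∨ (∃ B, A1' = A1 ++ x :: B ∧ A2 = B ++ x' :: A2') ∨
      (∃ B, A1 = A1' ++ x' :: B ∧ A2' = B ++ x :: A2) := by
  rcases List.append_eq_append_iff.1 h with ⟨a, h1, h2⟩ | ⟨a, h1, h2⟩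
  · cases a with
    | nil =>
      simp only [List.nil_append, List.cons.injEq] at h2
      left; exact ⟨by simp [h1], h2.1, h2.2⟩
    | cons y a =>
      simp only [List.cons_append, List.cons.injEq] at h2
      right; left
      exact ⟨a, by rw [h1, h2.1], h2.2⟩
  · cases a with
    | nil =>
      simp only [List.nil_append, List.cons.injEq] at h2
      left; exact ⟨by simp [h1], h2.1.symm, h2.2.symm⟩
    | cons y a =>
      simp only [List.cons_append, List.cons.injEq] at h2
      right; right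
      exact ⟨a, by rw [h1, h2.1], h2.2⟩

/-- left and right shape -/
def LR (lam : List (Lt k)) : Prop :=
  (sep lam = [] ∧ nc lam ≤ 1) ∨ ∃ g l0, lam = g :: l0 ∧ isSep g = true

def RR (rho : List (Lt k)) : Prop :=
  sep rho = [] ∨ ∃ g l0, rho = l0 ++ [g] ∧ isSep g = true

/-- words left and right of the second unit -/
def LW (G1 : List (Gm k)) (a : Fin k) (x : ℕ) : List (Lt k) :=
  G1.map Lt.mn ++ Lt.el a :: Lt.c :: List.replicate (x - 1) Lt.d'

def RW (G2 : List (Gm k)) (x : ℕ) : List (Lt k) :=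
  (List.replicate (x - 3) Lt.d' ++ comb k (x - 3)) ++ Lt.b :: G2.map Lt.mn

theorem comb_three {x : ℕ} (hx : 3 ≤ x) : comb k x =
    (Lt.c :: List.replicate (x - 1) Lt.d') ++ Lt.c :: (List.replicate (x - 2) Lt.d' ++
      Lt.c :: (List.replicate (x - 3) Lt.d' ++ comb k (x - 3))) := by
  obtain ⟨y, rfl⟩ : ∃ y, x = y + 3 := ⟨x - 3, by omega⟩
  simp only [comb, Nat.add_sub_cancel, show y + 3 - 1 = y + 2 by omega,
    show y + 3 - 2 = y + 1 by omega, List.cons_append]

theorem mu_map_mn (G : List (Gm k)) : mu (G.map Lt.mn) = G := by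
  induction G with
  | nil => rfl
  | cons x G ih => simp [ih]

theorem mu_LW (G1 : List (Gm k)) (a : Fin k) (x : ℕ) : mu (LW G1 a x) = G1 := by
  simp [LW, mu_map_mn]

theorem mu_RW (G2 : List (Gm k)) (x : ℕ) : mu (RW G2 x) = G2 := by
  simp [RW, mu_map_mn]

theorem src_eq {w : List (Lt k)} {i : ℕ} {a : Fin k} {u x : ℕ} {P1 : List (Lt k)} {x0 : Gm k}
    {y1 : ℕ} {G1 G2 : List (Gm k)} {y2 : ℕ} {x1 : Gm k} {Q1 : List (Lt k)}
    (hS : SrcAt k w i a u x P1 x0 y1 G1 G2 y2 x1 Q1) (hx : 3 ≤ x) :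
    w = (P1 ++ Lt.mn x0 :: (List.replicate y1 Lt.d ++ LW G1 a x)) ++
      Lt.c :: (List.replicate (x - 2) Lt.d' ++ Lt.c :: (RW G2 x ++
        (List.replicate y2 Lt.d ++ Lt.mn x1 :: Q1))) := by
  rw [hS.hw, comb_three hx]
  simp [LW, RW]

/-- left side analysis -/
theorem left_cases {P1 lam Pa LWx : List (Lt k)} {x0 g : Gm k} {y1 : ℕ} (hy1 : 1 ≤ y1)
    {l0 : List (Lt k)} (hg : LWx = Lt.mn g :: l0)
    (h : Pa ++ lam = P1 ++ Lt.mn x0 :: (List.replicate y1 Lt.d ++ LWx)) :
    HasD lam ∨ ((∃ P2, Pa = P1 ++ Lt.mn x0 :: P2) ∧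
      (lam <:+ LWx ∨ (Lt.d ∈ lam ∧ LWx <:+ lam ∧ lam <:+ List.replicate y1 Lt.d ++ LWx))) := by
  rcases List.append_eq_append_iff.1 h with ⟨a, h1, h2⟩ | ⟨a, h1, h2⟩
  · -- P1 = Pa ++ a, lam = a ++ mn x0 :: ..
    left
    refine ⟨a, x0, y1, g, l0, hy1, ?_⟩
    rw [h2, hg]
  · -- Pa = P1 ++ a, mn x0 :: .. = a ++ lam
    cases a with
    | nil =>
      left
      simp only [List.nil_append] at h2
      exact ⟨[], x0, y1, g, l0, hy1, by rw [← h2, hg]; rfl⟩
    | cons z a =>
      right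
      simp only [List.cons_append, List.cons.injEq] at h2
      obtain ⟨rfl, h2⟩ := h2
      refine ⟨⟨a, h1⟩, ?_⟩
      rcases List.append_eq_append_iff.1 h2 with ⟨b, h3, h4⟩ | ⟨b, h3, h4⟩
      · -- a = replicate ++ b, LWx = b ++ lam
        left; rw [h4]; exact List.suffix_append _ _
      · -- replicate = a ++ b, lam = b ++ LWx
        cases b with
        | nil => left; rw [h4]; simp
        | cons z b =>
          right
          have hz : z = Lt.d := by
            have : z ∈ List.replicate y1 (Lt.d : Lt k) := by rw [h3]; simp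
            exact (List.mem_replicate.1 this).2
          refine ⟨by rw [h4, hz]; simp, by rw [h4]; exact List.suffix_append _ _, ?_⟩
          rw [h4, h3, List.append_assoc]
          exact List.suffix_append _ _

/-- right side analysis -/
theorem right_cases {Q1 rho Qa RWx : List (Lt k)} {x1 g : Gm k} {y2 : ℕ} (hy2 : 1 ≤ y2)
    {l0 : List (Lt k)} (hg : RWx = l0 ++ [Lt.mn g])
    (h : rho ++ Qa = RWx ++ (List.replicate y2 Lt.d ++ Lt.mn x1 :: Q1)) :
    HasD rho ∨ (rho <+: RWx ∨ (Lt.d ∈ rho ∧ RWx <+: rho ∧ rho <+: RWx ++ List.replicate y2 Lt.d)) := by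
  rcases List.append_eq_append_iff.1 h with ⟨a, h1, h2⟩ | ⟨a, h1, h2⟩
  · right; left; rw [h1]; exact List.prefix_append _ _
  · -- rho = RWx ++ a, replicate ++ mn x1 :: Q1 = a ++ Qa
    rcases List.append_eq_append_iff.1 h2 with ⟨b, h3, h4⟩ | ⟨b, h3, h4⟩
    · -- a = replicate ++ b, mn x1 :: Q1 = b ++ Qa
      cases b with
      | nil =>
        right; right
        rw [List.append_nil] at h3
        refine ⟨?_, by rw [h1]; exact List.prefix_append _ _, by rw [h1, h3]⟩
        rw [h1, h3]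
        simp [List.mem_replicate]
        right; omega
      | cons z b =>
        simp only [List.cons_append, List.cons.injEq] at h4
        obtain ⟨rfl, h4⟩ := h4
        left
        exact ⟨l0, g, y2, x1, b, hy2, by rw [h1, hg, h3]; simp⟩
    · -- replicate = a ++ b
      right
      cases a with
      | nil => left; rw [h1]; simp
      | cons z a =>
        right
        have hz : z = Lt.d := by
          have : z ∈ List.replicate y2 (Lt.d : Lt k) := by rw [h3]; simp
          exact (List.mem_replicate.1 this).2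
        refine ⟨by rw [h1, hz]; simp, by rw [h1]; exact List.prefix_append _ _, ?_⟩
        rw [h1, h3]
        exact (List.prefix_append_right_inj _).2 (List.prefix_append _ _)

theorem mu_le_of_infix {A B : List (Lt k)} (h : A <:+: B) : (mu A).length ≤ (mu B).length := by
  obtain ⟨s, t, rfl⟩ := h
  simp; omega

theorem LR_of_suffix {G1 : List (Gm k)} {a : Fin k} {x : ℕ} {lam : List (Lt k)}
    (h : lam <:+ LW G1 a x) : LR lam := by
  obtain ⟨s, hs⟩ := h
  have h1 : s ++ lam = (G1.map Lt.mn ++ [Lt.el a]) ++ (Lt.c :: List.replicate (x - 1) Lt.d') := by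
    rw [hs]; simp [LW]
  rcases List.append_eq_append_iff.1 h1 with ⟨t, h2, h3⟩ | ⟨t, h2, h3⟩
  · -- G1.. = s ++ t, lam = t ++ c ...
    cases t with
    | nil => left; rw [h3]; simp [sep_cons, isSep, nc_cons]
    | cons g t =>
      right
      refine ⟨g, _, by rw [h3]; rfl, ?_⟩
      have : g ∈ G1.map Lt.mn ++ [Lt.el a] := by rw [h2]; simp
      rcases List.mem_append.1 this with h4 | h4
      · obtain ⟨y, -, rfl⟩ := List.mem_map.1 h4; rfl
      · rw [List.mem_singleton.1 h4]; rfl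
  · -- c ... = t ++ lam
    left
    have h4 : sep (t ++ lam) = [] := by rw [← h3]; simp [sep_cons, isSep]
    have h5 : nc (t ++ lam) = 1 := by rw [← h3]; simp [nc_cons]
    rw [sep_append] at h4
    rw [nc_append] at h5
    exact ⟨(List.append_eq_nil_iff.1 h4).2, by omega⟩

theorem RR_of_prefix {G2 : List (Gm k)} {x : ℕ} {rho : List (Lt k)}
    (h : rho <+: RW G2 x) : RR rho := by
  obtain ⟨s, hs⟩ := h
  unfold RW at hs
  rcases List.append_eq_append_iff.1 hs with ⟨t, h2, h3⟩ | ⟨t, h2, h3⟩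
  · left
    have h4 : sep (rho ++ t) = [] := by rw [← h2]; simp
    rw [sep_append] at h4
    exact (List.append_eq_nil_iff.1 h4).1
  · rcases List.eq_nil_or_concat' t with h0 | ⟨t', g, h0⟩
    · left; rw [h2, h0]; simp
    · right
      refine ⟨g, (List.replicate (x - 3) Lt.d' ++ comb k (x - 3)) ++ t', by rw [h2, h0]; simp, ?_⟩
      have : g ∈ Lt.b :: G2.map Lt.mn := by rw [h3, h0]; simp
      rcases List.mem_cons.1 this with h4 | h4
      · rw [h4]; rfl
      · obtain ⟨y, -, rfl⟩ := List.mem_map.1 h4; rfl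

end lists

section

variable {k : ℕ} {Q D0 : Type}

/-- the node `ν` of `N` contains the unit `c d'^z c` after the prefix `W1` -/
structure At (N : List (Node Q D0 (Lt k))) (W1 : List (Lt k)) (z : ℕ)
    (A1 : List (Node Q D0 (Lt k))) (ν : Node Q D0 (Lt k)) (A2 : List (Node Q D0 (Lt k)))
    (lam rho : List (Lt k)) : Prop where
  hN : N = A1 ++ ν :: A2
  hO : ν.O = lam ++ Lt.c :: (List.replicate z Lt.d' ++ Lt.c :: rho)
  hW : catO A1 ++ lam = W1

theorem At.unique {N : List (Node Q D0 (Lt k))} {W1 : List (Lt k)} {z : ℕ}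
    {A1 A2 A1' A2' : List (Node Q D0 (Lt k))} {ν ν' : Node Q D0 (Lt k)}
    {lam rho lam' rho' : List (Lt k)} (h : At N W1 z A1 ν A2 lam rho)
    (h' : At N W1 z A1' ν' A2' lam' rho') :
    A1 = A1' ∧ ν = ν' ∧ A2 = A2' ∧ lam = lam' ∧ rho = rho' := by
  have e := h.hN.symm.trans h'.hN
  have l1 := congrArg List.length h.hW
  have l2 := congrArg List.length h'.hW
  have l3 := congrArg List.length h.hO
  have l4 := congrArg List.length h'.hO
  simp only [List.length_append, List.length_cons, List.length_replicate] at l1 l2 l3 l4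
  rcases decomp_tri e with ⟨rfl, rfl, rfl⟩ | ⟨B, hB, -⟩ | ⟨B, hB, -⟩
  · have h1 : lam = lam' := List.append_cancel_left (h.hW.trans h'.hW.symm)
    subst h1
    have h2 := h.hO.symm.trans h'.hO
    simp only [List.append_cancel_left_eq, List.cons.injEq, true_and] at h2
    exact ⟨rfl, rfl, rfl, rfl, h2⟩
  · exfalso
    have := congrArg (fun z => (catO z).length) hB
    simp only [catO_append, catO_cons, List.length_append] at this
    omega
  · exfalso
    have := congrArg (fun z => (catO z).length) hB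
    simp only [catO_append, catO_cons, List.length_append] at this
    omega

theorem At.right {N : List (Node Q D0 (Lt k))} {W1 : List (Lt k)} {z : ℕ}
    {A1 A2 : List (Node Q D0 (Lt k))} {ν : Node Q D0 (Lt k)}
    {lam rho W2 : List (Lt k)} (h : At N W1 z A1 ν A2 lam rho)
    (hw : catO N = W1 ++ Lt.c :: (List.replicate z Lt.d' ++ Lt.c :: W2)) :
    rho ++ catO A2 = W2 := by
  rw [h.hN, ← h.hW] at hw
  simp only [catO_append, catO_cons, h.hO, List.append_assoc, List.cons_append,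
    List.append_cancel_left_eq, List.cons.injEq, true_and] at hw
  exact hw

/-- ancestors of an `At` -/
theorem At.anc {U : List (Q → Set (List Q))} {N N' : List (Node Q D0 (Lt k))} (hRS : RS U N N')
    {W1 : List (Lt k)} {z : ℕ}
    {B1 B2 : List (Node Q D0 (Lt k))} {κ : Node Q D0 (Lt k)}
    {lam rho : List (Lt k)} (h : At N' W1 z B1 κ B2 lam rho) :
    ∃ A1 ν A2 D1 X1 X2 D2, At N W1 z A1 ν A2 (catO X1 ++ lam) (rho ++ catO X2) ∧
      RS U A1 D1 ∧ RS U [ν] (X1 ++ κ :: X2) ∧ RS U A2 D2 ∧ B1 = D1 ++ X1 ∧ B2 = X2 ++ D2 := by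
  rw [h.hN] at hRS
  obtain ⟨A1, ν, A2, D1, X1, X2, D2, e1, e2, e3, e4, e5, e6⟩ := hRS.ancestor
  refine ⟨A1, ν, A2, D1, X1, X2, D2, ⟨e1, ?_, ?_⟩, e2, e3, e4, e5, e6⟩
  · have := e3.catO
    simp only [catO_append, catO_cons, catO_nil, List.append_nil] at this
    rw [← this, h.hO]
    simp
  · rw [← h.hW, e5, catO_append, e2.catO]
    simp

end

section

variable {k : ℕ} {D0 : Type} {G : ETOL D0} {h : Lt k → List D0}
  {T : List (G.Sig → Set (List G.Sig))} {w : List (Lt k)} {L : ℕ} (c : Ctx G h T w L)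

/-- A block whose second unit stays in one good node between the levels `s1` and `s2`. -/
structure Ctx.Act (s1 s2 : ℕ) (W1 : List (Lt k)) (z : ℕ) : Prop where
  hcb : cb W1 = 1
  node : ∀ r, s1 ≤ r → r ≤ s2 → ∃ A1 ν A2 lam rho, At (c.D.N r) W1 z A1 ν A2 lam rho ∧
    small L ν = true ∧ (∀ κ ∈ A1, small L κ = true) ∧ LR lam ∧ RR rho

/-- A source in terms of the word -/
theorem Ctx.window {s : ℕ} (hs : s ≤ T.length) {i : ℕ} {a : Fin k} {u x : ℕ} {P1 : List (Lt k)}
    {x0 : Gm k} {y1 : ℕ} {G1 G2 : List (Gm k)} {y2 : ℕ} {x1 : Gm k} {Q1 : List (Lt k)}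
    (hS : SrcAt k w i a u x P1 x0 y1 G1 G2 y2 x1 Q1) (hx : 3 ≤ x)
    {A1 A2 : List (Node G.Sig D0 (Lt k))} {ν : Node G.Sig D0 (Lt k)} {lam rho : List (Lt k)}
    (hA : At (c.D.N s) (P1 ++ Lt.mn x0 :: (List.replicate y1 Lt.d ++ LW G1 a x)) (x - 2) A1 ν A2
      lam rho) :
    HasD ν.O ∨ ((∃ P2, catO A1 = P1 ++ Lt.mn x0 :: P2) ∧
      ((3 ^ i + 1 ≤ (mu ν.O).length ∧ (mu ν.O).length ≤ 2 * 3 ^ i + 2) ∨
      (lam <:+ LW G1 a x ∧ rho <+: RW G2 x))) := by
  have hw := hA.right (W2 := RW G2 x ++ (List.replicate y2 Lt.d ++ Lt.mn x1 :: Q1)) (by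
    rw [c.D.cat hs]; exact src_eq hS hx)
  obtain ⟨g1, l1, hg1⟩ : ∃ g1 l1, LW G1 a x = Lt.mn g1 :: l1 := by
    cases hG : G1 with
    | nil => have := hS.hG1; rw [hG] at this; simp at this
    | cons g G => exact ⟨g, _, rfl⟩
  obtain ⟨g2, l2, hg2⟩ : ∃ g2 l2, RW G2 x = l2 ++ [Lt.mn g2] := by
    rcases List.eq_nil_or_concat' G2 with h0 | ⟨G, g, h0⟩
    · have := hS.hG2; rw [h0] at this; simp at this
    · exact ⟨g, (List.replicate (x - 3) Lt.d' ++ comb k (x - 3)) ++ Lt.b :: G.map Lt.mn, by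
        simp [RW, h0]⟩
  rcases left_cases hS.hy1 hg1 hA.hW with h1 | ⟨h1, h2⟩
  · left; rw [hA.hO]; exact h1.append_right _
  rcases right_cases hS.hy2 hg2 hw with h3 | h3
  · left
    rw [hA.hO]
    have : lam ++ Lt.c :: (List.replicate (x - 2) Lt.d' ++ Lt.c :: rho) =
      (lam ++ Lt.c :: (List.replicate (x - 2) Lt.d' ++ [Lt.c])) ++ rho := by simp
    rw [this]
    exact h3.append_left _
  right
  refine ⟨h1, ?_⟩
  have hmu : (mu ν.O).length = (mu lam).length + (mu rho).length := by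
    rw [hA.hO]; simp
  have hG1 := hS.hG1
  have hG2 := hS.hG2
  have hL : (mu lam).length ≤ 3 ^ i + 1 := by
    rcases h2 with h2 | h2
    · have := mu_le_of_infix h2.isInfix
      rw [mu_LW] at this; omega
    · have := mu_le_of_infix h2.2.2.isInfix
      rw [mu_append, mu_LW] at this; simp at this; omega
  have hR : (mu rho).length ≤ 3 ^ i + 1 := by
    rcases h3 with h3 | h3
    · have := mu_le_of_infix h3.isInfix
      rw [mu_RW] at this; omega
    · have := mu_le_of_infix h3.2.2.isInfix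
      rw [mu_append, mu_RW] at this; simp at this; omega
  rcases h2 with h2 | h2
  · rcases h3 with h3 | h3
    · right; exact ⟨h2, h3⟩
    · left
      have := mu_le_of_infix h3.2.1.isInfix
      rw [mu_RW] at this
      constructor <;> omega
  · left
    have := mu_le_of_infix h2.2.1.isInfix
    rw [mu_LW] at this
    constructor <;> omega

end

end Pool.Agent.H12E
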