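import Pool.Agent.H12E.Good

/-! Word lemmas for broken blocks, scanning lemma. -/

namespace Pool.Agent.H12E

section words

variable {k : ℕ}

theorem ca_le_nc (O : List (Lt k)) : ca O ≤ nc O := by
  induction O with
  | nil => simp
  | cons x O ih =>
    rw [ca_cons, nc_cons]
    split_ifs <;> omega

theorem ca_decomp {O : List (Lt k)} (h : 1 ≤ ca O) :
    ∃ κ O', O = κ ++ Lt.c :: O' ∧ sep κ = [] ∧ nc κ = 0 ∧ ca O = 1 + ca O' := by
  induction O with
  | nil => simp at h
  | cons x O ih =>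
    rw [ca_cons] at h
    by_cases hx : isSep x = true
    · simp [hx] at h
    · have hx' : isSep x = false := by simpa using hx
      by_cases hc : x = Lt.c
      · subst hc
        exact ⟨[], O, rfl, rfl, rfl, by rw [ca_cons]; simp [isSep]⟩
      · simp only [hx', Bool.false_eq_true, if_false, hc, Nat.zero_add] at h
        obtain ⟨κ, O', e1, e2, e3, e4⟩ := ih h
        refine ⟨x :: κ, O', by rw [e1]; rfl, ?_, ?_, ?_⟩
        · rw [sep_cons]; simp [hx', e2]
        · rw [nc_cons]; simp [hc, e3]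
        · rw [ca_cons]; simp [hx', hc, e4]

theorem sep_head {O : List (Lt k)} {g : Lt k} {l : List (Lt k)} (h : sep O = g :: l) :
    ∃ κ Y, O = κ ++ g :: Y ∧ sep κ = [] := by
  induction O with
  | nil => simp at h
  | cons x O ih =>
    rw [sep_cons] at h
    by_cases hx : isSep x = true
    · simp only [hx, if_true, List.cons.injEq] at h
      exact ⟨[], O, by rw [h.1]; rfl, rfl⟩
    · have hx' : isSep x = false := by simpa using hx
      simp only [hx', Bool.false_eq_true, if_false] at h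
      obtain ⟨κ, Y, e1, e2⟩ := ih h
      exact ⟨x :: κ, Y, by rw [e1]; rfl, by rw [sep_cons]; simp [hx', e2]⟩

theorem isSep_of_sep_head {O : List (Lt k)} {g : Lt k} {l : List (Lt k)} (h : sep O = g :: l) :
    isSep g = true := by
  have : g ∈ sep O := by rw [h]; simp
  exact (List.mem_filter.1 this).2

theorem comb_letters {x : ℕ} {z : Lt k} (h : z ∈ comb k x) : z = Lt.c ∨ z = Lt.d' := by
  induction x with
  | zero => simp [comb] at h
  | succ x ih =>
    rw [comb, List.mem_cons, List.mem_append] at h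
    rcases h with h | h | h
    · left; exact h
    · right; exact (List.mem_replicate.1 h).2
    · exact ih h

/-- between two `c` there are only `d'` -/
theorem c_dprime {W1 κ W2 : List (Lt k)} (h : W1 ++ Lt.c :: (κ ++ Lt.c :: W2) ∈ Lk k)
    (h1 : sep κ = []) (h2 : nc κ = 0) : κ = List.replicate κ.length Lt.d' := by
  obtain ⟨g, -, hg⟩ := h
  obtain ⟨G1, x, G2, V1, X1, X2, v2, e1, e2, e3, e4, e5, e6, e7⟩ := hg.locate rfl rfl
  obtain ⟨i, H1, H2, U1, U2, f1, f2, f3, f4, f5⟩ := blk_c e4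
  subst f3 f4
  have h3 : κ <+: U2 := by
    refine prefix_of_sepfree (S := κ) (P := Lt.c :: W2) (g := Lt.b) (V := v2) h1 rfl ?_
    rw [e3]; simp
  rw [List.eq_replicate_iff]
  refine ⟨rfl, ?_⟩
  intro z hz
  have hz2 : z ∈ comb k H2.length := by
    rw [f5]; simp [h3.subset hz]
  rcases comb_letters hz2 with h4 | h4
  · exfalso
    subst h4
    have : 0 < nc κ := List.count_pos_iff.2 hz
    omega
  · exact h4

theorem nc_prefix_cases {A B C' D : List (Lt k)} (h : A ++ B = C' ++ Lt.c :: D) :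
    (nc A ≤ nc C' ∧ ∃ a, C' = A ++ a ∧ B = a ++ Lt.c :: D) ∨
    (nc C' < nc A ∧ ∃ a, A = C' ++ Lt.c :: a ∧ D = a ++ B) := by
  rcases List.append_eq_append_iff.1 h with ⟨a, h1, h2⟩ | ⟨a, h1, h2⟩
  · left; exact ⟨by rw [h1]; simp, a, h1, h2⟩
  · cases a with
    | nil =>
      left
      rw [List.append_nil] at h1
      exact ⟨by rw [h1], [], by simp [h1], by simpa using h2.symm⟩
    | cons z a =>
      simp only [List.cons_append, List.cons.injEq] at h2
      right
      refine ⟨by rw [h1, ← h2.1]; simp [nc_cons], a, by rw [h1, ← h2.1], h2.2⟩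

theorem sep_prefix_cases {A B R W : List (Lt k)} {g : Lt k} (hR : sep R = [])
    (h : A ++ B = R ++ g :: W) :
    (sep A = [] ∧ ∃ a, R = A ++ a ∧ B = a ++ g :: W) ∨
    (∃ a, A = R ++ g :: a ∧ W = a ++ B) := by
  rcases List.append_eq_append_iff.1 h with ⟨a, h1, h2⟩ | ⟨a, h1, h2⟩
  · left
    rw [h1, sep_append] at hR
    exact ⟨(List.append_eq_nil_iff.1 hR).1, a, h1, h2⟩
  · cases a with
    | nil =>
      left
      rw [List.append_nil] at h1
      exact ⟨by rw [h1]; exact hR, [], by simp [h1], by simpa using h2.symm⟩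
    | cons z a =>
      simp only [List.cons_append, List.cons.injEq] at h2
      right
      exact ⟨a, by rw [h1, ← h2.1], h2.2⟩

/-- exponent function -/
def ex (O : List (Lt k)) : ℕ :=
  if 3 ≤ ca O then
    1 + (((O.dropWhile (fun z => decide (z ≠ Lt.c))).drop 1).takeWhile
      (fun z => decide (z ≠ Lt.c))).length
  else ca O

theorem not_mem_of_nc {κ : List (Lt k)} (h : nc κ = 0) : ∀ z ∈ κ, z ≠ Lt.c := by
  intro z hz hzc
  subst hzc
  have : 0 < nc κ := List.count_pos_iff.2 hz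
  omega

theorem ex_eq {κ Y : List (Lt k)} {z : ℕ} (hκ : nc κ = 0)
    (h : 3 ≤ ca (κ ++ Lt.c :: (List.replicate z Lt.d' ++ Lt.c :: Y))) :
    ex (κ ++ Lt.c :: (List.replicate z Lt.d' ++ Lt.c :: Y)) = 1 + z := by
  have h1 : ∀ κ : List (Lt k), nc κ = 0 → ∀ W : List (Lt k), (κ ++ Lt.c :: W).dropWhile
      (fun z => decide (z ≠ Lt.c)) = Lt.c :: W := by
    intro κ hκ W
    have := not_mem_of_nc hκ
    induction κ with
    | nil => simp [List.dropWhile_cons]
    | cons x κ ih =>
      have h2 := this x List.mem_cons_self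
      rw [nc_cons] at hκ
      simp only [List.cons_append, List.dropWhile_cons]
      rw [if_pos (by simpa using h2)]
      exact ih (by omega) (fun z hz => this z (List.mem_cons_of_mem _ hz))
  have h2 : ∀ z : ℕ, ∀ W : List (Lt k), (List.replicate z Lt.d' ++ Lt.c :: W).takeWhile
      (fun z => decide (z ≠ Lt.c)) = List.replicate z Lt.d' := by
    intro z W
    induction z with
    | zero => simp [List.takeWhile_cons]
    | succ z ih => rw [List.replicate_succ, List.cons_append, List.takeWhile_cons, ih]; simp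
  unfold ex
  rw [if_pos h, h1 κ hκ, List.drop_one, List.tail_cons, h2]
  simp

/-- decomposition of a factor with at least three `c` at the beginning -/
theorem three_c {W1 O W2 : List (Lt k)} (hw : W1 ++ (O ++ W2) ∈ Lk k) (h : 3 ≤ ca O) :
    ∃ κ z Y, O = κ ++ Lt.c :: (List.replicate z Lt.d' ++ Lt.c :: Y) ∧ sep κ = [] ∧ nc κ = 0 ∧
      ex O = 1 + z := by
  obtain ⟨κ, O', e1, e2, e3, e4⟩ := ca_decomp (O := O) (by omega)
  obtain ⟨κ2, O2, f1, f2, f3, f4⟩ := ca_decomp (O := O') (by omega)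
  have h1 := c_dprime (W1 := W1 ++ κ) (κ := κ2) (W2 := O2 ++ W2) (by
    rw [e1, f1] at hw; simpa using hw) f2 f3
  have h2 : O = κ ++ Lt.c :: (List.replicate κ2.length Lt.d' ++ Lt.c :: O2) := by
    rw [e1, f1, ← h1]
  refine ⟨κ, κ2.length, O2, h2, e2, e3, ?_⟩
  rw [h2] at h ⊢
  exact ex_eq e3 h

end words

section

variable {k : ℕ} {Q D0 : Type}

/-- position of a letter in a list of nodes -/
theorem locate_letter {N : List (Node Q D0 (Lt k))} {W R : List (Lt k)} {g : Lt k}
    (h : catO N = W ++ g :: R) : ∃ M0 ν0 M1 o1 o2, N = M0 ++ ν0 :: M1 ∧ ν0.O = o1 ++ g :: o2 ∧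
      W = catO M0 ++ o1 ∧ R = o2 ++ catO M1 := by
  induction N generalizing W with
  | nil => simp at h
  | cons ν N ih =>
    rw [catO_cons] at h
    rcases append_eq_append_cons h with ⟨X2, h1, h2⟩ | ⟨W', h1, h2⟩
    · exact ⟨[], ν, N, W, X2, rfl, h1, by simp, h2⟩
    · obtain ⟨M0, ν0, M1, o1, o2, e1, e2, e3, e4⟩ := ih h2
      exact ⟨ν :: M0, ν0, M1, o1, o2, by rw [e1]; rfl, e2, by rw [h1, e3]; simp, e4⟩

end

section

variable {k : ℕ} {D0 : Type} {G : ETOL D0} {h : Lt k → List D0}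
  {T : List (G.Sig → Set (List G.Sig))} {w : List (Lt k)} {L : ℕ} (c : Ctx G h T w L)

/-- a broken block -/
structure Ctx.Brk (s : ℕ) (x g0 : ℕ) (M0 : List (Node G.Sig D0 (Lt k)))
    (ν0 : Node G.Sig D0 (Lt k)) (M2 : List (Node G.Sig D0 (Lt k))) (y : Node G.Sig D0 (Lt k))
    (M3 : List (Node G.Sig D0 (Lt k))) (o1 o2 : List (Lt k)) (a : Fin k) : Prop where
  hN : c.D.N s = M0 ++ ν0 :: (M2 ++ y :: M3)
  h0 : ν0.O = o1 ++ Lt.el a :: o2
  ho2 : sep o2 = []
  hn2 : nc o2 ≤ 2
  hM2 : ∀ ν ∈ M2, sep ν.O = [] ∧ nc ν.O ≤ 2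
  hx : ca (o2 ++ (catO M2 ++ (y.O ++ catO M3))) = x
  hx1 : 1 ≤ x
  hg0 : g0 = nc o2 + nc (catO M2)
  hy : (3 ≤ ca y.O ∧ ∃ V, o2 ++ catO M2 = Lt.c :: (List.replicate (x - 1) Lt.d' ++ Lt.c :: V)) ∨
    (ca y.O ≤ 2 ∧ ∃ κ Y, y.O = κ ++ Lt.b :: Y ∧ sep κ = [])
  hsm : small L y = true

theorem light_cat {Q : Type} {M : List (Node Q D0 (Lt k))}
    (hM : ∀ ν ∈ M, sep ν.O = [] ∧ nc ν.O ≤ 2) : sep (catO M) = [] := by
  induction M with
  | nil => rfl
  | cons ν M ih =>
    rw [catO_cons, sep_append, (hM ν List.mem_cons_self).1,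
      ih (fun κ hκ => hM κ (List.mem_cons_of_mem _ hκ))]
    rfl

theorem mu_of_sep {O : List (Lt k)} (h : sep O = []) : mu O = [] := by
  rw [← mu_sep, h]; rfl

/-- scanning -/
theorem Ctx.scan {s : ℕ} (hs : s ≤ T.length) {W0 W3 : List (Lt k)} {a : Fin k} {x : ℕ}
    (hx : 3 ≤ x) (hw : w = W0 ++ Lt.el a :: (comb k x ++ Lt.b :: W3))
    (hlt : (mu W0).length < c.p s)
    (hbrk : ¬ ∃ A1 ν A2 lam rho, At (c.D.N s)
      (W0 ++ Lt.el a :: Lt.c :: List.replicate (x - 1) Lt.d') (x - 2) A1 ν A2 lam rho) :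
    ∃ g0 M0 ν0 M2 y M3 o1 o2, c.Brk s x g0 M0 ν0 M2 y M3 o1 o2 a := by
  have hcat := (c.D.cat hs).trans hw
  obtain ⟨M0, ν0, M1, o1, o2, e1, e2, e3, e4⟩ := locate_letter hcat
  -- the form of the comb
  have hcomb : comb k x ++ Lt.b :: W3 = (Lt.c :: (List.replicate (x - 1) Lt.d' ++ Lt.c ::
      List.replicate (x - 2) Lt.d')) ++ Lt.c :: ((List.replicate (x - 3) Lt.d' ++
      comb k (x - 3)) ++ Lt.b :: W3) := by
    rw [comb_three hx]; simp
  have hcomb2 : comb k x ++ Lt.b :: W3 = (Lt.c :: List.replicate (x - 1) Lt.d') ++ Lt.c ::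
      (List.replicate (x - 2) Lt.d' ++ Lt.c :: ((List.replicate (x - 3) Lt.d' ++
      comb k (x - 3)) ++ Lt.b :: W3)) := by
    rw [comb_three hx]; simp
  have hn2 : nc o2 ≤ 2 := by
    by_contra hcon
    rcases nc_prefix_cases (e4.symm.trans hcomb) with ⟨h1, -⟩ | ⟨-, rho, h1, -⟩
    · simp [nc_cons] at h1; omega
    · apply hbrk
      refine ⟨M0, ν0, M1, o1 ++ Lt.el a :: Lt.c :: List.replicate (x - 1) Lt.d', rho, e1, ?_, ?_⟩
      · rw [e2, h1]; simp
      · rw [e3]; simp
  have ho2 : sep o2 = [] := by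
    rcases sep_prefix_cases (g := Lt.b) (sep_comb x) e4.symm with ⟨h1, -⟩ | ⟨t, h1, -⟩
    · exact h1
    · exfalso
      rw [h1] at hn2
      simp [nc_cons] at hn2
      omega
  -- scanning
  let lt : Node G.Sig D0 (Lt k) → Bool := fun ν => decide (sep ν.O = [] ∧ nc ν.O ≤ 2)
  have hM1 : M1 = M1.takeWhile lt ++ M1.dropWhile lt := List.takeWhile_append_dropWhile.symm
  have hlight : ∀ ν ∈ M1.takeWhile lt, sep ν.O = [] ∧ nc ν.O ≤ 2 := by
    intro ν hν
    have := List.mem_takeWhile_imp hν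
    simpa [lt] using this
  rcases dropWhile_head (p := lt) (l := M1) with hd | ⟨y, M3, hd, hy⟩
  · exfalso
    rw [hd, List.append_nil] at hM1
    rw [hM1] at e4
    have h1 := congrArg sep e4
    rw [sep_append, sep_append, ho2, light_cat hlight, sep_comb, sep_cons] at h1
    simp [isSep] at h1
  · rw [hd] at hM1
    generalize hM2 : M1.takeWhile lt = M2 at hM1 hlight
    have hs2 : sep (catO M2) = [] := light_cat hlight
    have e5 : (o2 ++ catO M2) ++ (y.O ++ catO M3) = comb k x ++ Lt.b :: W3 := by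
      rw [e4, hM1]; simp
    have hsV : sep (o2 ++ catO M2) = [] := by simp [ho2, hs2]
    have hsm : small L y = true := by
      have hN : c.D.N s = (M0 ++ ν0 :: M2) ++ y :: M3 := by rw [e1, hM1]; simp
      refine (c.small_of_lt hN ?_).2
      have h1 : mu (catO (M0 ++ ν0 :: M2)) = mu W0 := by
        rw [e3]
        simp [e2, mu_of_sep ho2, mu_of_sep hs2]
      rw [h1]; exact hlt
    have hxx : ca (o2 ++ (catO M2 ++ (y.O ++ catO M3))) = x := by
      rw [← List.append_assoc, e5, ca_append_sepfree (sep_comb x)]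
      simp [ca_cons, isSep]
    refine ⟨nc o2 + nc (catO M2), M0, ν0, M2, y, M3, o1, o2, ⟨by rw [e1, hM1], e2, ho2, hn2, hlight,
      hxx, by omega, rfl, ?_, hsm⟩⟩
    by_cases h3 : 3 ≤ ca y.O
    · left
      refine ⟨h3, ?_⟩
      rcases nc_prefix_cases (e5.trans hcomb2) with ⟨h1, lam, h2, h4⟩ | ⟨h1, V, h2, -⟩
      · exfalso
        have h5 : y.O ++ catO M3 = (lam ++ Lt.c :: List.replicate (x - 2) Lt.d') ++ Lt.c ::
            ((List.replicate (x - 3) Lt.d' ++ comb k (x - 3)) ++ Lt.b :: W3) := by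
          rw [h4]; simp
        have hncl : nc lam ≤ 1 := by
          have := congrArg nc h2
          simp [nc_cons] at this
          omega
        rcases nc_prefix_cases h5 with ⟨h6, -⟩ | ⟨-, rho, h6, -⟩
        · have := ca_le_nc y.O
          simp [nc_cons] at h6
          omega
        · apply hbrk
          refine ⟨M0 ++ ν0 :: M2, y, M3, lam, rho, by rw [e1, hM1]; simp, ?_, ?_⟩
          · rw [h6]; simp
          · rw [e3, h2]; simp [e2]
      · exact ⟨V, by rw [h2]; simp⟩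
    · right
      refine ⟨by omega, ?_⟩
      obtain ⟨R, h1, h2⟩ : ∃ R, comb k x = (o2 ++ catO M2) ++ R ∧
          y.O ++ catO M3 = R ++ Lt.b :: W3 := by
        rcases sep_prefix_cases (g := Lt.b) (sep_comb x) e5 with ⟨-, R, h1, h2⟩ | ⟨t, h1, -⟩
        · exact ⟨R, h1, h2⟩
        · exfalso
          rw [h1, sep_append, sep_cons] at hsV
          simp [isSep] at hsV
      have hR : sep R = [] := by
        have := sep_comb (k := k) x
        rw [h1, sep_append] at this
        exact (List.append_eq_nil_iff.1 this).2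
      rcases sep_prefix_cases (g := Lt.b) hR h2 with ⟨h4, -⟩ | ⟨t, h4, -⟩
      · exfalso
        have h5 : nc y.O ≤ 2 := by rw [← ca_of_sepfree h4]; omega
        simp only [lt, decide_eq_false_iff_not] at hy
        exact hy ⟨h4, h5⟩
      · exact ⟨R, t, h4, hR⟩

end

end Pool.Agent.H12E
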