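import Pool.Agent.H12E.Target1

/-! Good targets. -/

namespace Pool.Agent.H12E

section

variable {k : ℕ} {D0 : Type} {G : ETOL D0} {h : Lt k → List D0}
  {T : List (G.Sig → Set (List G.Sig))} {w : List (Lt k)} {L : ℕ} (c : Ctx G h T w L)

theorem light_map {Q : Type} {φ : Node Q D0 (Lt k) → Node Q D0 (Lt k)}
    {M : List (Node Q D0 (Lt k))} (hM : ∀ ν ∈ M, sep ν.O = [] ∧ nc ν.O ≤ 2)
    (hφ : ∀ ν ∈ M, sym L ν = sym L (φ ν)) :
    sep (catO (M.map φ)) = [] ∧ nc (catO (M.map φ)) = nc (catO M) := by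
  induction M with
  | nil => exact ⟨rfl, rfl⟩
  | cons ν M ih =>
    obtain ⟨h1, h2⟩ := ih (fun κ hκ => hM κ (List.mem_cons_of_mem _ hκ))
      (fun κ hκ => hφ κ (List.mem_cons_of_mem _ hκ))
    obtain ⟨h3, h4⟩ := hM ν List.mem_cons_self
    have h5 := sym_feat (hφ ν List.mem_cons_self)
    have h6 := (Feat.sep_nil_iff h5).1 h3
    have h7 := Feat.ca_eq h5
    rw [ca_of_sepfree h3, ca_of_sepfree h6] at h7
    refine ⟨by simp [h6, h1], ?_⟩
    rw [List.map_cons, catO_cons, catO_cons, nc_append, nc_append, h2]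
    omega

theorem cb_of_label {o1 o2 : List (Lt k)} {a : Fin k} (h : sep o2 = []) :
    cb (o1 ++ Lt.el a :: o2) = nc o2 := by
  have : o1 ++ Lt.el a :: o2 = (o1 ++ [Lt.el a]) ++ o2 := by simp
  rw [this, cb_append_sepfree h, cb_append_sep (by simp [sep_cons, isSep])]
  simp [cb, ca_cons, isSep]

namespace Ctx

variable {c}

theorem factor_of_mem {s : ℕ} (hs : s ≤ T.length) {ν : Node G.Sig D0 (Lt k)}
    (hν : ν ∈ c.D.N s) : ∃ W1 W2, W1 ++ (ν.O ++ W2) ∈ Lk k := by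
  obtain ⟨A1, A2, hA⟩ := List.append_of_mem hν
  refine ⟨catO A1, catO A2, ?_⟩
  have := c.D.cat hs
  rw [hA] at this
  simp only [catO_append, catO_cons] at this
  rw [this]; exact c.hw

theorem Brk.exq {s : ℕ} (hs : s ≤ T.length) {x g0 : ℕ} {M0 M2 M3 : List (Node G.Sig D0 (Lt k))}
    {ν0 y : Node G.Sig D0 (Lt k)} {o1 o2 : List (Lt k)} {a : Fin k}
    (hB : c.Brk s x g0 M0 ν0 M2 y M3 o1 o2 a) {κ : Node G.Sig D0 (Lt k)} (hκ : κ ∈ c.D.N s)
    (hsym : sym L y = sym L κ) : x = g0 + ex κ.O := by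
  have hca := Feat.ca_eq (sym_feat hsym)
  have hs2 : sep (catO M2) = [] := light_cat hB.hM2
  rcases hB.hy with ⟨h1, V, hV⟩ | ⟨h1, κ', Y, h2, h3⟩
  · obtain ⟨U1, U2, hU⟩ := factor_of_mem hs hκ
    obtain ⟨κ', z, Y, e1, e2, e3, e4⟩ := three_c hU (by omega)
    have hN : c.D.N s = (M0 ++ ν0 :: M2) ++ y :: M3 := by rw [hB.hN]; simp
    have hw' := c.exch hs hN hκ (sym_ty hsym)
    have hw1 : (catO M0 ++ (o1 ++ [Lt.el a])) ++ Lt.c :: (List.replicate (x - 1) Lt.d' ++ Lt.c ::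
        (V ++ (κ.O ++ catO M3))) ∈ Lk k := by
      have : (catO M0 ++ (o1 ++ [Lt.el a])) ++ Lt.c :: (List.replicate (x - 1) Lt.d' ++ Lt.c ::
        (V ++ (κ.O ++ catO M3))) = catO (M0 ++ ν0 :: M2) ++ (κ.O ++ catO M3) := by
        simp only [catO_append, catO_cons, hB.h0, List.append_assoc, List.cons_append,
          List.nil_append]
        congr 3
        have := congrArg (fun z => z ++ (κ.O ++ catO M3)) hV
        simpa using this.symm
      rw [this]; exact hw'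
    obtain ⟨i1, -, f1, -⟩ := F2 hw1
    have hw2 : (catO (M0 ++ ν0 :: M2) ++ κ') ++ Lt.c :: (List.replicate z Lt.d' ++ Lt.c ::
        (Y ++ catO M3)) ∈ Lk k := by
      rw [e1] at hw'; simpa using hw'
    obtain ⟨i2, -, f2, -⟩ := F2 hw2
    have hsV : sep V = [] := by
      have : sep (o2 ++ catO M2) = [] := by simp [hB.ho2, hs2]
      rw [hV] at this
      simpa [sep_cons, isSep] using this
    have hnV : g0 = 2 + nc V := by
      have := congrArg nc hV
      simp only [nc_append, nc_cons, if_true, nc_replicate_d'] at this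
      rw [hB.hg0]
      omega
    have f3 : ca (Lt.c :: (V ++ (κ.O ++ catO M3))) = 1 + (nc V + (1 + z)) := by
      rw [ca_cons, ca_append_sepfree hsV, e1]
      have : κ' ++ Lt.c :: (List.replicate z Lt.d' ++ Lt.c :: Y) ++ catO M3 =
        κ' ++ Lt.c :: (List.replicate z Lt.d' ++ (Lt.c :: (Y ++ catO M3))) := by simp
      rw [this, ca_append_sepfree e2, e3, ca_cons, ca_append_sepfree (sep_replicate_d' z), f2]
      simp [isSep]
    have := hB.hx1
    omega
  · have h4 : ex κ.O = ca y.O := by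
      unfold Pool.Agent.H12E.ex
      rw [if_neg (by omega)]
      omega
    have h5 : sep y.O ≠ [] := by rw [h2]; simp [sep_cons, isSep]
    have h6 := hB.hx
    rw [ca_append_sepfree hB.ho2, ca_append_sepfree hs2, ca_append_sep h5] at h6
    rw [h4, hB.hg0]
    omega

theorem Brk.hyb {s s' : ℕ} (hs : s ≤ T.length) (hs' : s' ≤ T.length) {x g0 : ℕ}
    {M0 M2 M3 : List (Node G.Sig D0 (Lt k))}
    {ν0 y : Node G.Sig D0 (Lt k)} {o1 o2 : List (Lt k)} {a : Fin k}
    (hB : c.Brk s x g0 M0 ν0 M2 y M3 o1 o2 a)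
    {φ : Node G.Sig D0 (Lt k) → Node G.Sig D0 (Lt k)}
    (hφ : ∀ ν ∈ c.D.N s, sym L ν = sym L (φ ν) ∧ φ ν ∈ c.D.N s') :
    g0 + Pool.Agent.H12E.ex (φ y).O < (mu (catO ((c.D.N s).map φ))).length ∧
    (mu (catO ((c.D.N s).map φ)))[(mu (catO ((c.D.N s).map φ))).length - 1 -
      (g0 + Pool.Agent.H12E.ex (φ y).O)]? = some Gm.m := by
  have hw' : catO ((c.D.N s).map φ) ∈ Lk k := by
    refine c.hybN hs hs' (forall₂_map_right (R := fun ν ν' : Node G.Sig D0 (Lt k) => ν.ty = ν'.ty)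
      (fun ν hν => sym_ty (hφ ν hν).1)) ?_
    intro ν' hν'
    obtain ⟨ν, h1, rfl⟩ := List.mem_map.1 hν'
    exact (hφ ν h1).2
  have hyN : y ∈ c.D.N s := by rw [hB.hN]; simp
  have hν0N : ν0 ∈ c.D.N s := by rw [hB.hN]; simp
  obtain ⟨hy1, hy2⟩ := hφ y hyN
  obtain ⟨h01, h02⟩ := hφ ν0 hν0N
  obtain ⟨l1, l2⟩ := light_map (L := L) (φ := φ) hB.hM2 (fun ν hν => (hφ ν (by rw [hB.hN]; simp [hν])).1)
  have hca := Feat.ca_eq (sym_feat hy1)
  set P := catO (M0.map φ) ++ ((φ ν0).O ++ catO (M2.map φ)) with hP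
  have hcat : catO ((c.D.N s).map φ) = P ++ ((φ y).O ++ catO (M3.map φ)) := by
    rw [hB.hN]; simp [hP]
  have hcbP : cb P = g0 := by
    have h1 : sep ν0.O ≠ [] := by rw [hB.h0]; simp [sep_cons, isSep]
    have h2 : sep (φ ν0).O ≠ [] := fun hc => h1 ((Feat.sep_nil_iff (sym_feat h01)).2 hc)
    have h3 := Feat.cb_eq (sym_feat h01)
    rw [hB.h0, cb_of_label hB.ho2] at h3
    have h4 : sep ((φ ν0).O ++ catO (M2.map φ)) ≠ [] := by
      intro hc; rw [sep_append] at hc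
      exact h2 (List.append_eq_nil_iff.1 hc).1
    rw [hP, cb_append_sep h4, cb_append_sepfree l1, l2, hB.hg0]
    have := hB.hn2
    omega
  rw [hcat] at hw' ⊢
  rcases hB.hy with ⟨h1, -⟩ | ⟨h1, κ', Y, h2, h3⟩
  · obtain ⟨U1, U2, hU⟩ := factor_of_mem hs' hy2
    obtain ⟨κ', z, Y, e1, e2, e3, e4⟩ := three_c hU (by omega)
    have hw2 : P ++ ((φ y).O ++ catO (M3.map φ)) = (P ++ κ') ++ Lt.c :: (List.replicate z Lt.d' ++
        Lt.c :: (Y ++ catO (M3.map φ))) := by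
      rw [e1]; simp
    rw [hw2] at hw' ⊢
    obtain ⟨i, hi, -⟩ := F2 hw'
    rw [cb_append_sepfree e2, hcbP, e3] at hi
    have h5 : g0 + Pool.Agent.H12E.ex (φ y).O = g0 + 0 + 1 + z := by rw [e4]; omega
    rw [h5]
    have := hi.hx
    exact ⟨by omega, hi.hmark⟩
  · have h5 := Feat.sep_eq (sym_feat hy1) (small_iff.1 hB.hsm)
    have h6 : sep (φ y).O = Lt.b :: sep Y := by
      rw [← h5, h2, sep_append, h3, sep_cons]; simp [isSep]
    obtain ⟨κ2, Y2, e1, e2⟩ := sep_head h6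
    have hw2 : P ++ ((φ y).O ++ catO (M3.map φ)) = (P ++ κ2) ++ Lt.b :: (Y2 ++ catO (M3.map φ)) := by
      rw [e1]; simp
    rw [hw2] at hw' ⊢
    obtain ⟨i, hi⟩ := F3 hw'
    rw [cb_append_sepfree e2, hcbP] at hi
    have h7 : ca (φ y).O = nc κ2 := by
      rw [e1, ca_append_sepfree e2, ca_cons]; simp [isSep]
    have h8 : Pool.Agent.H12E.ex (φ y).O = nc κ2 := by
      unfold Pool.Agent.H12E.ex
      rw [if_neg (by omega), h7]
    rw [h8]
    have := hi.hx
    exact ⟨by omega, hi.hmark⟩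

end Ctx

end

section

variable {k n0 C C' L J : ℕ} {D0 : Type} {G : ETOL D0} {h : Lt k → List D0}
  {T : List (G.Sig → Set (List G.Sig))} {lay : Layout k n0 C C' L J} (E : Env lay G h T)

/-- Good targets exist. -/
theorem Env.good_target (hC2 : 2 * nsym G.Sig h L < C') {q1 q2 q3 : ℕ} {a : Fin k} (hq1 : q1 < q2)
    (hq2 : q2 < q3) (hq3 : q3 < n0 ^ k) (hR : E.c.Ref (E.lev q2) = E.c.Ref (E.lev q3))
    (ht : E.c.tail (E.lev q2) = E.c.tail (E.lev q3)) (W0 W3 : ℕ → List (Lt k))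
    (hW : ∀ b < C', lay.w = W0 b ++ Lt.el a :: (comb k ((mu lay.w).length - 1 - lay.mrk q2 b) ++
      Lt.b :: W3 b) ∧ (mu (W0 b)).length < lay.pos q1) :
    ∃ b < C', ∃ A1 ν A2 lam rho, At (E.c.D.N (E.lev q2))
      (W0 b ++ Lt.el a :: Lt.c :: List.replicate ((mu lay.w).length - 1 - lay.mrk q2 b - 1) Lt.d')
      ((mu lay.w).length - 1 - lay.mrk q2 b - 2) A1 ν A2 lam rho := by
  classical
  by_contra hcon
  have hq2k : q2 < n0 ^ k := by omega
  have hs := E.lev_le q2 hq2k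
  have hs' := E.lev_le q3 hq3
  have hBrk : ∀ b ∈ Finset.range C', ∃ y : Node G.Sig D0 (Lt k), ∃ g0 : ℕ, ∃ M0 ν0 M2 M3 o1 o2,
      E.c.Brk (E.lev q2) ((mu lay.w).length - 1 - lay.mrk q2 b) g0 M0 ν0 M2 y M3 o1 o2 a := by
    intro b hb
    rw [Finset.mem_range] at hb
    obtain ⟨h1, h2⟩ := hW b hb
    have h3 := lay.mk_small q2 hq2k b hb
    have h4 := lay.pos_mono E.hC' hq1.le hq2k
    have h5 := E.lev_lb q2 hq2k
    obtain ⟨g0, M0, ν0, M2, y, M3, o1, o2, hB⟩ := E.c.scan hs (x := (mu lay.w).length - 1 -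
      lay.mrk q2 b) (by omega) h1 (by omega) (fun hc => hcon ⟨b, hb, hc⟩)
    exact ⟨y, g0, M0, ν0, M2, M3, o1, o2, hB⟩
  have hne : Nonempty (Node G.Sig D0 (Lt k)) := by
    obtain ⟨y, -⟩ := hBrk 0 (by have := E.hC'; simp; omega)
    exact ⟨y⟩
  choose! y g hyg using hBrk
  obtain ⟨φ, hφ1, hφ2⟩ := E.c.images hR
  set w' := catO ((E.c.D.N (E.lev q2)).map φ) with hw'
  have hmu : mu w' = (mu lay.w).take (E.c.p (E.lev q2)) ++ (mu lay.w).drop (E.c.p (E.lev q3)) :=
    E.c.T4 hs hs' ht (Ctx.forall₂_map_right (R := fun ν ν' => sym L ν = sym L ν' ∧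
      ν' ∈ E.c.D.N (E.lev q3)) (fun ν hν => hφ1 ν hν))
  have hpn : ∀ s ≤ T.length, E.c.p s ≤ (mu lay.w).length := by
    intro s hs
    have h1 := congrArg (fun z => (mu z).length) (E.c.D.cat hs)
    rw [E.c.pre_post s] at h1
    simp only [catO_append, mu_append, List.length_append] at h1
    unfold Ctx.p msum
    omega
  have hp1 := hpn _ hs
  have hp2 := hpn _ hs'
  have hpm := E.p_mono _ _ (E.lev_mono q2 q3 hq2.le hq3) hs'
  have hlen : (mu w').length = E.c.p (E.lev q2) + ((mu lay.w).length - E.c.p (E.lev q3)) := by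
    rw [hmu]; simp; omega
  -- data
  let xp : ℕ → ℕ := fun b => g b + ex (φ (y b)).O
  let tp : ℕ → ℕ := fun b => (mu w').length - 1 - xp b
  have hxp : ∀ b < C', xp b < (mu w').length ∧ (mu w')[tp b]? = some Gm.m := by
    intro b hb
    obtain ⟨M0, ν0, M2, M3, o1, o2, hB⟩ := hyg b (Finset.mem_range.2 hb)
    exact hB.hyb hs hs' hφ1
  have hyN : ∀ b < C', y b ∈ E.c.D.N (E.lev q2) := by
    intro b hb
    obtain ⟨M0, ν0, M2, M3, o1, o2, hB⟩ := hyg b (Finset.mem_range.2 hb)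
    rw [hB.hN]; simp
  have : Finite G.Sig := G.fin
  have hfin : (symSet h L : Set (SymT G.Sig D0 k)).Finite := symSet_finite h L
  have hcard : (hfin.toFinset ×ˢ (Finset.univ : Finset Bool)).card < (Finset.range C').card := by
    rw [Finset.card_product, ← Set.ncard_eq_toFinset_card _ hfin, Finset.card_range]
    simp only [Finset.card_univ, Fintype.card_bool]
    unfold nsym at hC2
    omega
  obtain ⟨b, hb, b', hb', hne2, heq⟩ := Finset.exists_ne_map_eq_of_card_lt_of_maps_to hcard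
    (f := fun b => (sym L (y b), decide (tp b < E.c.p (E.lev q2)))) (by
      intro b hb
      have hb' : b < C' := by simpa using hb
      simp only [Finset.coe_product, Set.Finite.coe_toFinset, Finset.coe_univ, Set.mem_prod,
        Set.mem_univ, and_true]
      exact E.c.ref_sub hs ⟨y b, hyN b hb', rfl⟩)
  rw [Finset.mem_range] at hb hb'
  simp only [Prod.mk.injEq, decide_eq_decide] at heq
  obtain ⟨hsym, hside⟩ := heq
  -- the relation
  have hrel : xp b + ((mu lay.w).length - 1 - lay.mrk q2 b') =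
      xp b' + ((mu lay.w).length - 1 - lay.mrk q2 b) := by
    obtain ⟨M0, ν0, M2, M3, o1, o2, hB⟩ := hyg b (Finset.mem_range.2 hb)
    obtain ⟨M0', ν0', M2', M3', o1', o2', hB'⟩ := hyg b' (Finset.mem_range.2 hb')
    have e1 := hB.exq hs (hyN b' hb') hsym
    have e2 := hB'.exq hs (hyN b' hb') rfl
    have e3 := hφ2 _ _ hsym
    simp only [xp]
    rw [e3]
    omega
  have m1 := lay.mk_small q2 hq2k b hb
  have m2 := lay.mk_small q2 hq2k b' hb'
  have mm1 := lay.mk_mark q2 hq2k b hb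
  have mm2 := lay.mk_mark q2 hq2k b' hb'
  obtain ⟨x1, x2⟩ := hxp b hb
  obtain ⟨x1', x2'⟩ := hxp b' hb'
  have hub := E.lev_ub q2 hq2k
  have hlb := E.lev_lb q3 hq3
  have hv1 := lay.pos_lt_mk q2 hq2k b hb
  have hv2 := lay.pos_lt_mk q2 hq2k b' hb'
  have hu1 := lay.mrk_lt_ev E.hC' hb hq2 hq3
  have hu2 := lay.mrk_lt_ev E.hC' hb' hq2 hq3
  have hu3 := lay.ev_lt_pos q3 hq3
  have hinj : lay.mrk q2 b ≠ lay.mrk q2 b' := fun hc => hne2 (lay.mk_inj q2 hq2k b hb b' hb' hc)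
  have htp : tp b = (mu w').length - 1 - xp b := rfl
  have htp' : tp b' = (mu w').length - 1 - xp b' := rfl
  by_cases hsd : tp b < E.c.p (E.lev q2)
  · have hsd' := hside.1 hsd
    rw [hmu, List.getElem?_append_left (by simp; omega), List.getElem?_take_of_lt hsd] at x2
    rw [hmu, List.getElem?_append_left (by simp; omega), List.getElem?_take_of_lt hsd'] at x2'
    rcases lt_or_gt_of_ne hinj with hlt | hlt
    · have := lay.sidon _ _ _ _ mm1 mm2 x2 x2' hlt (by omega)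
      omega
    · have := lay.sidon _ _ _ _ mm2 mm1 x2' x2 hlt (by omega)
      omega
  · have hsd' : ¬ tp b' < E.c.p (E.lev q2) := fun hc => hsd (hside.2 hc)
    have hl : ((mu lay.w).take (E.c.p (E.lev q2))).length = E.c.p (E.lev q2) := by
      simp; omega
    rw [hmu, List.getElem?_append_right (by omega), List.getElem?_drop, hl] at x2 x2'
    rcases lt_or_gt_of_ne hinj with hlt | hlt
    · have := lay.sidon _ _ _ _ mm1 mm2 x2 x2' hlt (by omega)
      omega
    · have := lay.sidon _ _ _ _ mm2 mm1 x2' x2 hlt (by omega)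
      omega

end

end Pool.Agent.H12E
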