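import Pool.Agent.H12E.Silence

/-! The tree argument. -/

namespace Pool.Agent.H12E

section tree

variable {α : Type}

/-- good blocks -/
def GoodB (cl : ℕ → α) (n0 N : ℕ) (χ : α) : ℕ → ℕ → Prop
  | 0, q => cl q = χ
  | h + 1, a => ∃ ch : ℕ → ℕ, (∀ j ≤ N, ch j / n0 = a) ∧ (∀ j j', j < j' → j' ≤ N → ch j < ch j') ∧
      ∀ j ≤ N, GoodB cl n0 N χ h (ch j)

theorem div_pow_succ (q n0 h : ℕ) : q / n0 ^ (h + 1) = (q / n0 ^ h) / n0 := by
  rw [pow_succ, Nat.div_div_eq_div_mul]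

theorem GoodB.leaf {cl : ℕ → α} {n0 N : ℕ} {χ : α} {h : ℕ} : ∀ {a : ℕ}, GoodB cl n0 N χ h a →
    ∃ q, q / n0 ^ h = a ∧ cl q = χ := by
  induction h with
  | zero => intro a ha; exact ⟨a, by simp, ha⟩
  | succ h ih =>
    rintro a ⟨ch, h1, -, h3⟩
    obtain ⟨q, hq, hq2⟩ := ih (h3 0 (Nat.zero_le _))
    exact ⟨q, by rw [div_pow_succ, hq, h1 0 (Nat.zero_le _)], hq2⟩

theorem exists_goodB {cl : ℕ → α} {n0 N k : ℕ} (hn0 : 1 ≤ n0) {S : Set α} (hS : S.Finite)
    (hcl : ∀ q < n0 ^ k, cl q ∈ S) (hn : S.ncard * (N + 1) ≤ n0) (h : ℕ) :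
    ∀ a, (a + 1) * n0 ^ h ≤ n0 ^ k → ∃ χ ∈ S, GoodB cl n0 N χ h a := by
  classical
  induction h with
  | zero =>
    intro a ha
    exact ⟨cl a, hcl a (by simpa using ha), rfl⟩
  | succ h ih =>
    intro a ha
    have hch : ∀ j ∈ Finset.range n0, ∃ χ, χ ∈ S ∧ GoodB cl n0 N χ h (n0 * a + j) := by
      intro j hj
      rw [Finset.mem_range] at hj
      refine (ih (n0 * a + j) ?_)
      refine le_trans ?_ ha
      rw [pow_succ]
      calc (n0 * a + j + 1) * n0 ^ h ≤ (n0 * a + n0) * n0 ^ h :=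
            Nat.mul_le_mul_right _ (by omega)
        _ = (a + 1) * (n0 ^ h * n0) := by ring
    have hne : Nonempty α := by
      obtain ⟨χ, -⟩ := hch 0 (Finset.mem_range.2 (by omega))
      exact ⟨χ⟩
    choose! f hf using hch
    have hSne : hS.toFinset.Nonempty := by
      refine ⟨f 0, ?_⟩
      simpa using (hf 0 (Finset.mem_range.2 (by omega))).1
    obtain ⟨χ, hχ, hcard⟩ := Finset.exists_le_card_fiber_of_mul_le_card_of_maps_to
      (s := Finset.range n0) (t := hS.toFinset) (f := f) (n := N + 1)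
      (by intro j hj; simpa using (hf j hj).1) hSne (by
        rw [← Set.ncard_eq_toFinset_card _ hS, Finset.card_range]; exact hn)
    refine ⟨χ, by simpa using hχ, ?_⟩
    set F := (Finset.range n0).filter (fun j => f j = χ) with hF
    let e := F.orderEmbOfFin rfl
    refine ⟨fun j => if hj : j < F.card then n0 * a + e ⟨j, hj⟩ else 0, ?_, ?_, ?_⟩
    · intro j hj
      have hj' : j < F.card := by omega
      have h1 : (e ⟨j, hj'⟩ : ℕ) ∈ F := Finset.orderEmbOfFin_mem F rfl _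
      have h2 := Finset.mem_range.1 (Finset.mem_filter.1 h1).1
      simp only [hj', dif_pos]
      rw [Nat.mul_add_div (by omega), Nat.div_eq_of_lt h2]
      rfl
    · intro j j' hjj hj
      have hj' : j' < F.card := by omega
      have hj'' : j < F.card := by omega
      simp only [hj', hj'', dif_pos]
      have : e ⟨j, hj''⟩ < e ⟨j', hj'⟩ := e.strictMono (by simpa using hjj)
      omega
    · intro j hj
      have hj' : j < F.card := by omega
      have h1 : (e ⟨j, hj'⟩ : ℕ) ∈ F := Finset.orderEmbOfFin_mem F rfl _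
      have h2 := Finset.mem_filter.1 h1
      simp only [hj', dif_pos]
      have h3 := (hf _ h2.1).2
      rw [h2.2] at h3
      exact h3

end tree

theorem finite_lists {α : Type} {S : Set α} (hS : S.Finite) (n : ℕ) :
    {l : List α | l.length ≤ n ∧ ∀ x ∈ l, x ∈ S}.Finite := by
  have : Finite S := hS
  have h1 : {l : List S | l.length ≤ n}.Finite := List.finite_length_le _ _
  refine (h1.image (List.map Subtype.val)).subset ?_
  rintro l ⟨h2, h3⟩
  refine ⟨l.pmap (fun x hx => ⟨x, hx⟩) h3, by simpa using h2, ?_⟩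
  simp [List.map_pmap]

section

variable {k : ℕ} {D0 : Type}

/-- possible classes -/
def clsSet (G : ETOL D0) (h : Lt k → List D0) (L ρ : ℕ) :
    Set (Set (SymT G.Sig D0 k) × List ((G.Sig × List D0 × List D0) ⊕ Gm k) × Set G.Sig) :=
  {x | x.1 ⊆ symSet h L ∧ (x.2.1.length ≤ (tySet G.Sig h).ncard + Bd G h L ρ ∧
    ∀ z ∈ x.2.1, z ∈ Sum.inl '' (tySet G.Sig h) ∪ Set.range Sum.inr)}

instance : Finite (Gm k) := by
  apply Finite.of_injective (fun x : Gm k => (Lt.mn x : Lt k))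
  intro x y h
  simpa using h

theorem clsSet_finite (G : ETOL D0) (h : Lt k → List D0) (L ρ : ℕ) :
    (clsSet G h L ρ).Finite := by
  have : Finite G.Sig := G.fin
  have h1 : (𝒫 (symSet h L : Set (SymT G.Sig D0 k))).Finite := (symSet_finite h L).finite_subsets
  have h2 := finite_lists (S := Sum.inl '' (tySet G.Sig h) ∪ Set.range
    (Sum.inr : Gm k → (G.Sig × List D0 × List D0) ⊕ Gm k))
    (((tySet_finite h).image _).union (Set.finite_range _))
    ((tySet G.Sig h).ncard + Bd G h L ρ)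
  refine (h1.prod (h2.prod (Set.finite_univ (α := Set G.Sig)))).subset ?_
  rintro ⟨a, b, c⟩ ⟨h3, h4⟩
  exact ⟨h3, h4, trivial⟩

end

section

variable {k n0 C C' L J : ℕ} {D0 : Type} {G : ETOL D0} {h : Lt k → List D0}
  {T : List (G.Sig → Set (List G.Sig))} {lay : Layout k n0 C C' L J} (E : Env lay G h T)

/-- the class of a leaf -/
def Env.cls (q : ℕ) : Set (SymT G.Sig D0 k) × List ((G.Sig × List D0 × List D0) ⊕ Gm k) ×
    Set G.Sig := (E.c.Ref (E.lev q), E.c.tail (E.lev q), E.c.Z (E.lev q))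

theorem Env.cls_mem {ρ : ℕ} (hρ : ∀ t ∈ T, ∀ a, ∀ u ∈ t a, u.length ≤ ρ) {q : ℕ}
    (hq : q < n0 ^ k) : E.cls q ∈ clsSet G h L ρ := by
  have hs := E.lev_le q hq
  refine ⟨E.c.ref_sub hs, ?_, ?_⟩
  · show (tl L (E.c.post (E.lev q))).length ≤ _
    rw [tl_length]
    have h1 : ((E.c.post (E.lev q)).filter (fun ν => !small L ν)).length ≤
        (tySet G.Sig h).ncard := by
      refine le_trans ?_ (E.c.bigs_length hs)
      rw [E.c.pre_post (E.lev q), List.filter_append, List.length_append]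
      omega
    have h2 : msum ((E.c.post (E.lev q)).filter (small L)) ≤ Bd G h L ρ := E.c.f_bound hρ hs
    omega
  · intro z hz
    have hz' : z ∈ tl L (E.c.post (E.lev q)) := hz
    rw [tl, List.mem_flatMap] at hz'
    obtain ⟨ν, hν, hz'⟩ := hz'
    cases h1 : small L ν
    · rw [h1] at hz'
      simp only [Bool.false_eq_true, if_false, List.mem_singleton] at hz'
      left
      refine ⟨ν.ty, ?_, hz'.symm⟩
      exact E.c.D.res _ hs ν (by rw [E.c.pre_post (E.lev q)]; simp [hν])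
    · rw [h1] at hz'
      simp only [if_true, List.mem_map] at hz'
      obtain ⟨x, -, hx⟩ := hz'
      right
      exact ⟨x, hx⟩

/-- A restatement of `good_source` -/
theorem Env.good_source' {q1 q2 b : ℕ} {a : Fin k} (hq : q1 < q2) (hq2 : q2 < n0 ^ k) (hb : b < C')
    (hblk : q1 / n0 ^ ((a : ℕ) + 1) = q2 / n0 ^ ((a : ℕ) + 1)) :
    ∃ W0 W3, lay.w = W0 ++ Lt.el a :: (comb k ((mu lay.w).length - 1 - lay.mrk q2 b) ++
      Lt.b :: W3) ∧ (mu W0).length < lay.pos q1 ∧
      ∀ s2, E.lev q1 ≤ s2 → s2 ≤ T.length → (∃ A1 ν A2 lam rho, At (E.c.D.N s2)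
        (W0 ++ Lt.el a :: Lt.c :: List.replicate ((mu lay.w).length - 1 - lay.mrk q2 b - 1) Lt.d')
        ((mu lay.w).length - 1 - lay.mrk q2 b - 2) A1 ν A2 lam rho) →
      E.c.Act (E.lev q1) s2
        (W0 ++ Lt.el a :: Lt.c :: List.replicate ((mu lay.w).length - 1 - lay.mrk q2 b - 1) Lt.d')
        ((mu lay.w).length - 1 - lay.mrk q2 b - 2) := by
  obtain ⟨i, hi, hiC, P1, x0, y1, G1, G2, y2, x1, Q1, hS, hgood⟩ := E.good_source hq hq2 hb hblk
  have hub := lay.src_ub i hi hiC q1 q2 hq hq2 b hb a hblk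
  have e : ∀ x, SW P1 x0 y1 G1 a x = (P1 ++ Lt.mn x0 :: (List.replicate y1 Lt.d ++ G1.map Lt.mn)) ++
      Lt.el a :: Lt.c :: List.replicate (x - 1) Lt.d' := by
    intro x; simp [SW, LW]
  refine ⟨P1 ++ Lt.mn x0 :: (List.replicate y1 Lt.d ++ G1.map Lt.mn),
    G2.map Lt.mn ++ (List.replicate y2 Lt.d ++ Lt.mn x1 :: Q1), ?_, ?_, ?_⟩
  · conv_lhs => rw [hS.hw]
    simp
  · have := hS.hu
    have := hS.hG1
    have h3 : 1 ≤ 3 ^ i := Nat.one_le_pow _ _ (by norm_num)
    simp [mu_map_mn]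
    omega
  · intro s2 hs hs2 hub2
    rw [← e] at hub2 ⊢
    exact E.act hS (by omega) (by
      have h3 : 1 ≤ 3 ^ i := Nat.one_le_pow _ _ (by norm_num)
      omega) hs hs2 hgood hub2

/-- A block which is silent between the levels of `v` and `zq`. -/
def Env.Beta (a : Fin k) (v zq : ℕ) : Prop :=
  ∃ q1 q2 b W0 W3, b < C' ∧ q1 < v ∧ v < zq ∧ zq < q2 ∧ q2 < n0 ^ k ∧
    lay.w = W0 ++ Lt.el a :: (comb k ((mu lay.w).length - 1 - lay.mrk q2 b) ++ Lt.b :: W3) ∧
    (mu W0).length < lay.pos q1 ∧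
    E.c.Act (E.lev q1) (E.lev q2)
      (W0 ++ Lt.el a :: Lt.c :: List.replicate ((mu lay.w).length - 1 - lay.mrk q2 b - 1) Lt.d')
      ((mu lay.w).length - 1 - lay.mrk q2 b - 2) ∧
    E.c.Sil (W0 ++ Lt.el a :: Lt.c :: List.replicate
      ((mu lay.w).length - 1 - lay.mrk q2 b - 1) Lt.d')
      ((mu lay.w).length - 1 - lay.mrk q2 b - 2) (E.lev v) (E.lev zq)

theorem lt_of_div_lt {a b n : ℕ} (h : a / n < b / n) : a < b := by
  by_contra hc
  exact absurd (Nat.div_le_div_right (c := n) (not_lt.1 hc)) (by omega)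

/-- main tree lemma -/
theorem Env.tree (hn0 : 1 ≤ n0) (hC2 : 2 * nsym G.Sig h L < C') {K : ℕ}
    (hK : nref G.Sig h L * (nsym G.Sig h L * 2) ≤ K) (χ : _) (hh : ℕ) :
    hh ≤ k → ∀ a, (a + 1) * n0 ^ hh ≤ n0 ^ k → GoodB E.cls n0 (2 * K + 4) χ hh a →
    ∃ v, v / n0 ^ hh = a ∧ ∃ zs : ℕ → ℕ, ∀ g : Fin k, (g : ℕ) < hh → E.cls (zs g) = χ ∧
      v / n0 ^ ((g : ℕ) + 1) = zs g / n0 ^ ((g : ℕ) + 1) ∧ v / n0 ^ (g : ℕ) < zs g / n0 ^ (g : ℕ) ∧
      E.Beta g v (zs g) := by
  induction hh with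
  | zero =>
    intro _ a ha hG
    exact ⟨a, by simp, fun _ => 0, fun g hg => absurd hg (by omega)⟩
  | succ hh ih =>
    intro hhk a ha hG
    obtain ⟨ch, hc1, hc2, hc3⟩ := hG
    have hpos : 0 < n0 ^ hh := Nat.pow_pos hn0
    -- range
    have hrange : ∀ j ≤ 2 * K + 4, (ch j + 1) * n0 ^ hh ≤ n0 ^ k := by
      intro j hj
      refine le_trans ?_ ha
      have h1 : ch j < n0 * (a + 1) := by
        have := hc1 j hj
        have h2 := Nat.lt_mul_div_succ (ch j) (show 0 < n0 by omega)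
        rw [this] at h2
        exact h2
      rw [pow_succ]
      calc (ch j + 1) * n0 ^ hh ≤ (n0 * (a + 1)) * n0 ^ hh := Nat.mul_le_mul_right _ h1
        _ = (a + 1) * (n0 ^ hh * n0) := by ring
    have hleafrange : ∀ j ≤ 2 * K + 4, ∀ q, q / n0 ^ hh = ch j → q < n0 ^ k := by
      intro j hj q hq
      have h2 := Nat.lt_mul_div_succ q hpos
      rw [hq] at h2
      have := hrange j hj
      rw [Nat.mul_comm] at this
      omega
    have hmono : ∀ j j', j ≤ j' → j' ≤ 2 * K + 4 → ch j ≤ ch j' := by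
      intro j j' h1 h2
      rcases h1.eq_or_lt with rfl | h1
      · exact le_rfl
      · exact (hc2 j j' h1 h2).le
    obtain ⟨q1, hq1, -⟩ := (hc3 0 (by omega)).leaf
    obtain ⟨q2, hq2, hq2c⟩ := (hc3 (2 * K + 3) (by omega)).leaf
    obtain ⟨q3, hq3, hq3c⟩ := (hc3 (2 * K + 4) (by omega)).leaf
    have q12 : q1 < q2 := lt_of_div_lt (n := n0 ^ hh) (by
      rw [hq1, hq2]; exact hc2 _ _ (by omega) (by omega))
    have q23 : q2 < q3 := lt_of_div_lt (n := n0 ^ hh) (by
      rw [hq2, hq3]; exact hc2 _ _ (by omega) (by omega))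
    have hq3k := hleafrange _ (by omega) q3 hq3
    have hq2k := hleafrange _ (by omega) q2 hq2
    have hq1k := hleafrange _ (by omega) q1 hq1
    let g0 : Fin k := ⟨hh, by omega⟩
    have hblk : q1 / n0 ^ ((g0 : ℕ) + 1) = q2 / n0 ^ ((g0 : ℕ) + 1) := by
      show q1 / n0 ^ (hh + 1) = q2 / n0 ^ (hh + 1)
      rw [div_pow_succ, div_pow_succ, hq1, hq2, hc1 _ (by omega), hc1 _ (by omega)]
    have hsrc : ∀ b ∈ Set.Iio C', ∃ W0 W3, lay.w = W0 ++ Lt.el g0 ::
        (comb k ((mu lay.w).length - 1 - lay.mrk q2 b) ++ Lt.b :: W3) ∧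
        (mu W0).length < lay.pos q1 ∧
        ∀ s2, E.lev q1 ≤ s2 → s2 ≤ T.length → (∃ A1 ν A2 lam rho, At (E.c.D.N s2)
          (W0 ++ Lt.el g0 :: Lt.c :: List.replicate ((mu lay.w).length - 1 - lay.mrk q2 b - 1) Lt.d')
          ((mu lay.w).length - 1 - lay.mrk q2 b - 2) A1 ν A2 lam rho) →
        E.c.Act (E.lev q1) s2
          (W0 ++ Lt.el g0 :: Lt.c :: List.replicate ((mu lay.w).length - 1 - lay.mrk q2 b - 1) Lt.d')
          ((mu lay.w).length - 1 - lay.mrk q2 b - 2) :=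
      fun b hb => E.good_source' q12 hq2k hb hblk
    choose! W0 W3 hW1 hW2 hW3 using hsrc
    have hcl : E.cls q2 = E.cls q3 := hq2c.trans hq3c.symm
    obtain ⟨b, hb, hAt⟩ := E.good_target hC2 q12 q23 hq3k (congrArg (fun z => z.1) hcl)
      (congrArg (fun z => z.2.1) hcl) W0 W3 (fun b hb => ⟨hW1 b hb, hW2 b hb⟩)
    have hAct := hW3 b hb (E.lev q2) (E.lev_mono _ _ q12.le hq2k) (E.lev_le q2 hq2k) hAt
    -- silence
    have hfirst : ∀ j ≤ 2 * K + 4, n0 ^ hh * ch j < n0 ^ k := by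
      intro j hj
      have := hrange j hj
      have h2 : (ch j + 1) * n0 ^ hh = n0 ^ hh * ch j + n0 ^ hh := by ring
      omega
    have hfirst_div : ∀ j, n0 ^ hh * ch j / n0 ^ hh = ch j := fun j =>
      Nat.mul_div_cancel_left _ hpos
    have hle_first : ∀ q j, q / n0 ^ hh < ch j → q ≤ n0 ^ hh * ch j := by
      intro q j hq
      exact (lt_of_div_lt (n := n0 ^ hh) (by rw [hfirst_div]; exact hq)).le
    have hfirst_le : ∀ q j, ch j ≤ q / n0 ^ hh → n0 ^ hh * ch j ≤ q := by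
      intro q j hq
      exact (Nat.mul_le_mul_left _ hq).trans (Nat.mul_div_le _ _)
    obtain ⟨m, m', hm, hm', hsil⟩ := hAct.silence (E.lev_le q2 hq2k) hK
      (fun m => E.lev (n0 ^ hh * ch (2 * m + 2))) (by
        intro m hm
        constructor
        · refine E.lev_mono _ _ (hle_first _ _ ?_) (hfirst _ (by omega))
          rw [hq1]; exact hc2 _ _ (by omega) (by omega)
        · refine E.lev_mono _ _ (hfirst_le _ _ ?_) hq2k
          rw [hq2]; exact hmono _ _ (by omega) (by omega)) (by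
        intro m m' hm hm'
        refine E.lev_mono _ _ (Nat.mul_le_mul_left _ (hmono _ _ (by omega) (by omega)))
          (hfirst _ (by omega)))
    obtain ⟨v, hv, zs, hzs⟩ := ih (by omega) (ch (2 * m + 2)) (hrange _ (by omega))
      (hc3 _ (by omega))
    obtain ⟨zh, hzh, hzhc⟩ := (hc3 (2 * m + 3) (by omega)).leaf
    have hzhk := hleafrange _ (by omega) zh hzh
    have hvz : v / n0 ^ hh < zh / n0 ^ hh := by
      rw [hv, hzh]; exact hc2 _ _ (by omega) (by omega)
    refine ⟨v, by rw [div_pow_succ, hv, hc1 _ (by omega)], fun g => if g = hh then zh else zs g, ?_⟩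
    intro g hg
    by_cases hgh : (g : ℕ) = hh
    · have hg0 : g = g0 := Fin.ext hgh
      subst hg0
      simp only [hgh, if_true]
      refine ⟨hzhc, ?_, hvz, ?_⟩
      · rw [div_pow_succ, div_pow_succ, hv, hzh, hc1 _ (by omega), hc1 _ (by omega)]
      · refine ⟨q1, q2, b, W0 b, W3 b, hb, ?_, lt_of_div_lt hvz, ?_, hq2k, hW1 b hb, hW2 b hb,
          hAct, ?_⟩
        · exact lt_of_div_lt (n := n0 ^ hh) (by
            rw [hq1, hv]; exact hc2 _ _ (by omega) (by omega))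
        · exact lt_of_div_lt (n := n0 ^ hh) (by
            rw [hzh, hq2]; exact hc2 _ _ (by omega) (by omega))
        · refine hsil _ _ ?_ ?_ ?_
          · exact E.lev_mono _ _ (hfirst_le _ _ (by rw [hv])) (hleafrange _ (by omega) v hv)
          · exact E.lev_mono _ _ (lt_of_div_lt hvz).le hzhk
          · refine E.lev_mono _ _ (hle_first _ _ ?_) (hfirst _ (by omega))
            rw [hzh]; exact hc2 _ _ (by omega) (by omega)
    · simp only [hgh, if_false]
      exact hzs g (by omega)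

end

end Pool.Agent.H12E
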